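import Mathlib

/-!
# The correction series and its iteration
-/

namespace Pool.Helper53.SG

open Complex Metric Set Filter Topology

/-- coefficients -/
noncomputable def cQ (p i : ℕ) : ℂ := ((bernoulli i * ((p + 1).choose i : ℚ) / (p + 1) : ℚ) : ℂ)

/-- Faulhaber polynomials divided by the variable -/
noncomputable def Qf (p : ℕ) (z : ℂ) : ℂ := ∑ i ∈ Finset.range (p + 1), cQ p i * z ^ (p - i)

lemma Qf_nat (p k : ℕ) : (k:ℂ) * Qf p (k:ℂ) = ∑ j ∈ Finset.range k, (j:ℂ) ^ p := by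
  have h := sum_range_pow k p
  have h2 : (∑ j ∈ Finset.range k, (j:ℂ) ^ p) = ((∑ j ∈ Finset.range k, (j : ℚ) ^ p : ℚ) : ℂ) := by
    push_cast; rfl
  rw [h2, h, Qf, Finset.mul_sum]
  push_cast
  apply Finset.sum_congr rfl
  intro i hi
  have hi' := Finset.mem_range.1 hi
  have e : p + 1 - i = (p - i) + 1 := by omega
  rw [e, pow_succ, cQ]
  push_cast
  ring

/-- norm bounds -/
noncomputable def CQ (p : ℕ) : ℝ := ∑ i ∈ Finset.range (p + 1), ‖cQ p i‖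

lemma CQ_nonneg (p : ℕ) : 0 ≤ CQ p := Finset.sum_nonneg (fun _ _ => norm_nonneg _)

lemma Qf_bound (p : ℕ) {z : ℂ} (hz : 1 ≤ ‖z‖) : ‖Qf p z‖ ≤ CQ p * ‖z‖ ^ p := by
  rw [Qf, CQ, Finset.sum_mul]
  refine (norm_sum_le _ _).trans (Finset.sum_le_sum (fun i _ => ?_))
  rw [norm_mul, norm_pow]
  have h : ‖z‖ ^ (p - i) ≤ ‖z‖ ^ p := pow_le_pow_right₀ hz (by omega)
  gcongr

lemma Qf_differentiable (p : ℕ) : Differentiable ℂ (Qf p) := by
  unfold Qf
  fun_prop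

/-- the correction sum -/
noncomputable def SI (I : ℕ) (z u : ℂ) : ℂ :=
  ∑ i ∈ Finset.range I, Qf (i + 1) z / ((i:ℂ) + 1) * u ^ (i + 1)

/-- sum of the constants -/
noncomputable def CI (I : ℕ) : ℝ := ∑ i ∈ Finset.range I, CQ (i + 1)

lemma CI_nonneg (I : ℕ) : 0 ≤ CI I := Finset.sum_nonneg (fun _ _ => CQ_nonneg _)

lemma SI_bound (I : ℕ) {z u : ℂ} (hz : 1 ≤ ‖z‖) (hu : ‖z‖ * ‖u‖ ≤ 1) :
    ‖SI I z u‖ ≤ CI I * (‖z‖ * ‖u‖) := by
  rw [SI, CI, Finset.sum_mul]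
  refine (norm_sum_le _ _).trans (Finset.sum_le_sum (fun i _ => ?_))
  rw [norm_mul, norm_div, norm_pow]
  have hi : ‖(i:ℂ) + 1‖ = (i:ℝ) + 1 := by
    have : ((i:ℂ) + 1) = (((i:ℝ) + 1 : ℝ) : ℂ) := by push_cast; ring
    rw [this, norm_real, Real.norm_eq_abs, abs_of_pos (by positivity)]
  rw [hi]
  have h1 := Qf_bound (i+1) hz
  have h2 : ‖Qf (i + 1) z‖ / ((i:ℝ) + 1) ≤ CQ (i + 1) * ‖z‖ ^ (i + 1) := by
    rw [div_le_iff₀ (by positivity)]
    have h3 : 0 ≤ CQ (i + 1) * ‖z‖ ^ (i + 1) := mul_nonneg (CQ_nonneg _) (by positivity)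
    have : (0:ℝ) ≤ i := Nat.cast_nonneg i
    nlinarith
  calc ‖Qf (i + 1) z‖ / ((i:ℝ) + 1) * ‖u‖ ^ (i + 1)
      ≤ CQ (i + 1) * ‖z‖ ^ (i + 1) * ‖u‖ ^ (i + 1) := by gcongr
    _ = CQ (i + 1) * (‖z‖ * ‖u‖) ^ (i + 1) := by rw [mul_pow]; ring
    _ ≤ CQ (i + 1) * (‖z‖ * ‖u‖) := by
        have h4 : (‖z‖ * ‖u‖) ^ (i + 1) ≤ ‖z‖ * ‖u‖ :=
          pow_le_of_le_one (by positivity) hu (by omega)
        exact mul_le_mul_of_nonneg_left h4 (CQ_nonneg _)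

lemma exp_neg_lip {w w' : ℂ} (hw : ‖w‖ ≤ 1) (hw' : ‖w'‖ ≤ 1) :
    ‖exp (-w) - exp (-w')‖ ≤ Real.exp 1 * ‖w - w'‖ := by
  have h := (convex_closedBall (0:ℂ) 1).norm_image_sub_le_of_norm_hasDerivWithin_le
    (f := fun w : ℂ => exp (-w)) (f' := fun w => -exp (-w)) (C := Real.exp 1) (x := w') (y := w)
    (fun x _ => by
      have := (hasDerivAt_id x).neg.cexp
      simpa using this.hasDerivWithinAt)
    (fun x hx => by
      rw [norm_neg, norm_exp]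
      apply Real.exp_le_exp.2
      have hx' : ‖x‖ ≤ 1 := by simpa using hx
      have := Complex.abs_re_le_norm (-x)
      rw [norm_neg] at this
      exact (le_abs_self _).trans (this.trans hx'))
    (by simpa using hw') (by simpa using hw)
  exact h

lemma pow_sub_pow_norm {u u' : ℂ} {b : ℝ} (hu : ‖u‖ ≤ b) (hu' : ‖u'‖ ≤ b) (n : ℕ) :
    ‖u ^ (n + 1) - u' ^ (n + 1)‖ ≤ (n + 1) * b ^ n * ‖u - u'‖ := by
  have h := (convex_closedBall (0:ℂ) b).norm_image_sub_le_of_norm_hasDerivWithin_le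
    (f := fun w : ℂ => w ^ (n + 1)) (f' := fun w => ((n + 1 : ℕ) : ℂ) * w ^ n)
    (C := (n + 1) * b ^ n) (x := u') (y := u)
    (fun x _ => by
      have := hasDerivAt_pow (n + 1) x
      simpa using this.hasDerivWithinAt)
    (fun x hx => by
      have hx' : ‖x‖ ≤ b := by simpa using hx
      rw [norm_mul, norm_natCast, norm_pow]
      push_cast
      gcongr)
    (by simpa using hu') (by simpa using hu)
  exact h

lemma SI_lip (I : ℕ) {z u u' : ℂ} {b : ℝ} (hz : 1 ≤ ‖z‖) (hu : ‖u‖ ≤ b) (hu' : ‖u'‖ ≤ b)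
    (hb : ‖z‖ * b ≤ 1) : ‖SI I z u - SI I z u'‖ ≤ CI I * ‖z‖ * ‖u - u'‖ := by
  have hb0 : 0 ≤ b := (norm_nonneg _).trans hu
  rw [SI, SI, ← Finset.sum_sub_distrib, CI, Finset.sum_mul, Finset.sum_mul]
  refine (norm_sum_le _ _).trans (Finset.sum_le_sum (fun i _ => ?_))
  rw [← mul_sub, norm_mul, norm_div]
  have hi : ‖(i:ℂ) + 1‖ = (i:ℝ) + 1 := by
    have : ((i:ℂ) + 1) = (((i:ℝ) + 1 : ℝ) : ℂ) := by push_cast; ring
    rw [this, norm_real, Real.norm_eq_abs, abs_of_pos (by positivity)]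
  rw [hi]
  have h1 := Qf_bound (i+1) hz
  have h2 := pow_sub_pow_norm hu hu' i
  have h5 : (‖z‖ * b) ^ i ≤ 1 := pow_le_one₀ (by positivity) hb
  have h6 : 0 ≤ CQ (i + 1) * ‖z‖ ^ (i + 1) / ((i:ℝ) + 1) := by
    have := CQ_nonneg (i+1)
    positivity
  calc ‖Qf (i + 1) z‖ / ((i:ℝ) + 1) * ‖u ^ (i + 1) - u' ^ (i + 1)‖
      ≤ (CQ (i + 1) * ‖z‖ ^ (i + 1)) / ((i:ℝ) + 1) * ((i + 1) * b ^ i * ‖u - u'‖) := by gcongr
    _ = CQ (i + 1) * ‖z‖ * ((‖z‖ * b) ^ i) * ‖u - u'‖ := by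
        rw [mul_pow, pow_succ]; field_simp
    _ ≤ CQ (i + 1) * ‖z‖ * 1 * ‖u - u'‖ := by
        have := CQ_nonneg (i+1)
        gcongr
    _ = _ := by ring

/-- the iteration -/
noncomputable def wit (I : ℕ) (φ : ℂ → ℂ) : ℕ → ℂ → ℂ
  | 0 => fun _ => 0
  | j + 1 => fun z => SI I z (exp (-(φ z + wit I φ j z)))

lemma wit_differentiableOn (I : ℕ) {φ : ℂ → ℂ} {U : Set ℂ} (hφ : DifferentiableOn ℂ φ U) (j : ℕ) :
    DifferentiableOn ℂ (wit I φ j) U := by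
  induction j with
  | zero => exact differentiableOn_const _
  | succ j ih =>
    show DifferentiableOn ℂ (fun z => SI I z (exp (-(φ z + wit I φ j z)))) U
    have h1 : DifferentiableOn ℂ (fun z => exp (-(φ z + wit I φ j z))) U :=
      ((hφ.add ih).neg).cexp
    unfold SI
    apply DifferentiableOn.fun_sum
    intro i _
    exact (((Qf_differentiable (i+1)).differentiableOn).div_const _).mul (h1.pow (i+1))

lemma norm_exp_neg_add {a w : ℂ} (hw : ‖w‖ ≤ 1) :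
    ‖exp (-(a + w))‖ ≤ Real.exp (1 - a.re) := by
  rw [norm_exp]
  apply Real.exp_le_exp.2
  have h1 := Complex.abs_re_le_norm w
  have h2 := neg_abs_le w.re
  simp only [neg_re, add_re]
  linarith

lemma wit_bound (I : ℕ) {φ : ℂ → ℂ} {z : ℂ} (hz : 1 ≤ ‖z‖)
    (hx1 : ‖z‖ * Real.exp (1 - (φ z).re) ≤ 1)
    (hx2 : CI I * (‖z‖ * Real.exp (1 - (φ z).re)) ≤ 1 / 4) (j : ℕ) :
    ‖wit I φ j z‖ ≤ 1 / 4 := by
  induction j with
  | zero => show ‖(0:ℂ)‖ ≤ 1/4; rw [norm_zero]; norm_num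
  | succ j ih =>
    show ‖SI I z (exp (-(φ z + wit I φ j z)))‖ ≤ 1 / 4
    have h1 := norm_exp_neg_add (a := φ z) (w := wit I φ j z) (by linarith)
    have h2 : ‖z‖ * ‖exp (-(φ z + wit I φ j z))‖ ≤ ‖z‖ * Real.exp (1 - (φ z).re) := by gcongr
    refine (SI_bound I hz (h2.trans hx1)).trans ?_
    refine le_trans ?_ hx2
    have := CI_nonneg I
    gcongr

/-- contraction towards an approximate fixed point -/
lemma wit_approx (I : ℕ) {φ : ℂ → ℂ} {z ws : ℂ} {err : ℝ} (hz : 1 ≤ ‖z‖)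
    (hx1 : ‖z‖ * Real.exp (1 - (φ z).re) ≤ 1)
    (hx2 : CI I * (‖z‖ * Real.exp (1 - (φ z).re)) ≤ 1 / 4) (hws : ‖ws‖ ≤ 1)
    (herr : ‖ws - SI I z (exp (-(φ z + ws)))‖ ≤ err) (j : ℕ) :
    ‖ws - wit I φ j z‖ ≤ (CI I * (‖z‖ * Real.exp (1 - (φ z).re))) ^ j + 2 * err := by
  have herr0 : 0 ≤ err := (norm_nonneg _).trans herr
  set κ : ℝ := CI I * (‖z‖ * Real.exp (1 - (φ z).re)) with hκ
  have hκ0 : 0 ≤ κ := mul_nonneg (CI_nonneg I) (by positivity)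
  induction j with
  | zero =>
    show ‖ws - 0‖ ≤ _
    rw [sub_zero, pow_zero]; linarith
  | succ j ih =>
    show ‖ws - SI I z (exp (-(φ z + wit I φ j z)))‖ ≤ _
    have hwj := wit_bound I hz hx1 hx2 j
    have h1 := norm_exp_neg_add (a := φ z) (w := wit I φ j z) (by linarith)
    have h2 := norm_exp_neg_add (a := φ z) (w := ws) hws
    have h3 := SI_lip I hz h2 h1 hx1
    have h4 : ‖exp (-(φ z + ws)) - exp (-(φ z + wit I φ j z))‖ ≤
        Real.exp (1 - (φ z).re) * ‖ws - wit I φ j z‖ := by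
      have e : exp (-(φ z + ws)) - exp (-(φ z + wit I φ j z)) =
          exp (-(φ z)) * (exp (-ws) - exp (-(wit I φ j z))) := by
        rw [mul_sub, ← exp_add, ← exp_add]; congr 2 <;> ring
      rw [e, norm_mul, norm_exp]
      have h5 := exp_neg_lip hws (show ‖wit I φ j z‖ ≤ 1 by linarith)
      calc Real.exp ((-(φ z)).re) * ‖exp (-ws) - exp (-(wit I φ j z))‖
          ≤ Real.exp ((-(φ z)).re) * (Real.exp 1 * ‖ws - wit I φ j z‖) := by gcongr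
        _ = _ := by rw [← mul_assoc, ← Real.exp_add, neg_re]; congr 2; ring
    have h6 : ‖SI I z (exp (-(φ z + ws))) - SI I z (exp (-(φ z + wit I φ j z)))‖ ≤
        κ * ‖ws - wit I φ j z‖ := by
      refine h3.trans ?_
      have := CI_nonneg I
      calc CI I * ‖z‖ * ‖exp (-(φ z + ws)) - exp (-(φ z + wit I φ j z))‖
          ≤ CI I * ‖z‖ * (Real.exp (1 - (φ z).re) * ‖ws - wit I φ j z‖) := by gcongr
        _ = _ := by rw [hκ]; ring
    have h7 : ‖ws - SI I z (exp (-(φ z + wit I φ j z)))‖ ≤ err + κ * ‖ws - wit I φ j z‖ := by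
      have e : ws - SI I z (exp (-(φ z + wit I φ j z))) = (ws - SI I z (exp (-(φ z + ws)))) +
        (SI I z (exp (-(φ z + ws))) - SI I z (exp (-(φ z + wit I φ j z)))) := by ring
      rw [e]; exact (norm_add_le _ _).trans (add_le_add herr h6)
    refine h7.trans ?_
    have h8 : κ * ‖ws - wit I φ j z‖ ≤ κ * (κ ^ j + 2 * err) := by gcongr
    rw [pow_succ]
    nlinarith

end Pool.Helper53.SG
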