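import Pool.Agent.Helper53.SG.Lam
import Pool.Agent.Helper53.SG.Nu

/-!
# Accuracy of the analytic model at solutions of C(n,k) = a
-/

namespace Pool.Helper53.SG

open Complex Metric Set Filter Topology

/-- the phase -/
noncomputable def phi (α : ℝ) (z : ℂ) : ℂ := ((α:ℂ) + lam z) / z

lemma phi_nat (α : ℝ) (k : ℕ) : phi α (k:ℂ) = (((α + Real.log (k.factorial : ℝ)) / k : ℝ) : ℂ) := by
  rw [phi, lam_nat]; push_cast; rfl

lemma log_choose {n k : ℕ} (hkn : k ≤ n) :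
    Real.log (n.choose k : ℝ) + Real.log (k.factorial : ℝ) =
      ∑ j ∈ Finset.range k, Real.log ((n:ℝ) - j) := by
  have h1 : ((n.choose k : ℕ) : ℝ) * (k.factorial : ℝ) = ∏ j ∈ Finset.range k, ((n:ℝ) - j) := by
    have h2 := Nat.descFactorial_eq_factorial_mul_choose n k
    have h3 := Nat.descFactorial_eq_prod_range n k
    have h4 : ((n.descFactorial k : ℕ) : ℝ) = ∏ j ∈ Finset.range k, ((n:ℝ) - j) := by
      rw [h3]
      push_cast
      apply Finset.prod_congr rfl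
      intro j hj
      have := Finset.mem_range.1 hj
      rw [Nat.cast_sub (by omega)]
    rw [← h4, h2]; push_cast; ring
  have hc : (0:ℝ) < (n.choose k : ℝ) := by exact_mod_cast Nat.choose_pos hkn
  have hf : (0:ℝ) < (k.factorial : ℝ) := by exact_mod_cast Nat.factorial_pos k
  rw [← Real.log_mul hc.ne' hf.ne', h1, Real.log_prod]
  intro j hj
  have := Finset.mem_range.1 hj
  have : (j:ℝ) < n := by exact_mod_cast (by omega : j < n)
  linarith

/-- a convenient form of the data at a solution -/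
lemma solution_data {n k I : ℕ} (hk : 1 ≤ k) (hn : 2 * k ≤ n) {ℓ : ℝ}
    (hℓ : ℓ = (Real.log (n.choose k : ℝ) + Real.log (k.factorial : ℝ)) / k) :
    0 ≤ Real.log n - ℓ ∧ Real.log n - ℓ ≤ Real.log 2 ∧
    ‖((Real.log n - ℓ : ℝ) : ℂ) - SI I (k:ℂ) ((1 / (n:ℝ) : ℝ) : ℂ)‖ ≤
      2 * ((k:ℝ) / n) ^ (I + 1) := by
  have hkr : (0:ℝ) < k := by exact_mod_cast hk
  have hnr : (0:ℝ) < n := by exact_mod_cast (by omega : 0 < n)
  have hkn : (k:ℝ) / n ≤ 1 / 2 := by
    rw [div_le_div_iff₀ hnr (by norm_num)]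
    have : 2 * (k:ℝ) ≤ n := by exact_mod_cast hn
    linarith
  have hlog : ∀ j ∈ Finset.range k, Real.log ((n:ℝ) - j) = Real.log n + Real.log (1 - (j:ℝ) / n) ∧
      (j:ℝ) / n ≤ (k:ℝ) / n ∧ 0 ≤ (j:ℝ) / n := by
    intro j hj
    have hjk := Finset.mem_range.1 hj
    have hjk' : (j:ℝ) ≤ k := by exact_mod_cast hjk.le
    have h1 : (j:ℝ) / n ≤ (k:ℝ) / n := by gcongr
    refine ⟨?_, h1, by positivity⟩
    rw [← Real.log_mul hnr.ne' (by linarith)]
    congr 1
    field_simp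
  have hsum : ∑ j ∈ Finset.range k, Real.log ((n:ℝ) - j) =
      k * Real.log n + ∑ j ∈ Finset.range k, Real.log (1 - (j:ℝ) / n) := by
    rw [Finset.sum_congr rfl (fun j hj => (hlog j hj).1), Finset.sum_add_distrib]
    simp
  have hℓ2 : Real.log n - ℓ = -(∑ j ∈ Finset.range k, Real.log (1 - (j:ℝ) / n)) / k := by
    rw [hℓ, log_choose (by omega), hsum]
    field_simp
    ring
  have hterm : ∀ j ∈ Finset.range k, Real.log (1 - (j:ℝ) / n) ≤ 0 ∧
      -Real.log 2 ≤ Real.log (1 - (j:ℝ) / n) := by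
    intro j hj
    obtain ⟨_, h1, h2⟩ := hlog j hj
    constructor
    · exact Real.log_nonpos (by linarith) (by linarith)
    · rw [← Real.log_inv]
      apply Real.log_le_log (by norm_num)
      linarith
  refine ⟨?_, ?_, ?_⟩
  · rw [hℓ2]
    apply div_nonneg _ hkr.le
    have : ∑ j ∈ Finset.range k, Real.log (1 - (j:ℝ) / n) ≤ 0 :=
      Finset.sum_nonpos (fun j hj => (hterm j hj).1)
    linarith
  · rw [hℓ2, div_le_iff₀ hkr]
    have : ∑ j ∈ Finset.range k, (-Real.log 2) ≤ ∑ j ∈ Finset.range k, Real.log (1 - (j:ℝ) / n) :=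
      Finset.sum_le_sum (fun j hj => (hterm j hj).2)
    rw [Finset.sum_const, Finset.card_range, nsmul_eq_mul] at this
    linarith
  · -- the expansion
    have hSI : SI I (k:ℂ) ((1 / (n:ℝ) : ℝ) : ℂ) =
        (((∑ i ∈ Finset.range I, ∑ j ∈ Finset.range k,
          ((j:ℝ) / n) ^ (i + 1) / (i + 1)) / k : ℝ) : ℂ) := by
      rw [SI]
      push_cast
      rw [Finset.sum_div]
      apply Finset.sum_congr rfl
      intro i _
      have hkc : (k:ℂ) ≠ 0 := by exact_mod_cast hkr.ne'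
      have hnc : (n:ℂ) ≠ 0 := by exact_mod_cast hnr.ne'
      have h1 : Qf (i+1) (k:ℂ) = (∑ j ∈ Finset.range k, (j:ℂ) ^ (i+1)) / k := by
        rw [← Qf_nat]; field_simp
      rw [h1, Finset.sum_div, Finset.sum_div, Finset.sum_div, Finset.sum_mul]
      apply Finset.sum_congr rfl
      intro j _
      rw [div_pow, div_pow, one_pow]
      field_simp
    rw [hSI, ← ofReal_sub, norm_real, Real.norm_eq_abs, hℓ2, ← sub_div, abs_div,
      abs_of_pos hkr, div_le_iff₀ hkr]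
    rw [Finset.sum_comm, ← Finset.sum_neg_distrib, ← Finset.sum_sub_distrib]
    refine (Finset.abs_sum_le_sum_abs _ _).trans ?_
    have hb : ∀ j ∈ Finset.range k, |-Real.log (1 - (j:ℝ) / n) -
        ∑ i ∈ Finset.range I, ((j:ℝ) / n) ^ (i + 1) / (i + 1)| ≤ 2 * ((k:ℝ) / n) ^ (I + 1) := by
      intro j hj
      obtain ⟨_, h1, h2⟩ := hlog j hj
      have h3 := Real.abs_log_sub_add_sum_range_le (x := (j:ℝ) / n)
        (by rw [abs_of_nonneg h2]; linarith) I
      rw [abs_of_nonneg h2] at h3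
      have e : -Real.log (1 - (j:ℝ) / n) -
        ∑ i ∈ Finset.range I, ((j:ℝ) / n) ^ (i + 1) / (i + 1) =
        -((∑ i ∈ Finset.range I, ((j:ℝ) / n) ^ (i + 1) / (i + 1)) + Real.log (1 - (j:ℝ) / n)) := by
        ring
      rw [e, abs_neg]
      refine h3.trans ?_
      rw [div_le_iff₀ (by linarith)]
      have h4 : ((j:ℝ) / n) ^ (I + 1) ≤ ((k:ℝ) / n) ^ (I + 1) := by gcongr
      have h5 : 0 ≤ ((k:ℝ) / n) ^ (I + 1) := by positivity
      nlinarith
    refine (Finset.sum_le_sum hb).trans ?_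
    rw [Finset.sum_const, Finset.card_range, nsmul_eq_mul]
    linarith

/-- accuracy at solutions -/
theorem accuracy {n k I J : ℕ} (hk : 1 ≤ k) (hn : 2 * k ≤ n) {α ℓ : ℝ}
    (hα : α = Real.log (n.choose k : ℝ)) (hℓ : ℓ = (α + Real.log (k.factorial : ℝ)) / k)
    (hx1 : (k:ℝ) * Real.exp (1 - ℓ) ≤ 1) (hx2 : CI I * ((k:ℝ) * Real.exp (1 - ℓ)) ≤ 1 / 4) :
    ‖exp (phi α k + wit I (phi α) J k) - (n:ℂ)‖ ≤
      2 * n * ((CI I * ((k:ℝ) * Real.exp (1 - ℓ))) ^ J + 4 * ((k:ℝ) / n) ^ (I + 1)) := by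
  have hnr : (0:ℝ) < n := by exact_mod_cast (by omega : 0 < n)
  have hphi : phi α k = ((ℓ : ℝ) : ℂ) := by rw [phi_nat, hℓ]
  have hkn : ‖(k:ℂ)‖ = k := Complex.norm_natCast k
  have hk1 : 1 ≤ ‖(k:ℂ)‖ := by rw [hkn]; exact_mod_cast hk
  have hre : (phi α k).re = ℓ := by rw [hphi, ofReal_re]
  obtain ⟨h1, h2, h3⟩ := solution_data (I := I) hk hn (ℓ := ℓ) (by rw [hℓ, hα])
  set ws : ℂ := ((Real.log n - ℓ : ℝ) : ℂ) with hws
  have hwsn : ‖ws‖ ≤ Real.log 2 := by
    rw [hws, norm_real, Real.norm_eq_abs, abs_of_nonneg h1]; exact h2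
  have hlog2 := Real.log_two_lt_d9
  have hexpws : exp (-(phi α k + ws)) = ((1 / (n:ℝ) : ℝ) : ℂ) := by
    rw [hphi, hws, ← ofReal_add]
    have e : ℓ + (Real.log n - ℓ) = Real.log n := by ring
    rw [e, ← ofReal_neg, ← ofReal_exp, Real.exp_neg, Real.exp_log hnr]
    congr 1
    rw [one_div]
  have happ := wit_approx I (φ := phi α) (z := (k:ℂ)) (ws := ws) (err := 2 * ((k:ℝ) / n) ^ (I + 1))
    hk1 (by rw [hkn, hre]; exact hx1) (by rw [hkn, hre]; exact hx2) (by linarith)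
    (by rw [hexpws]; exact h3) J
  rw [hkn, hre] at happ
  have hwb := wit_bound I (φ := phi α) (z := (k:ℂ)) hk1 (by rw [hkn, hre]; exact hx1)
    (by rw [hkn, hre]; exact hx2) J
  set wJ := wit I (phi α) J (k:ℂ) with hwJ
  have hd : ‖wJ - ws‖ ≤ 1 := by
    refine (norm_sub_le _ _).trans ?_; linarith
  have hn2 : (n:ℂ) = exp (phi α k + ws) := by
    rw [hphi, hws, ← ofReal_add]
    have e : ℓ + (Real.log n - ℓ) = Real.log n := by ring
    rw [e, ← ofReal_exp, Real.exp_log hnr]; simp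
  have e2 : exp (phi α k + wJ) - (n:ℂ) = (n:ℂ) * (exp (wJ - ws) - 1) := by
    rw [mul_sub, mul_one]
    nth_rewrite 2 [hn2]
    rw [← exp_add]
    congr 2
    ring
  rw [e2, norm_mul, Complex.norm_natCast]
  have h5 := Complex.norm_exp_sub_one_le hd
  rw [norm_sub_rev] at happ
  calc (n:ℝ) * ‖exp (wJ - ws) - 1‖ ≤ n * (2 * ‖wJ - ws‖) := by gcongr
    _ ≤ n * (2 * ((CI I * ((k:ℝ) * Real.exp (1 - ℓ))) ^ J + 2 * (2 * ((k:ℝ) / n) ^ (I + 1)))) := by
        gcongr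
    _ = _ := by ring

end Pool.Helper53.SG
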