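import Pool.Agent.Helper53.SG.Extrap

/-!
# Zero estimate along a chain of discs
-/

namespace Pool.Helper53.SG

open Complex Metric Set Polynomial Filter Topology

/-- Three circles: from radius `r/8` to radius `r/4`. -/
theorem three_circles {c : ℂ} {r B η : ℝ} (hr : 0 < r) (hη : 0 < η) (hη1 : η ≤ 1) {f : ℂ → ℂ}
    (hf : DifferentiableOn ℂ f (ball c r))
    (hB : ∀ z ∈ ball c r, ‖f z‖ ≤ B) (h8 : ∀ z : ℂ, ‖z - c‖ ≤ r / 8 → ‖f z‖ ≤ B * η)
    {z : ℂ} (hz : ‖z - c‖ ≤ r / 4) :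
    ‖f z‖ ≤ 4 * B * Real.sqrt η := by
  have hB0 : 0 ≤ B := (norm_nonneg _).trans (hB c (mem_ball_self hr))
  have hsq : η ≤ Real.sqrt η := by
    apply Real.le_sqrt_of_sq_le
    rw [sq]
    calc η * η ≤ η * 1 := by gcongr
      _ = η := mul_one _
  have hsq0 : 0 ≤ Real.sqrt η := Real.sqrt_nonneg _
  rcases le_or_gt ‖z - c‖ (r / 8) with hz8 | hz8
  · calc ‖f z‖ ≤ B * η := h8 z hz8
      _ ≤ B * Real.sqrt η := by gcongr
      _ ≤ 4 * B * Real.sqrt η := by
          have : 0 ≤ B * Real.sqrt η := by positivity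
          linarith
  obtain ⟨l, hl1, hl2⟩ := exists_nat_pow_near (x := 1 / η) (y := 8)
    (by rw [le_div_iff₀ hη]; linarith) (by norm_num)
  rw [le_div_iff₀ hη] at hl1
  rw [div_lt_iff₀ hη] at hl2
  have key : ∀ r' ∈ Ioo (r / 4) r, ‖f z‖ ≤ B * ((r / 4) / r') ^ l := by
    intro r' hr'
    obtain ⟨h1, h2⟩ := hr'
    have hr'0 : 0 < r' := by linarith
    set U : Set ℂ := ball c r' ∩ (closedBall c (r / 8))ᶜ with hU
    set F : ℂ → ℂ := fun w => f w * ((w - c)⁻¹) ^ l with hF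
    have hcl : closure U ⊆ ball c r ∩ {c}ᶜ := by
      intro w hw
      have hw1 : w ∈ closedBall c r' := by
        have := closure_mono (inter_subset_left) hw
        exact closure_ball_subset_closedBall this
      have hw2 : w ∈ (ball c (r / 8))ᶜ := by
        have h3 : closure ((closedBall c (r / 8))ᶜ) ⊆ (ball c (r / 8))ᶜ := by
          apply closure_minimal
          · exact compl_subset_compl.2 ball_subset_closedBall
          · exact isOpen_ball.isClosed_compl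
        exact h3 (closure_mono (inter_subset_right) hw)
      refine ⟨closedBall_subset_ball h2 hw1, ?_⟩
      intro hwc
      apply hw2
      rw [mem_singleton_iff] at hwc
      rw [hwc]
      exact mem_ball_self (by linarith)
    have hFd : DifferentiableOn ℂ F (closure U) := by
      intro w hw
      obtain ⟨hw1, hw2⟩ := hcl hw
      have hne : w - c ≠ 0 := sub_ne_zero.2 hw2
      have d1 : DifferentiableAt ℂ f w := hf.differentiableAt (isOpen_ball.mem_nhds hw1)
      have d2 : DifferentiableAt ℂ (fun w : ℂ => ((w - c)⁻¹) ^ l) w := by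
        apply DifferentiableAt.pow
        exact (differentiableAt_id.sub_const c).inv hne
      exact (d1.mul d2).differentiableWithinAt
    have hbdd : Bornology.IsBounded U := isBounded_ball.subset inter_subset_left
    have hfr : ∀ w ∈ frontier U, ‖F w‖ ≤ B * (1 / r') ^ l := by
      intro w hw
      have h3 := frontier_inter_subset _ _ hw
      have hwr : w ∈ ball c r := (hcl (frontier_subset_closure hw)).1
      rw [hF]
      simp only
      rw [norm_mul, norm_pow, norm_inv]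
      rcases h3 with ⟨h4, _⟩ | ⟨_, h4⟩
      · rw [frontier_ball _ hr'0.ne', mem_sphere, dist_eq_norm] at h4
        rw [h4, one_div]
        gcongr
        exact hB w hwr
      · rw [frontier_compl, frontier_closedBall _ (by positivity), mem_sphere, dist_eq_norm] at h4
        rw [h4]
        have h5 := h8 w h4.le
        have h6 : ((r / 8)⁻¹) ^ l * η ≤ (1 / r') ^ l := by
          have e : ((r / 8)⁻¹) ^ l = 8 ^ l * (1 / r) ^ l := by
            rw [← mul_pow]; congr 1; field_simp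
          rw [e]
          calc 8 ^ l * (1 / r) ^ l * η = (8 ^ l * η) * (1 / r) ^ l := by ring
            _ ≤ 1 * (1 / r) ^ l := by gcongr
            _ = (1 / r) ^ l := one_mul _
            _ ≤ _ := by gcongr
        calc ‖f w‖ * ((r / 8)⁻¹) ^ l ≤ (B * η) * ((r / 8)⁻¹) ^ l := by gcongr
          _ = B * (((r / 8)⁻¹) ^ l * η) := by ring
          _ ≤ _ := by gcongr
    have hzU : z ∈ closure U := by
      apply subset_closure
      refine ⟨?_, ?_⟩
      · rw [mem_ball, dist_eq_norm]; linarith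
      · rw [mem_compl_iff, mem_closedBall, dist_eq_norm]; linarith
    have h7 := Complex.norm_le_of_forall_mem_frontier_norm_le hbdd hFd.diffContOnCl hfr hzU
    rw [hF] at h7
    simp only at h7
    rw [norm_mul, norm_pow, norm_inv] at h7
    have hzc : 0 < ‖z - c‖ := by linarith
    have h8' : ‖f z‖ ≤ B * (1 / r') ^ l * ‖z - c‖ ^ l := by
      rw [inv_pow, ← div_eq_mul_inv, div_le_iff₀ (by positivity)] at h7
      exact h7
    refine h8'.trans ?_
    calc B * (1 / r') ^ l * ‖z - c‖ ^ l = B * (‖z - c‖ / r') ^ l := by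
          rw [mul_assoc, ← mul_pow]; congr 2; ring
      _ ≤ _ := by gcongr
  have hlim : Tendsto (fun r' : ℝ => B * ((r / 4) / r') ^ l) (𝓝[<] r)
      (𝓝 (B * ((r / 4) / r) ^ l)) := by
    have hc : ContinuousAt (fun r' : ℝ => B * ((r / 4) / r') ^ l) r := by
      apply ContinuousAt.mul continuousAt_const
      apply ContinuousAt.pow
      exact continuousAt_const.div continuousAt_id hr.ne'
    exact hc.tendsto.mono_left nhdsWithin_le_nhds
  have hle := ge_of_tendsto hlim (by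
    filter_upwards [Ioo_mem_nhdsLT (show r / 4 < r by linarith)] with r' hr'
    exact key r' hr')
  refine hle.trans ?_
  have e : r / 4 / r = 1 / 4 := by field_simp
  rw [e]
  have h9 : (1 / 4 : ℝ) ^ (l + 1) ≤ Real.sqrt η := by
    apply Real.le_sqrt_of_sq_le
    rw [← pow_mul, mul_comm, pow_mul]
    have h10 : ((1 / 4 : ℝ) ^ 2) ^ (l + 1) ≤ (1 / 8) ^ (l + 1) := by
      apply pow_le_pow_left₀ <;> norm_num
    refine h10.trans ?_
    rw [one_div, inv_pow, inv_le_iff_one_le_mul₀ (by positivity)]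
    linarith
  rw [pow_succ] at h9
  calc B * (1 / 4) ^ l = 4 * B * ((1 / 4) ^ l * (1 / 4)) := by ring
    _ ≤ _ := by gcongr

/-- Propagation of smallness along the chain. -/
theorem chain_small {m : ℕ} {B η : ℝ} {x ρ : ℕ → ℝ} {G : ℕ → ℂ → ℂ} (hB0 : 0 ≤ B)
    (hρ : ∀ i ≤ m, 0 < ρ i) (hρ1 : ∀ i < m, ρ (i + 1) ≤ ρ i)
    (hx : ∀ i < m, |x (i + 1) - x i| ≤ ρ i / 8)
    (hG : ∀ i ≤ m, DifferentiableOn ℂ (G i) (ball (x i : ℂ) (ρ i)))
    (hcons : ∀ i < m, ∀ z ∈ ball (x i : ℂ) (ρ i) ∩ ball (x (i + 1) : ℂ) (ρ (i + 1)),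
      G (i + 1) z = G i z)
    (hB : ∀ i ≤ m, ∀ z ∈ ball (x i : ℂ) (ρ i), ‖G i z‖ ≤ B)
    (hη : 0 < η) (h0 : ∀ z : ℂ, ‖z - x 0‖ ≤ ρ 0 / 4 → ‖G 0 z‖ ≤ B * (16 * η)) :
    ∀ i ≤ m, ∀ z : ℂ, ‖z - x i‖ ≤ ρ i / 4 → ‖G i z‖ ≤ B * (16 * η ^ ((1:ℝ) / 2 ^ i)) := by
  intro i
  induction i with
  | zero =>
    intro _ z hz
    have := h0 z hz
    simpa using this
  | succ i ih =>
    intro hi z hz
    have ihi := ih (by omega)
    have hρi := hρ i (by omega)
    have hρi1 := hρ (i + 1) hi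
    have hle := hρ1 i (by omega)
    have hxi := hx i (by omega)
    set e : ℝ := η ^ ((1:ℝ) / 2 ^ i) with he
    have hepos : 0 < e := Real.rpow_pos_of_pos hη _
    have he2 : η ^ ((1:ℝ) / 2 ^ (i + 1)) = Real.sqrt e := by
      rw [he, Real.sqrt_eq_rpow, ← Real.rpow_mul hη.le]
      congr 1
      rw [pow_succ]; field_simp
    rw [he2]
    rcases le_or_gt (16 * e) 1 with h16 | h16
    · have h8 : ∀ w : ℂ, ‖w - (x (i + 1) : ℂ)‖ ≤ ρ (i + 1) / 8 →
          ‖G (i + 1) w‖ ≤ B * (16 * e) := by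
        intro w hw
        have hwi : ‖w - (x i : ℂ)‖ ≤ ρ i / 4 := by
          have e1 : w - (x i : ℂ) = (w - (x (i + 1) : ℂ)) + ((x (i + 1) - x i : ℝ) : ℂ) := by
            push_cast; ring
          rw [e1]
          refine (norm_add_le _ _).trans ?_
          rw [norm_real, Real.norm_eq_abs]
          linarith
        rw [hcons i (by omega) w ⟨by rw [mem_ball, dist_eq_norm]; linarith,
          by rw [mem_ball, dist_eq_norm]; linarith⟩]
        exact ihi w hwi
      have h1 := three_circles hρi1 (by positivity) h16 (hG (i + 1) hi) (hB (i + 1) hi) h8 hz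
      refine h1.trans (le_of_eq ?_)
      rw [Real.sqrt_mul (by norm_num)]
      have : Real.sqrt 16 = 4 := by
        rw [show (16:ℝ) = 4 ^ 2 by norm_num, Real.sqrt_sq (by norm_num)]
      rw [this]; ring
    · have h1 := hB (i + 1) hi z (by rw [mem_ball, dist_eq_norm]; linarith)
      refine h1.trans ?_
      have h2 : 1 ≤ 16 * Real.sqrt e := by
        have h3 : Real.sqrt (1 / 16) ≤ Real.sqrt e := Real.sqrt_le_sqrt (by linarith)
        have h4 : Real.sqrt (1 / 16) = 1 / 4 := by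
          rw [show (1 / 16 : ℝ) = (1 / 4) ^ 2 by norm_num, Real.sqrt_sq (by norm_num)]
        rw [h4] at h3
        linarith
      calc B = B * 1 := (mul_one _).symm
        _ ≤ _ := by gcongr

/-- Zero estimate along a chain. -/
theorem chain_zero {q D m : ℕ} {Δ R : ℝ} {x ρ t : ℕ → ℝ} {g : ℕ → ℂ → ℂ}
    (hρ : ∀ i ≤ m, 0 < ρ i) (hρ1 : ∀ i < m, ρ (i + 1) ≤ ρ i)
    (hx : ∀ i < m, |x (i + 1) - x i| ≤ ρ i / 8)
    (hg : ∀ i ≤ m, DifferentiableOn ℂ (g i) (ball (x i : ℂ) (ρ i)))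
    (hgt : ∀ i ≤ m, ∀ z ∈ ball (x i : ℂ) (ρ i), ‖g i z - (t i : ℂ)‖ ≤ 1 / 2)
    (hcons : ∀ i < m, ∀ z ∈ ball (x i : ℂ) (ρ i) ∩ ball (x (i + 1) : ℂ) (ρ (i + 1)),
      g (i + 1) z = g i z)
    (ht : ∀ i < m, t i ≤ t (i + 1) ∧ t (i + 1) ≤ t i + 1) (htm : t 0 + q * Δ ≤ t m)
    (hR : ∀ i ≤ m, ∀ z ∈ ball (x i : ℂ) (ρ i), ‖z - (x 0 : ℂ)‖ ≤ R)
    (hΔ : 16 ≤ Δ) (hdom : 2 * q * (8 * R / ρ m) ^ D ≤ Real.exp (3 * Δ / 8))
    (P : ℕ → ℂ[X]) (hPD : ∀ b < q, (P b).natDegree ≤ D) (hP0 : ∃ b < q, P b ≠ 0)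
    (s : Finset ℂ) (hs : ∀ z ∈ s, ‖z - (x 0 : ℂ)‖ ≤ ρ 0 / 16 ∧
      ∑ b ∈ Finset.range q, (P b).eval z * Complex.exp (g 0 z) ^ b = 0) :
    (s.card : ℝ) * Real.log 2 ≤
      2 ^ m * (Real.log (32 * q * (8 * R / ρ m) ^ D) + q * (m + 3)) := by
  classical
  have hq : 0 < q := by obtain ⟨b, hb, _⟩ := hP0; omega
  have hq' : (0:ℝ) < q := by exact_mod_cast hq
  have hρ0 := hρ 0 (Nat.zero_le _)
  have hρm := hρ m le_rfl
  -- monotone radii and sizes
  have hρanti : ∀ i ≤ m, ρ m ≤ ρ i := by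
    intro i hi
    have key : ∀ k, i + k ≤ m → ρ (i + k) ≤ ρ i := by
      intro k
      induction k with
      | zero => intro _; exact le_rfl
      | succ k ih =>
        intro hk
        exact (hρ1 (i + k) (by omega)).trans (ih (by omega))
    have := key (m - i) (by omega)
    rwa [Nat.add_sub_of_le hi] at this
  have htmono : ∀ i ≤ m, t 0 ≤ t i ∧ t i ≤ t 0 + i := by
    intro i
    induction i with
    | zero => intro _; exact ⟨le_rfl, by simp⟩
    | succ i ih =>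
      intro hi
      have h1 := ih (by omega)
      have h2 := ht i (by omega)
      push_cast
      exact ⟨h1.1.trans h2.1, by linarith [h1.2, h2.2]⟩
  have htle : ∀ i ≤ m, t i ≤ t m := by
    intro i hi
    have key : ∀ k, i + k ≤ m → t i ≤ t (i + k) := by
      intro k
      induction k with
      | zero => intro _; exact le_rfl
      | succ k ih =>
        intro hk
        exact (ih (by omega)).trans (ht (i + k) (by omega)).1
    have := key (m - i) (by omega)
    rwa [Nat.add_sub_of_le hi] at this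
  have hxR : ∀ i ≤ m, ‖(x i : ℂ) - x 0‖ ≤ R := by
    intro i hi
    exact hR i hi _ (mem_ball_self (hρ i hi))
  have hballR : ∀ i ≤ m, ρ i / 4 ≤ 2 * R := by
    intro i hi
    have h1 := hR i hi ((x i : ℂ) + ((ρ i / 2 : ℝ) : ℂ)) (by
      rw [mem_ball, dist_eq_norm, add_sub_cancel_left, norm_real, Real.norm_eq_abs,
        abs_of_pos (by linarith [hρ i hi])]
      linarith [hρ i hi])
    have h2 := hxR i hi
    have h3 : ((ρ i / 2 : ℝ) : ℂ) = ((x i : ℂ) + ((ρ i / 2 : ℝ) : ℂ) - x 0) - ((x i : ℂ) - x 0) := by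
      ring
    have h4 : ρ i / 2 ≤ 2 * R := by
      have h5 := norm_sub_le ((x i : ℂ) + ((ρ i / 2 : ℝ) : ℂ) - x 0) ((x i : ℂ) - x 0)
      rw [← h3, norm_real, Real.norm_eq_abs, abs_of_pos (by linarith [hρ i hi])] at h5
      linarith
    linarith [hρ i hi]
  have hR0 : 0 < R := by linarith [hballR 0 (Nat.zero_le _)]
  -- sup norms
  have hcomp : IsCompact (closedBall (x 0 : ℂ) R) := isCompact_closedBall _ _
  have hNex : ∀ b : ℕ, ∃ z : ℂ, ‖z - x 0‖ ≤ R ∧ ∀ w : ℂ, ‖w - x 0‖ ≤ R →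
      ‖(P b).eval w‖ ≤ ‖(P b).eval z‖ := by
    intro b
    obtain ⟨z, hz, hzm⟩ := hcomp.exists_isMaxOn ⟨(x 0 : ℂ), by simp [hR0.le]⟩
      ((P b).continuous.norm.continuousOn (s := closedBall (x 0 : ℂ) R))
    refine ⟨z, by simpa [dist_eq_norm] using hz, fun w hw => ?_⟩
    exact hzm (by simpa [dist_eq_norm] using hw)
  choose ζ hζ hζm using hNex
  obtain ⟨N, hN⟩ : ∃ N : ℕ → ℝ, ∀ b, N b = ‖(P b).eval (ζ b)‖ := ⟨_, fun _ => rfl⟩
  have hN0 : ∀ b, 0 ≤ N b := fun b => by rw [hN]; exact norm_nonneg _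
  have hNb : ∀ b, ∀ w : ℂ, ‖w - x 0‖ ≤ R → ‖(P b).eval w‖ ≤ N b := by
    intro b w hw; rw [hN]; exact hζm b w hw
  have hNpos : ∃ b < q, 0 < N b := by
    obtain ⟨b, hb, hPb⟩ := hP0
    refine ⟨b, hb, ?_⟩
    by_contra hcon
    push Not at hcon
    have h0 : ∀ w : ℂ, ‖w - x 0‖ ≤ R → (P b).eval w = 0 := by
      intro w hw
      have := (hNb b w hw).trans hcon
      exact norm_le_zero_iff.1 this
    apply hPb
    apply Polynomial.eq_zero_of_infinite_isRoot
    have hinf : (closedBall (x 0 : ℂ) R).Infinite := by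
      have : (closedBall (x 0 : ℂ) R) ∈ nhds (x 0 : ℂ) := closedBall_mem_nhds _ hR0
      exact infinite_of_mem_nhds (x 0 : ℂ) this
    refine hinf.mono (fun w hw => ?_)
    exact h0 w (by simpa [dist_eq_norm] using hw)
  obtain ⟨j, hj, c, hc, hNc, henv⟩ := envelope q N hNpos (t 0) Δ (by linarith)
  obtain ⟨τ, hτ⟩ : ∃ τ : ℝ, τ = t 0 + (j + 1 / 2) * Δ := ⟨_, rfl⟩
  rw [← hτ] at henv
  have hjq : (j:ℝ) + 1 ≤ q := by exact_mod_cast hj
  have hj0 : (0:ℝ) ≤ j := Nat.cast_nonneg j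
  have hτ0 : t 0 ≤ τ := by
    have : 0 ≤ ((j:ℝ) + 1 / 2) * Δ := by positivity
    rw [hτ]; linarith
  have hτm : τ ≤ t m := by
    have : ((j:ℝ) + 1 / 2) * Δ ≤ q * Δ := by gcongr; linarith
    rw [hτ]; linarith
  have hm0 : (0:ℝ) ≤ m := Nat.cast_nonneg m
  have htm2 := (htmono m le_rfl).2
  have htτ : ∀ i ≤ m, |t i - τ| ≤ m := by
    intro i hi
    have h1 := (htmono i hi).1
    have h2 := htle i hi
    rw [abs_le]
    constructor <;> linarith
  obtain ⟨i, him, hiτ⟩ : ∃ i ≤ m, |t i - τ| ≤ 1 := by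
    have key : ∀ k ≤ m, τ ≤ t k → ∃ i ≤ k, |t i - τ| ≤ 1 := by
      intro k
      induction k with
      | zero =>
        intro _ h
        exact ⟨0, le_rfl, by rw [abs_le]; constructor <;> linarith⟩
      | succ k ih =>
        intro hk h
        rcases le_or_gt τ (t k) with h2 | h2
        · obtain ⟨i, hi, hi2⟩ := ih (by omega) h2
          exact ⟨i, by omega, hi2⟩
        · have h3 := ht k (by omega)
          exact ⟨k, by omega, by rw [abs_le]; constructor <;> linarith [h3.2]⟩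
    obtain ⟨i, hi, hi2⟩ := key m le_rfl hτm
    exact ⟨i, hi, hi2⟩
  obtain ⟨E, hE⟩ : ∃ E : ℝ, E = N c * Real.exp (c * τ) := ⟨_, rfl⟩
  have hEpos : 0 < E := by rw [hE]; exact mul_pos hNc (Real.exp_pos _)
  obtain ⟨W, hW⟩ : ∃ W : ℝ, W = (8 * R / ρ m) ^ D := ⟨_, rfl⟩
  rw [← hW] at hdom ⊢
  have hW1 : 1 ≤ W := by
    rw [hW]
    apply one_le_pow₀
    rw [one_le_div hρm]
    linarith [hballR m le_rfl]
  -- the functions
  obtain ⟨G, hG⟩ : ∃ G : ℕ → ℂ → ℂ, ∀ i z, G i z =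
      ∑ b ∈ Finset.range q, (P b).eval z * Complex.exp (g i z) ^ b := ⟨_, fun _ _ => rfl⟩
  have hre : ∀ i ≤ m, ∀ z ∈ ball (x i : ℂ) (ρ i), |(g i z).re - t i| ≤ 1 / 2 := by
    intro i hi z hz
    have h1 := hgt i hi z hz
    have h2 := (Complex.abs_re_le_norm (g i z - (t i : ℂ))).trans h1
    rwa [Complex.sub_re, Complex.ofReal_re] at h2
  have hnorm : ∀ i z, ‖Complex.exp (g i z)‖ = Real.exp (g i z).re := fun i z =>
    Complex.norm_exp _
  -- upper bound
  have hGup : ∀ i ≤ m, ∀ z ∈ ball (x i : ℂ) (ρ i),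
      ‖G i z‖ ≤ q * (E * Real.exp (q * (m + 1))) := by
    intro i hi z hz
    rw [hG]
    refine (norm_sum_le _ _).trans ?_
    have hterm : ∀ b ∈ Finset.range q, ‖(P b).eval z * Complex.exp (g i z) ^ b‖ ≤
        E * Real.exp (q * (m + 1)) := by
      intro b hb
      have hbq := Finset.mem_range.1 hb
      have hbq' : (b:ℝ) ≤ q := by exact_mod_cast hbq.le
      have h1 := hNb b z (hR i hi z hz)
      have h2 : (g i z).re ≤ τ + (m + 1) := by
        have h3 := hre i hi z hz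
        have h4 := htτ i hi
        rw [abs_le] at h3 h4
        linarith [h3.2, h4.2]
      have h7 : N b * Real.exp (b * τ) ≤ E := by
        refine (henv b hbq).trans ?_
        rw [hE]
        have h8 : Real.exp (-(|(b:ℝ) - c| * (Δ / 2))) ≤ 1 := by
          apply Real.exp_le_one_iff.2
          have : 0 ≤ |(b:ℝ) - c| * (Δ / 2) := by
            apply mul_nonneg (abs_nonneg _); linarith
          linarith
        have h9 : 0 ≤ N c * Real.exp (c * τ) := by positivity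
        calc N c * Real.exp (c * τ) * Real.exp (-(|(b:ℝ) - c| * (Δ / 2)))
            ≤ N c * Real.exp (c * τ) * 1 := by gcongr
          _ = _ := mul_one _
      rw [norm_mul, norm_pow, hnorm, ← Real.exp_nat_mul]
      have h10 : Real.exp (b * (g i z).re) ≤ Real.exp (b * τ) * Real.exp (q * (m + 1)) := by
        rw [← Real.exp_add]
        apply Real.exp_le_exp.2
        have e1 : (b:ℝ) * (g i z).re ≤ b * (τ + (m + 1)) := by gcongr
        have e2 : (b:ℝ) * (m + 1) ≤ q * (m + 1) := by gcongr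
        have e3 : (b:ℝ) * (τ + (m + 1)) = b * τ + b * (m + 1) := by ring
        linarith
      calc ‖(P b).eval z‖ * Real.exp (b * (g i z).re)
          ≤ N b * (Real.exp (b * τ) * Real.exp (q * (m + 1))) :=
            mul_le_mul h1 h10 (Real.exp_pos _).le (hN0 b)
        _ = N b * Real.exp (b * τ) * Real.exp (q * (m + 1)) := by ring
        _ ≤ _ := by gcongr
    refine (Finset.sum_le_card_nsmul _ _ _ hterm).trans ?_
    rw [nsmul_eq_mul, Finset.card_range]
  -- lower bound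
  obtain ⟨z1, hz1, hz1m⟩ := (isCompact_closedBall (x i : ℂ) (ρ i / 4)).exists_isMaxOn
    ⟨(x i : ℂ), by simp; linarith [hρ i him]⟩
    ((P c).continuous.norm.continuousOn (s := closedBall (x i : ℂ) (ρ i / 4)))
  have hρi := hρ i him
  have hz1' : ‖z1 - x i‖ ≤ ρ i / 4 := by simpa [dist_eq_norm] using hz1
  have hz1b : z1 ∈ ball (x i : ℂ) (ρ i) := by rw [mem_ball, dist_eq_norm]; linarith
  have hz1R := hR i him z1 hz1b
  have hNcz1 : N c ≤ ‖(P c).eval z1‖ * W := by
    have h1 := poly_growth (hPD c hc) (x := (x i : ℂ)) (r := ρ i / 4) (ρ := 2 * R)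
      (by linarith) (hballR i him)
      (m := ‖(P c).eval z1‖) (fun w hw => hz1m (by simpa [dist_eq_norm] using hw))
      (z := ζ c) (by
        have : ζ c - x i = (ζ c - x 0) - (x i - x 0) := by ring
        rw [this]; refine (norm_sub_le _ _).trans ?_
        have := hζ c; have := hxR i him; linarith)
    rw [hN]
    refine h1.trans ?_
    rw [hW]
    have h2 : 2 * R / (ρ i / 4) ≤ 8 * R / ρ m := by
      have h3 := hρanti i him
      have e : 2 * R / (ρ i / 4) = 8 * R / ρ i := by field_simp; ring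
      rw [e]
      gcongr
    gcongr
  have htz1 : |(g i z1).re - τ| ≤ 3 / 2 := by
    have h1 := hre i him z1 hz1b
    rw [abs_le] at h1 hiτ ⊢
    constructor <;> linarith [h1.1, h1.2, hiτ.1, hiτ.2]
  obtain ⟨T, hT⟩ : ∃ T : ℝ, T = (g i z1).re := ⟨_, rfl⟩
  rw [← hT] at htz1
  have hother : ∀ b ∈ (Finset.range q).erase c, ‖(P b).eval z1 * Complex.exp (g i z1) ^ b‖ ≤
      N c * Real.exp (c * T) * Real.exp (-(3 * Δ / 8)) := by
    intro b hb
    obtain ⟨hbc, hbq⟩ := Finset.mem_erase.1 hb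
    have hbq' := Finset.mem_range.1 hbq
    have h1 : ‖(P b).eval z1‖ ≤ N b := hNb b z1 hz1R
    have h2 := henv b hbq'
    rw [norm_mul, norm_pow, hnorm, ← Real.exp_nat_mul, ← hT]
    have habs : 1 ≤ |(b:ℝ) - c| := by
      have : ((b:ℤ) - c) ≠ 0 := by omega
      have h3 := Int.one_le_abs this
      exact_mod_cast h3
    have e1 : Real.exp (b * T) = Real.exp (b * τ) * Real.exp (b * (T - τ)) := by
      rw [← Real.exp_add]; congr 1; ring
    have hkey : Real.exp (c * τ) * Real.exp (-(|(b:ℝ) - c| * (Δ / 2))) *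
        Real.exp (b * (T - τ)) ≤ Real.exp (c * T) * Real.exp (-(3 * Δ / 8)) := by
      rw [← Real.exp_add, ← Real.exp_add, ← Real.exp_add]
      apply Real.exp_le_exp.2
      have h5 : ((b:ℝ) - c) * (T - τ) ≤ |(b:ℝ) - c| * (Δ / 8) := by
        calc ((b:ℝ) - c) * (T - τ) ≤ |((b:ℝ) - c) * (T - τ)| := le_abs_self _
          _ = |(b:ℝ) - c| * |T - τ| := abs_mul _ _
          _ ≤ _ := by gcongr; linarith
      have h6 : 1 * (3 * Δ / 8) ≤ |(b:ℝ) - c| * (3 * Δ / 8) := by gcongr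
      have e4 : (b:ℝ) * (T - τ) = ((b:ℝ) - c) * (T - τ) + (c * T - c * τ) := by ring
      rw [e4]
      have e5 : |(b:ℝ) - c| * (Δ / 2) = |(b:ℝ) - c| * (Δ / 8) + |(b:ℝ) - c| * (3 * Δ / 8) := by
        ring
      rw [e5]
      linarith
    calc ‖(P b).eval z1‖ * Real.exp (b * T) ≤ N b * Real.exp (b * T) := by gcongr
      _ = (N b * Real.exp (b * τ)) * Real.exp (b * (T - τ)) := by rw [e1]; ring
      _ ≤ (N c * Real.exp (c * τ) * Real.exp (-(|(b:ℝ) - c| * (Δ / 2)))) *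
          Real.exp (b * (T - τ)) := by gcongr
      _ = N c * (Real.exp (c * τ) * Real.exp (-(|(b:ℝ) - c| * (Δ / 2))) *
          Real.exp (b * (T - τ))) := by ring
      _ ≤ N c * (Real.exp (c * T) * Real.exp (-(3 * Δ / 8))) := by gcongr
      _ = _ := by ring
  have hsumother : ‖∑ b ∈ (Finset.range q).erase c, (P b).eval z1 * Complex.exp (g i z1) ^ b‖ ≤
      q * (N c * Real.exp (c * T) * Real.exp (-(3 * Δ / 8))) := by
    refine (norm_sum_le _ _).trans ?_
    refine (Finset.sum_le_card_nsmul _ _ _ hother).trans ?_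
    rw [nsmul_eq_mul]
    have hcard : (((Finset.range q).erase c).card : ℝ) ≤ q := by
      have : ((Finset.range q).erase c).card ≤ q := by
        refine (Finset.card_erase_le).trans ?_
        simp
      exact_mod_cast this
    have : 0 ≤ N c * Real.exp (c * T) * Real.exp (-(3 * Δ / 8)) := by positivity
    gcongr
  have hGlow : N c * Real.exp (c * T) / (2 * W) ≤ ‖G i z1‖ := by
    have hsplit : G i z1 = (P c).eval z1 * Complex.exp (g i z1) ^ c +
        ∑ b ∈ (Finset.range q).erase c, (P b).eval z1 * Complex.exp (g i z1) ^ b := by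
      rw [hG]
      rw [Finset.add_sum_erase (Finset.range q)
        (fun b => (P b).eval z1 * Complex.exp (g i z1) ^ b) (Finset.mem_range.2 hc)]
    have hmain : N c * Real.exp (c * T) / W ≤ ‖(P c).eval z1 * Complex.exp (g i z1) ^ c‖ := by
      rw [norm_mul, norm_pow, hnorm, ← Real.exp_nat_mul, ← hT, div_le_iff₀ (by linarith)]
      calc N c * Real.exp (c * T) ≤ (‖(P c).eval z1‖ * W) * Real.exp (c * T) := by gcongr
        _ = _ := by ring
    have hsmall : q * (N c * Real.exp (c * T) * Real.exp (-(3 * Δ / 8))) ≤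
        N c * Real.exp (c * T) / (2 * W) := by
      have h1 : (q:ℝ) * Real.exp (-(3 * Δ / 8)) ≤ 1 / (2 * W) := by
        rw [Real.exp_neg, le_div_iff₀ (by linarith), ← div_eq_mul_inv, div_mul_eq_mul_div,
          div_le_iff₀ (Real.exp_pos _)]
        linarith
      have h2 : 0 ≤ N c * Real.exp (c * T) := by positivity
      calc q * (N c * Real.exp (c * T) * Real.exp (-(3 * Δ / 8)))
          = N c * Real.exp (c * T) * (q * Real.exp (-(3 * Δ / 8))) := by ring
        _ ≤ N c * Real.exp (c * T) * (1 / (2 * W)) := by gcongr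
        _ = _ := by ring
    have htri : ‖(P c).eval z1 * Complex.exp (g i z1) ^ c‖ ≤ ‖G i z1‖ +
        ‖∑ b ∈ (Finset.range q).erase c, (P b).eval z1 * Complex.exp (g i z1) ^ b‖ := by
      have : (P c).eval z1 * Complex.exp (g i z1) ^ c = G i z1 -
        ∑ b ∈ (Finset.range q).erase c, (P b).eval z1 * Complex.exp (g i z1) ^ b := by
        rw [hsplit]; ring
      rw [this]; exact norm_sub_le _ _
    have e3 : N c * Real.exp (c * T) / W = 2 * (N c * Real.exp (c * T) / (2 * W)) := by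
      field_simp
    rw [e3] at hmain
    linarith
  have hGlow2 : E * Real.exp (-(q * 2)) / (2 * W) ≤ ‖G i z1‖ := by
    refine le_trans ?_ hGlow
    have hc' : (c:ℝ) ≤ q := by exact_mod_cast hc.le
    have h1 : Real.exp (c * τ) * Real.exp (-(q * 2)) ≤ Real.exp (c * T) := by
      rw [← Real.exp_add]
      apply Real.exp_le_exp.2
      have h0 : τ ≤ T + 2 := by
        rw [abs_le] at htz1; linarith [htz1.1]
      have h2 : (c:ℝ) * τ ≤ c * (T + 2) := by gcongr
      have h3 : (c:ℝ) * 2 ≤ q * 2 := by gcongr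
      have e4 : (c:ℝ) * (T + 2) = c * T + c * 2 := by ring
      linarith
    rw [hE]
    have h4 : 0 < 2 * W := by linarith
    have h5 : N c * Real.exp (c * τ) * Real.exp (-(q * 2)) ≤ N c * Real.exp (c * T) := by
      calc N c * Real.exp (c * τ) * Real.exp (-(q * 2))
          = N c * (Real.exp (c * τ) * Real.exp (-(q * 2))) := by ring
        _ ≤ _ := mul_le_mul_of_nonneg_left h1 (hN0 c)
    exact div_le_div_of_nonneg_right h5 h4.le
  -- zeros
  obtain ⟨B, hBdef⟩ : ∃ B : ℝ, B = q * (E * Real.exp (q * (m + 1))) := ⟨_, rfl⟩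
  rw [← hBdef] at hGup
  have hBpos : 0 < B := by rw [hBdef]; positivity
  have hGd : ∀ i ≤ m, DifferentiableOn ℂ (G i) (ball (x i : ℂ) (ρ i)) := by
    intro i hi
    have : G i = fun z => ∑ b ∈ Finset.range q, (P b).eval z * Complex.exp (g i z) ^ b := by
      funext z; exact hG i z
    rw [this]
    apply DifferentiableOn.fun_sum
    intro b _
    exact ((P b).differentiable.differentiableOn).mul (((hg i hi).cexp).pow b)
  have h0 : ∀ z : ℂ, ‖z - x 0‖ ≤ ρ 0 / 4 → ‖G 0 z‖ ≤ B * (16 * (1 / 2) ^ s.card) := by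
    intro z hz
    have hS := schwarz_zeros (c := (x 0 : ℂ)) (R := 15 / 16 * ρ 0) (R1 := ρ 0) (M := ρ 0 / 16)
      (ρ := ρ 0 / 4) (by linarith) (by linarith) (hGd 0 (Nat.zero_le _)) s
      (fun w hw => ⟨(hs w hw).1, by rw [hG]; exact (hs w hw).2⟩) (by linarith)
      (fun w hw => hGup 0 (Nat.zero_le _) w (by rw [mem_ball, dist_eq_norm]; linarith))
      hz (by linarith)
    have hhalf : ((ρ 0 / 4 + ρ 0 / 16) / (15 / 16 * ρ 0 - ρ 0 / 16)) ^ s.card ≤
        (1 / 2) ^ s.card := by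
      refine pow_le_pow_left₀ (div_nonneg (by linarith) (by linarith)) ?_ _
      rw [div_le_iff₀ (by linarith)]; linarith
    calc ‖G 0 z‖ ≤ _ := hS
      _ ≤ (1 / 2) ^ s.card * B := by gcongr
      _ ≤ B * (16 * (1 / 2) ^ s.card) := by
          have : 0 ≤ (1 / 2 : ℝ) ^ s.card * B := by positivity
          linarith
  have hconsG : ∀ i < m, ∀ z ∈ ball (x i : ℂ) (ρ i) ∩ ball (x (i + 1) : ℂ) (ρ (i + 1)),
      G (i + 1) z = G i z := by
    intro i hi z hz
    rw [hG, hG, hcons i hi z hz]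
  have hfin := chain_small (η := (1 / 2) ^ s.card) hBpos.le hρ hρ1 hx hGd hconsG hGup
    (by positivity) h0 i him z1 hz1'
  have hfin2 := hGlow2.trans hfin
  -- logarithms
  have hW0 : 0 < W := by linarith
  have hZpos : (0:ℝ) < (1 / 2) ^ s.card := by positivity
  have hlogs : Real.log (E * Real.exp (-(q * 2)) / (2 * W)) ≤
      Real.log (B * (16 * ((1 / 2) ^ s.card) ^ ((1:ℝ) / 2 ^ i))) :=
    Real.log_le_log (by positivity) hfin2
  have hLL : Real.log (E * Real.exp (-(q * 2)) / (2 * W)) =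
      Real.log E - q * 2 - (Real.log 2 + Real.log W) := by
    rw [Real.log_div (by positivity) (by positivity),
      Real.log_mul hEpos.ne' (Real.exp_pos _).ne', Real.log_exp,
      Real.log_mul (by norm_num) hW0.ne']
    ring
  have hRR : Real.log (B * (16 * ((1 / 2) ^ s.card) ^ ((1:ℝ) / 2 ^ i))) =
      Real.log q + (Real.log E + q * (m + 1)) +
        (Real.log 16 + (1:ℝ) / 2 ^ i * (s.card * Real.log (1 / 2))) := by
    rw [Real.log_mul hBpos.ne' (by positivity), Real.log_mul (by norm_num)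
      (Real.rpow_pos_of_pos hZpos _).ne', Real.log_rpow hZpos, Real.log_pow, hBdef,
      Real.log_mul hq'.ne' (by positivity), Real.log_mul hEpos.ne' (Real.exp_pos _).ne',
      Real.log_exp]
  rw [hLL, hRR] at hlogs
  have hl2 : Real.log (1 / 2) = -Real.log 2 := by rw [one_div, Real.log_inv]
  rw [hl2] at hlogs
  have hl2p : 0 < Real.log 2 := Real.log_pos (by norm_num)
  have h32 : Real.log (32 * q * W) = Real.log 16 + Real.log 2 + Real.log q + Real.log W := by
    rw [Real.log_mul (by positivity) hW0.ne', Real.log_mul (by norm_num) hq'.ne',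
      show (32:ℝ) = 16 * 2 by norm_num, Real.log_mul (by norm_num) (by norm_num)]
  have hmain : (1:ℝ) / 2 ^ i * (s.card * Real.log 2) ≤
      Real.log (32 * q * W) + q * (m + 3) := by
    rw [h32]
    have e1 : (1:ℝ) / 2 ^ i * (s.card * -Real.log 2) = -((1:ℝ) / 2 ^ i * (s.card * Real.log 2)) := by
      ring
    rw [e1] at hlogs
    have e2 : (q:ℝ) * (m + 3) = q * (m + 1) + q * 2 := by ring
    rw [e2]
    linarith
  have hRHS : 0 ≤ Real.log (32 * q * W) + q * (m + 3) := by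
    have h1 : 0 ≤ (1:ℝ) / 2 ^ i * (s.card * Real.log 2) := by positivity
    linarith
  have h2i : (0:ℝ) < 2 ^ i := by positivity
  calc (s.card : ℝ) * Real.log 2 = 2 ^ i * ((1:ℝ) / 2 ^ i * (s.card * Real.log 2)) := by
        field_simp
    _ ≤ 2 ^ i * (Real.log (32 * q * W) + q * (m + 3)) := by gcongr
    _ ≤ 2 ^ m * (Real.log (32 * q * W) + q * (m + 3)) := by
        gcongr
        norm_num

/-- Local bound for the number of integral points, along a chain of discs. -/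
theorem near_local {q D m Z1 : ℕ} {k0 : ℤ} {Δ R M : ℝ} {x ρ t : ℕ → ℝ} {g : ℕ → ℂ → ℂ}
    (hx0 : x 0 = k0)
    (hρ : ∀ i ≤ m, 0 < ρ i) (hρ1 : ∀ i < m, ρ (i + 1) ≤ ρ i)
    (hx : ∀ i < m, |x (i + 1) - x i| ≤ ρ i / 8)
    (hg : ∀ i ≤ m, DifferentiableOn ℂ (g i) (ball (x i : ℂ) (ρ i)))
    (hgt : ∀ i ≤ m, ∀ z ∈ ball (x i : ℂ) (ρ i), ‖g i z - (t i : ℂ)‖ ≤ 1 / 2)
    (hcons : ∀ i < m, ∀ z ∈ ball (x i : ℂ) (ρ i) ∩ ball (x (i + 1) : ℂ) (ρ (i + 1)),
      g (i + 1) z = g i z)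
    (ht : ∀ i < m, t i ≤ t (i + 1) ∧ t (i + 1) ≤ t i + 1) (htm : t 0 + q * Δ ≤ t m)
    (hR : ∀ i ≤ m, ∀ z ∈ ball (x i : ℂ) (ρ i), ‖z - (x 0 : ℂ)‖ ≤ R)
    (hΔ : 16 ≤ Δ) (hdom : 2 * q * (8 * R / ρ m) ^ D ≤ Real.exp (3 * Δ / 8))
    (hM1 : 1 ≤ M) (hM : M ≤ ρ 0 / 16) (ht0 : 0 ≤ t 0 + 1 / 2)
    (hZ1 : 0 < Z1) (hZ2 : 2 * Z1 ≤ (D + 1) * q)
    (hE : ((2 * M) / (ρ 0 / 2 - M)) ^ Z1 * (((D + 1) * q) ^ 2 * (ρ 0 / 2) ^ (2 * D) *
      (Real.exp (t 0 + 1 / 2)) ^ (2 * q)) < 1)
    (S : Finset ℤ) (n : ℤ → ℤ) (hS : ∀ k ∈ S, |(k:ℝ) - k0| ≤ M ∧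
      Complex.exp (g 0 ((k:ℝ):ℂ)) = ((n k : ℤ) : ℂ)) :
    S.card < Z1 ∨ (S.card : ℝ) * Real.log 2 ≤
      2 ^ m * (Real.log (32 * q * (8 * R / ρ m) ^ D) + q * (m + 3)) := by
  classical
  have hρ0 := hρ 0 (Nat.zero_le _)
  have hg0 := hg 0 (Nat.zero_le _)
  have hgt0 := hgt 0 (Nat.zero_le _)
  rw [hx0] at hg0 hgt0
  have hext := extrap (k0 := k0) (R := ρ 0 / 2) (R1 := ρ 0) (V := Real.exp (t 0 + 1 / 2))
    (ν := fun z => Complex.exp (g 0 z)) hM1 (by linarith) (by linarith) hg0.cexp hZ1 hZ2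
    (Real.one_le_exp ht0) (by
      intro z hz
      have hzb : z ∈ ball (((k0:ℝ):ℝ):ℂ) (ρ 0) := by
        rw [mem_ball, dist_eq_norm]; linarith
      have h1 := hgt0 z hzb
      have h2 := (Complex.abs_re_le_norm (g 0 z - (t 0 : ℂ))).trans h1
      rw [Complex.sub_re, Complex.ofReal_re, abs_le] at h2
      rw [Complex.norm_exp]
      apply Real.exp_le_exp.2
      linarith [h2.2]) hE S n hS
  rcases hext with h | ⟨P, hP1, hP2, hP3⟩
  · exact Or.inl h
  right
  have hinj : Function.Injective (fun k : ℤ => ((k:ℝ):ℂ)) := by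
    intro a b hab; simpa using hab
  have hsc : (S.image (fun k : ℤ => ((k:ℝ):ℂ))).card = S.card :=
    Finset.card_image_of_injective _ hinj
  rw [← hsc]
  refine chain_zero hρ hρ1 hx hg hgt hcons ht htm hR hΔ hdom P hP1 hP2 _ ?_
  intro z hz
  rw [Finset.mem_image] at hz
  obtain ⟨k, hk, rfl⟩ := hz
  refine ⟨?_, hP3 k hk⟩
  rw [hx0, ← ofReal_sub, norm_real, Real.norm_eq_abs]
  exact (hS k hk).1.trans hM

end Pool.Helper53.SG
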