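import Pool.Agent.Helper53.SG.NearLoc

/-!
# Existence of chains
-/

namespace Pool.Helper53.SG

open Complex Metric Set Filter Topology
open Pool.Agent.Helper47.SG (rad Base FF psi rad_le rad_pos rad_mul step consistent local_solution)

/-- One step of the chain. -/
def Good (α x y y' : ℝ) : Prop := y ≤ y' ∧ Base (x - rad x y / 8) y' α ∧
    Real.log y' ≤ Real.log y + 1 / 100 ∧
    rad x y / 8 / x * (Real.log (y / x - 1) - 9 / x) / 3 ≤ Real.log y' - Real.log y

open Classical in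
/-- The next ordinate. -/
noncomputable def nextY (α x y : ℝ) : ℝ := if h : ∃ y', Good α x y y' then h.choose else y

lemma nextY_good {α x y : ℝ} (hx : 1000 ≤ x) (hy : 2 * x ≤ y) (hb : Base x y α) :
    Good α x y (nextY α x y) := by
  have h : ∃ y', Good α x y y' := step hx hy hb
  unfold nextY
  rw [dif_pos h]
  exact h.choose_spec

/-- The chain of points. -/
noncomputable def chn (α x0 y0 : ℝ) : ℕ → ℝ × ℝ
  | 0 => (x0, y0)
  | n + 1 => ((chn α x0 y0 n).1 - rad (chn α x0 y0 n).1 (chn α x0 y0 n).2 / 8,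
      nextY α (chn α x0 y0 n).1 (chn α x0 y0 n).2)

/-- The chain, with the data of every step. -/
lemma chn_exists {α x0 y0 : ℝ} {m : ℕ} (hx0 : 1000 * 2 ^ m ≤ x0) (hy0 : 2 * x0 ≤ y0)
    (hb : Base x0 y0 α) : ∃ x y : ℕ → ℝ, x 0 = x0 ∧ y 0 = y0 ∧
      (∀ i ≤ m, 1000 ≤ x i ∧ 2 * x i ≤ y i ∧ Base (x i) (y i) α) ∧
      (∀ i < m, x (i + 1) = x i - rad (x i) (y i) / 8 ∧ y i ≤ y (i + 1) ∧
        Real.log (y (i + 1)) ≤ Real.log (y i) + 1 / 100 ∧
        rad (x i) (y i) / 8 / x i * (Real.log (y i / x i - 1) - 9 / x i) / 3 ≤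
          Real.log (y (i + 1)) - Real.log (y i)) := by
  refine ⟨fun i => (chn α x0 y0 i).1, fun i => (chn α x0 y0 i).2, rfl, rfl, ?_⟩
  have h2m : (1:ℝ) ≤ 2 ^ m := one_le_pow₀ (by norm_num)
  have key : ∀ i ≤ m, x0 / 2 ^ i ≤ (chn α x0 y0 i).1 ∧ 1000 ≤ (chn α x0 y0 i).1 ∧
      2 * (chn α x0 y0 i).1 ≤ (chn α x0 y0 i).2 ∧
      Base (chn α x0 y0 i).1 (chn α x0 y0 i).2 α := by
    intro i
    induction i with
    | zero =>
      intro _
      refine ⟨by simp [chn], ?_, hy0, hb⟩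
      show 1000 ≤ x0
      linarith
    | succ i ih =>
      intro hi
      obtain ⟨h1, h2, h3, h4⟩ := ih (by omega)
      obtain ⟨g1, g2, g3, g4⟩ := nextY_good h2 h3 h4
      have hr := rad_le (show 0 < (chn α x0 y0 i).1 by linarith) h3
      have hr0 := rad_pos (show 0 < (chn α x0 y0 i).1 by linarith) h3
      have hlow : x0 / 2 ^ (i + 1) ≤
          (chn α x0 y0 i).1 - rad (chn α x0 y0 i).1 (chn α x0 y0 i).2 / 8 := by
        have e : x0 / 2 ^ (i + 1) = x0 / 2 ^ i / 2 := by rw [pow_succ, div_div]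
        rw [e]; linarith
      have h5 : 1000 ≤ x0 / 2 ^ (i + 1) := by
        rw [le_div_iff₀ (by positivity)]
        refine le_trans ?_ hx0
        have : (2:ℝ) ^ (i + 1) ≤ 2 ^ m := pow_le_pow_right₀ (by norm_num) hi
        linarith
      refine ⟨hlow, h5.trans hlow, ?_, g2⟩
      show 2 * ((chn α x0 y0 i).1 - rad (chn α x0 y0 i).1 (chn α x0 y0 i).2 / 8) ≤
        nextY α (chn α x0 y0 i).1 (chn α x0 y0 i).2
      linarith
  refine ⟨fun i hi => (key i hi).2, ?_⟩
  intro i hi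
  obtain ⟨_, h2, h3, h4⟩ := key i (by omega)
  obtain ⟨g1, g2, g3, g4⟩ := nextY_good h2 h3 h4
  exact ⟨rfl, g1, g3, g4⟩

lemma rad_anti {x x' y y' : ℝ} (hx' : 0 < x') (hxx : x' ≤ x) (hyy : y ≤ y') (hy : 2 * x ≤ y) :
    rad x' y' ≤ rad x y := by
  have hx : 0 < x := by linarith
  have hy0 : 0 < y := by linarith
  have h1 : 0 ≤ Real.log (y / x) := Real.log_nonneg (by rw [le_div_iff₀ hx]; linarith)
  have h2 : Real.log (y / x) ≤ Real.log (y' / x') := by
    apply Real.log_le_log (by positivity)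
    have hy0' : 0 < y' := by linarith
    gcongr
  unfold rad
  gcongr

/-- The numerical part: growth along the chain. -/
lemma chain_growth {m : ℕ} {x y : ℕ → ℝ}
    (h1 : ∀ i ≤ m, 1000 ≤ x i ∧ 2 * x i ≤ y i)
    (h2 : ∀ i < m, x (i + 1) = x i - rad (x i) (y i) / 8 ∧ y i ≤ y (i + 1) ∧
        Real.log (y (i + 1)) ≤ Real.log (y i) + 1 / 100 ∧
        rad (x i) (y i) / 8 / x i * (Real.log (y i / x i - 1) - 9 / x i) / 3 ≤
          Real.log (y (i + 1)) - Real.log (y i)) :
    ((m:ℝ) - 14400) / 25000 ≤ Real.log (y m) - Real.log (y 0) ∧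
    Real.log (y m) - Real.log (y 0) ≤ m / 100 ∧
    (Real.log (x 0) - Real.log (x m)) ^ 2 / 8 - (Real.log (x 0) - Real.log (x m)) ≤
      Real.log (y m) - Real.log (y 0) := by
  obtain ⟨t, ht⟩ : ∃ t : ℕ → ℝ, ∀ i, t i = Real.log (y i) := ⟨_, fun _ => rfl⟩
  obtain ⟨u, hu⟩ : ∃ u : ℕ → ℝ, ∀ i, u i = Real.log (x 0) - Real.log (x i) := ⟨_, fun _ => rfl⟩
  have hxpos : ∀ i ≤ m, 0 < x i := fun i hi => by linarith [(h1 i hi).1]
  have hypos : ∀ i ≤ m, 0 < y i := fun i hi => by linarith [(h1 i hi).1, (h1 i hi).2]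
  obtain ⟨l, hl⟩ : ∃ l : ℕ → ℝ, ∀ i, l i = Real.log (y i / x i) := ⟨_, fun _ => rfl⟩
  have hl' : ∀ i ≤ m, l i = t i - Real.log (x i) := by
    intro i hi
    rw [hl, ht, Real.log_div (hypos i hi).ne' (hxpos i hi).ne']
  have hl2 := Real.log_two_gt_d9
  have hl2' := Real.log_two_lt_d9
  have hllow : ∀ i ≤ m, Real.log 2 ≤ l i := by
    intro i hi
    rw [hl]
    apply Real.log_le_log (by norm_num)
    rw [le_div_iff₀ (hxpos i hi)]
    exact (h1 i hi).2
  obtain ⟨r, hr⟩ : ∃ r : ℕ → ℝ, ∀ i, r i = 1 / (3200 * (1 + l i)) := ⟨_, fun _ => rfl⟩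
  have hrpos : ∀ i ≤ m, 0 < r i := by
    intro i hi
    have := hllow i hi
    rw [hr]
    have : 0 < 1 + l i := by linarith
    positivity
  have hrle : ∀ i ≤ m, r i ≤ 1 / 3200 := by
    intro i hi
    have := hllow i hi
    rw [hr]
    apply div_le_div_of_nonneg_left (by norm_num) (by norm_num)
    linarith
  have hrl : ∀ i ≤ m, r i * (1 + l i) = 1 / 3200 := by
    intro i hi
    have := hllow i hi
    rw [hr]
    have : 1 + l i ≠ 0 := by linarith
    field_simp
  have hradr : ∀ i ≤ m, rad (x i) (y i) / 8 = x i * r i := by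
    intro i hi
    have := hllow i hi
    rw [hr, rad, ← hl]
    have : 1 + l i ≠ 0 := by linarith
    field_simp
    ring
  -- steps
  have hxs : ∀ i < m, x (i + 1) = x i * (1 - r i) := by
    intro i hi
    rw [(h2 i hi).1, hradr i hi.le]; ring
  have hus : ∀ i < m, u (i + 1) - u i = -Real.log (1 - r i) := by
    intro i hi
    have h3 := hrle i hi.le
    rw [hu, hu, hxs i hi, Real.log_mul (hxpos i hi.le).ne' (by linarith)]
    ring
  have hus1 : ∀ i < m, r i ≤ u (i + 1) - u i := by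
    intro i hi
    rw [hus i hi]
    have h3 := hrle i hi.le
    have := Real.log_le_sub_one_of_pos (x := 1 - r i) (by linarith)
    linarith
  have hus2 : ∀ i < m, u (i + 1) - u i ≤ 3200 / 3199 * r i := by
    intro i hi
    rw [hus i hi]
    have h3 := hrle i hi.le
    have h4 := hrpos i hi.le
    have h5 := Real.one_sub_inv_le_log_of_pos (x := 1 - r i) (by linarith)
    have h6 : (1 - r i)⁻¹ ≤ 1 + 3200 / 3199 * r i := by
      rw [inv_le_iff_one_le_mul₀ (by linarith)]
      nlinarith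
    linarith
  have hts0 : ∀ i < m, 0 ≤ t (i + 1) - t i := by
    intro i hi
    rw [ht, ht]
    have := Real.log_le_log (hypos i hi.le) (h2 i hi).2.1
    linarith
  have hts1 : ∀ i < m, t (i + 1) - t i ≤ 1 / 100 := by
    intro i hi
    rw [ht, ht]
    linarith [(h2 i hi).2.2.1]
  have hts2 : ∀ i < m, r i / 3 * (l i - 0.71) ≤ t (i + 1) - t i := by
    intro i hi
    have h3 := (h2 i hi).2.2.2
    rw [← ht, ← ht] at h3
    refine le_trans ?_ h3
    have hxi := hxpos i hi.le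
    have hyi := hypos i hi.le
    have e1 : rad (x i) (y i) / 8 / x i = r i := by
      rw [hradr i hi.le]; field_simp
    rw [e1]
    have h4 : l i - Real.log 2 ≤ Real.log (y i / x i - 1) := by
      have e2 : l i - Real.log 2 = Real.log (y i / x i / 2) := by
        rw [Real.log_div (div_pos hyi hxi).ne' (by norm_num), hl]
      rw [e2]
      apply Real.log_le_log (by positivity)
      have : 2 ≤ y i / x i := by
        rw [le_div_iff₀ hxi]; exact (h1 i hi.le).2
      linarith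
    have h5 : 9 / x i ≤ 9 / 1000 := by
      apply div_le_div_of_nonneg_left (by norm_num) (by norm_num) (h1 i hi.le).1
    have h6 : l i - 0.71 ≤ Real.log (y i / x i - 1) - 9 / x i := by linarith
    have h7 := hrpos i hi.le
    have h8 : r i * (l i - 0.71) ≤ r i * (Real.log (y i / x i - 1) - 9 / x i) := by gcongr
    linarith
  have hlu : ∀ i ≤ m, l i = l 0 + (t i - t 0) + u i := by
    intro i hi
    rw [hl' i hi, hl' 0 (Nat.zero_le _), hu]; ring
  have ht0 : ∀ i ≤ m, 0 ≤ t i - t 0 := by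
    intro i
    induction i with
    | zero => intro _; simp
    | succ i ih => intro hi; have := ih (by omega); have := hts0 i (by omega); linarith
  have hu0 : ∀ i ≤ m, 0 ≤ u i := by
    intro i
    induction i with
    | zero => intro _; rw [hu]; simp
    | succ i ih =>
      intro hi
      have := ih (by omega); have := hus1 i (by omega); have := hrpos i (by omega)
      linarith
  -- claim D
  have hD : ∀ i ≤ m, t i - t 0 ≤ i / 100 := by
    intro i
    induction i with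
    | zero => intro _; simp
    | succ i ih =>
      intro hi
      have := ih (by omega); have := hts1 i (by omega)
      push_cast; linarith
  -- claim B
  have hB : ∀ i ≤ m, (i:ℝ) / 1600 ≤ (1 + l i) ^ 2 := by
    intro i
    induction i with
    | zero => intro _; simp; positivity
    | succ i ih =>
      intro hi
      have h3 := ih (by omega)
      have h4 := hlu i (by omega)
      have h5 := hlu (i + 1) hi
      have h6 := hus1 i (by omega)
      have h7 := hts0 i (by omega)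
      have h8 := hrl i (by omega)
      have h9 := hllow i (by omega)
      have h10 := hrpos i (by omega)
      have h11 : 1 + l i + r i ≤ 1 + l (i + 1) := by linarith
      have h12 : (1 + l i + r i) ^ 2 ≤ (1 + l (i + 1)) ^ 2 := by
        apply pow_le_pow_left₀ _ h11
        linarith
      have e : (1 + l i + r i) ^ 2 = (1 + l i) ^ 2 + 2 * (r i * (1 + l i)) + r i ^ 2 := by ring
      rw [e, h8] at h12
      have : 0 ≤ r i ^ 2 := sq_nonneg _
      push_cast
      linarith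
  -- claim C
  have hC : ∀ i ≤ m, ((i:ℝ) - 14400) / 25000 ≤ t i - t 0 := by
    intro i
    induction i with
    | zero => intro _; norm_num
    | succ i ih =>
      intro hi
      have h3 := ih (by omega)
      rcases le_or_gt (14400:ℝ) i with h | h
      · have h4 := hB i (by omega)
        have h5 : (9:ℝ) ≤ (1 + l i) ^ 2 := by
          refine le_trans ?_ h4
          rw [le_div_iff₀ (by norm_num)]; linarith
        have h9 := hllow i (by omega)
        have h6 : 2 ≤ l i := by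
          by_contra hcon
          push Not at hcon
          have : (1 + l i) ^ 2 < 9 := by nlinarith
          linarith
        have h7 := hts2 i (by omega)
        have h8 := hrl i (by omega)
        have h10 := hrpos i (by omega)
        have h11 : 1 / 25000 ≤ r i / 3 * (l i - 0.71) := by
          have h12 : 0.43 * (1 + l i) ≤ l i - 0.71 := by linarith
          calc (1:ℝ) / 25000 ≤ 0.43 / 3 * (1 / 3200) := by norm_num
            _ = 0.43 / 3 * (r i * (1 + l i)) := by rw [h8]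
            _ = r i / 3 * (0.43 * (1 + l i)) := by ring
            _ ≤ _ := by gcongr
        push_cast
        have e : ((i:ℝ) + 1 - 14400) / 25000 = ((i:ℝ) - 14400) / 25000 + 1 / 25000 := by ring
        rw [e]; linarith
      · have h4 := ht0 (i + 1) hi
        refine le_trans ?_ h4
        have h5 : i < 14400 := by exact_mod_cast h
        have h6 : ((i + 1 : ℕ) : ℝ) ≤ 14400 := by
          have : i + 1 ≤ 14400 := by omega
          exact_mod_cast this
        rw [div_le_iff₀ (by norm_num)]; linarith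
  -- claim A
  have hA : ∀ i ≤ m, u i ^ 2 / 8 - u i ≤ t i - t 0 := by
    intro i
    induction i with
    | zero => intro _; rw [hu]; simp
    | succ i ih =>
      intro hi
      have h3 := ih (by omega)
      have h4 := hus1 i (by omega)
      have h5 := hus2 i (by omega)
      have h6 := hts0 i (by omega)
      have h7 := hts2 i (by omega)
      have h8 := hlu i (by omega)
      have h9 := hllow 0 (Nat.zero_le _)
      have h10 := ht0 i (by omega)
      have h11 := hu0 i (by omega)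
      have h12 := hrpos i (by omega)
      have h13 := hrle i (by omega)
      obtain ⟨δ, hδ⟩ : ∃ δ : ℝ, δ = u (i + 1) - u i := ⟨_, rfl⟩
      rw [← hδ] at h4 h5
      have e : u (i + 1) = u i + δ := by rw [hδ]; ring
      have e2 : u (i + 1) ^ 2 / 8 - u (i + 1) = u i ^ 2 / 8 - u i + δ * (u i / 4 + δ / 8 - 1) := by
        rw [e]; ring
      rw [e2]
      have hδ0 : 0 < δ := by linarith
      have hδ1 : δ ≤ 1 / 1000 := by linarith
      have key : δ * (u i / 4 + δ / 8 - 1) ≤ t (i + 1) - t i := by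
        rcases le_or_gt (u i / 4 + δ / 8 - 1) 0 with h | h
        · have : δ * (u i / 4 + δ / 8 - 1) ≤ 0 := mul_nonpos_of_nonneg_of_nonpos hδ0.le h
          linarith
        · refine le_trans ?_ h7
          calc δ * (u i / 4 + δ / 8 - 1) ≤ (3200 / 3199 * r i) * (u i / 4 + δ / 8 - 1) := by
                gcongr
            _ = r i / 3 * (3 * 3200 / 3199 * (u i / 4 + δ / 8 - 1)) := by ring
            _ ≤ r i / 3 * (l i - 0.71) := by
                gcongr
                rw [h8]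
                linarith
      linarith
  rw [← ht, ← ht, ← hu]
  exact ⟨hC m le_rfl, hD m le_rfl, hA m le_rfl⟩

/-- The ratio `8R/ρ_m` is at most `exp(3N+24)` for `m = N^2`. -/
lemma chain_ratio {N : ℕ} {x0 xm y0 ym : ℝ} (hx0 : 0 < x0) (hxm : 0 < xm)
    (hy0 : 2 * x0 ≤ y0) (hym : 2 * xm ≤ ym)
    (hxx : xm ≤ x0)
    (hT : Real.log ym - Real.log y0 ≤ ((N ^ 2 : ℕ) : ℝ) / 100)
    (hu : (Real.log x0 - Real.log xm) ^ 2 / 8 - (Real.log x0 - Real.log xm) ≤
      Real.log ym - Real.log y0) :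
    8 * (rad x0 y0 * (1 + ((N ^ 2 : ℕ) : ℝ) / 8)) / rad xm ym ≤ Real.exp (3 * N + 24) := by
  have hy00 : 0 < y0 := by linarith
  have hym0 : 0 < ym := by linarith
  have hN : (0:ℝ) ≤ N := Nat.cast_nonneg N
  push_cast at hT ⊢
  obtain ⟨u, hudef⟩ : ∃ u : ℝ, u = Real.log x0 - Real.log xm := ⟨_, rfl⟩
  rw [← hudef] at hu
  obtain ⟨T, hTdef⟩ : ∃ T : ℝ, T = Real.log ym - Real.log y0 := ⟨_, rfl⟩
  rw [← hTdef] at hu hT
  have hu0 : 0 ≤ u := by
    have := Real.log_le_log hxm hxx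
    linarith
  have huN : u ≤ N + 8 := by
    by_contra hcon
    push Not at hcon
    have h1 : (N:ℝ) ^ 2 / 8 < u ^ 2 / 8 - u := by
      have h2 : (N:ℝ) * N ≤ (N + 8) * N := by gcongr; linarith
      have h3 : ((N:ℝ) + 8) * N < u * (u - 8) := by
        apply mul_lt_mul' hcon.le (by linarith) hN (by linarith)
      have e : u ^ 2 / 8 - u = u * (u - 8) / 8 := by ring
      rw [e, sq]; linarith
    have h4 : 0 ≤ (N:ℝ) ^ 2 := sq_nonneg _
    linarith
  obtain ⟨l0, hl0⟩ : ∃ l : ℝ, l = Real.log (y0 / x0) := ⟨_, rfl⟩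
  obtain ⟨lm, hlm⟩ : ∃ l : ℝ, l = Real.log (ym / xm) := ⟨_, rfl⟩
  have hl0' : 0 ≤ l0 := by
    rw [hl0]; exact Real.log_nonneg (by rw [le_div_iff₀ hx0]; linarith)
  have hlm' : 0 ≤ lm := by
    rw [hlm]; exact Real.log_nonneg (by rw [le_div_iff₀ hxm]; linarith)
  have hlml0 : lm = l0 + T + u := by
    rw [hlm, hl0, hTdef, hudef, Real.log_div hym0.ne' hxm.ne', Real.log_div hy00.ne' hx0.ne']
    ring
  have hexpu : Real.exp u = x0 / xm := by
    rw [hudef, Real.exp_sub, Real.exp_log hx0, Real.exp_log hxm]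
  have e : 8 * (rad x0 y0 * (1 + (N:ℝ) ^ 2 / 8)) / rad xm ym =
      (8 + (N:ℝ) ^ 2) * Real.exp u * ((1 + lm) / (1 + l0)) := by
    rw [rad, rad, ← hl0, ← hlm, hexpu]
    have h1 : 1 + l0 ≠ 0 := by linarith
    have h2 : 1 + lm ≠ 0 := by linarith
    field_simp
  rw [e]
  have h1 : (1 + lm) / (1 + l0) ≤ 1 + (T + u) := by
    rw [div_le_iff₀ (by linarith), hlml0]
    have h2 : 0 ≤ (T + u) * l0 := by
      apply mul_nonneg _ hl0'
      have h5 : 0 ≤ T + u := by
        have h6 : 0 ≤ u ^ 2 / 8 := by positivity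
        linarith
      exact h5
    have e2 : (1 + (T + u)) * (1 + l0) = 1 + l0 + T + u + (T + u) * l0 := by ring
    rw [e2]; linarith
  have hexpN : 9 * (1 + N + (N:ℝ) ^ 2 / 2) ≤ Real.exp (N + 8) := by
    rw [Real.exp_add, mul_comm (Real.exp (N:ℝ))]
    have h2 := Real.quadratic_le_exp_of_nonneg hN
    have h3 := Real.add_one_le_exp (8:ℝ)
    have h4 : (9:ℝ) ≤ Real.exp 8 := by linarith
    gcongr
  have h2 : 8 + (N:ℝ) ^ 2 ≤ Real.exp (N + 8) := by
    have : 0 ≤ (N:ℝ) ^ 2 := sq_nonneg _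
    linarith
  have h3 : Real.exp u ≤ Real.exp (N + 8) := Real.exp_le_exp.2 huN
  have h4 : 1 + (T + u) ≤ Real.exp (N + 8) := by
    have : 0 ≤ (N:ℝ) ^ 2 := sq_nonneg _
    linarith
  have h5 : 0 ≤ (1 + lm) / (1 + l0) := by positivity
  calc (8 + (N:ℝ) ^ 2) * Real.exp u * ((1 + lm) / (1 + l0)) ≤
        Real.exp (N + 8) * Real.exp (N + 8) * Real.exp (N + 8) := by
        gcongr
        exact h1.trans h4
    _ = Real.exp (3 * N + 24) := by
        rw [← Real.exp_add, ← Real.exp_add]; congr 1; ring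

/-- Chains exist. -/
theorem chain_hyp : ChainHyp := by
  intro q D
  obtain ⟨N, hN⟩ : ∃ N : ℕ, N = 14400 + 25000 * (q + 1) * (6 * q + 64 * D + 16) +
    200000 * (q + 1) * D := ⟨_, rfl⟩
  obtain ⟨Δ, hΔ⟩ : ∃ Δ : ℝ, Δ = (((N ^ 2 : ℕ) : ℝ) - 14400) / (25000 * (q + 1)) := ⟨_, rfl⟩
  have hq0 : (0:ℝ) ≤ q := Nat.cast_nonneg q
  have hD0 : (0:ℝ) ≤ D := Nat.cast_nonneg D
  have hNr : (N:ℝ) = 14400 + 25000 * (q + 1) * (6 * q + 64 * D + 16) +
      200000 * (q + 1) * D := by rw [hN]; push_cast; ring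
  have hN1 : (1:ℝ) ≤ N := by
    rw [hNr]
    have : 0 ≤ 25000 * ((q:ℝ) + 1) * (6 * q + 64 * D + 16) + 200000 * (q + 1) * D := by
      positivity
    linarith
  have hΔlow : 6 * q + 64 * D + 16 + 8 * D * N ≤ Δ := by
    rw [hΔ, le_div_iff₀ (by positivity)]
    push_cast
    have h1 : (N:ℝ) ^ 2 = N * (14400 + 25000 * (q + 1) * (6 * q + 64 * D + 16)) +
        N * (200000 * (q + 1) * D) := by
      rw [sq]
      nth_rewrite 2 [hNr]
      ring
    have h2 : 1 * (14400 + 25000 * ((q:ℝ) + 1) * (6 * q + 64 * D + 16)) ≤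
        N * (14400 + 25000 * (q + 1) * (6 * q + 64 * D + 16)) := by gcongr
    rw [h1]
    have e : (6 * (q:ℝ) + 64 * D + 16 + 8 * D * N) * (25000 * (q + 1)) =
        25000 * (q + 1) * (6 * q + 64 * D + 16) + N * (200000 * (q + 1) * D) := by ring
    rw [e]
    linarith
  have hDN : 0 ≤ 8 * (D:ℝ) * N := by positivity
  refine ⟨N ^ 2, Δ, Real.exp (3 * N + 24), 1000 * 2 ^ (N ^ 2), by linarith,
    Real.one_le_exp (by positivity), ?_, ?_⟩
  · have h1 : 2 * (q:ℝ) ≤ Real.exp (2 * q) := by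
      have := Real.add_one_le_exp (2 * (q:ℝ)); linarith
    calc 2 * (q:ℝ) * Real.exp (3 * N + 24) ^ D ≤ Real.exp (2 * q) * Real.exp (3 * N + 24) ^ D := by
          gcongr
      _ = Real.exp (2 * q + D * (3 * N + 24)) := by
          rw [← Real.exp_nat_mul, ← Real.exp_add]
      _ ≤ _ := by
          apply Real.exp_le_exp.2
          have e : 2 * (q:ℝ) + D * (3 * N + 24) = 3 / 8 * (16 / 3 * q + 64 * D + 8 * D * N) := by
            ring
          rw [e]
          linarith
  intro x0 y0 α hx0 hy0 hb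
  obtain ⟨x, y, ex0, ey0, hxy, hst⟩ := chn_exists hx0 hy0 hb
  have hxpos : ∀ i ≤ N ^ 2, 0 < x i := fun i hi => by linarith [(hxy i hi).1]
  -- local solutions
  have hgex : ∀ i : ℕ, ∃ g : ℂ → ℂ, i ≤ N ^ 2 →
      DifferentiableOn ℂ g (ball (x i : ℂ) (rad (x i) (y i))) ∧
      ∀ z ∈ ball (x i : ℂ) (rad (x i) (y i)), ‖g z - (Real.log (y i) : ℂ)‖ ≤ 1 / 200 ∧
        FF α (g z) z = 0 ∧ (z.im = 0 → (g z).im = 0) := by
    intro i
    by_cases hi : i ≤ N ^ 2
    · obtain ⟨g, hg⟩ := local_solution (hxy i hi).1 (hxy i hi).2.1 (hxy i hi).2.2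
      exact ⟨g, fun _ => hg⟩
    · exact ⟨fun _ => 0, fun h => absurd h hi⟩
  choose g hg using hgex
  obtain ⟨ρ, hρ⟩ : ∃ ρ : ℕ → ℝ, ∀ i, ρ i = rad (x i) (y i) := ⟨_, fun _ => rfl⟩
  have hρpos : ∀ i ≤ N ^ 2, 0 < ρ i := by
    intro i hi
    rw [hρ]; exact rad_pos (hxpos i hi) (hxy i hi).2.1
  have hρle : ∀ i < N ^ 2, ρ (i + 1) ≤ ρ i := by
    intro i hi
    rw [hρ, hρ]
    have h1 := hρpos i hi.le
    rw [hρ] at h1
    apply rad_anti (hxpos (i + 1) hi) _ (hst i hi).2.1 (hxy i hi.le).2.1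
    rw [(hst i hi).1]; linarith
  have hρ0 : ∀ i ≤ N ^ 2, ρ i ≤ ρ 0 := by
    intro i
    induction i with
    | zero => intro _; exact le_rfl
    | succ i ih => intro hi; exact (hρle i (by omega)).trans (ih (by omega))
  have hxdist : ∀ i ≤ N ^ 2, x i ≤ x 0 ∧ x 0 - x i ≤ ρ 0 * (i / 8) := by
    intro i
    induction i with
    | zero => intro _; simp
    | succ i ih =>
      intro hi
      have h1 := ih (by omega)
      have h2 := (hst i (by omega)).1
      rw [← hρ] at h2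
      have h3 := hρ0 i (by omega)
      have h4 := hρpos i (by omega)
      refine ⟨by linarith [h1.1], ?_⟩
      push_cast
      have e : ρ 0 * (((i:ℝ) + 1) / 8) = ρ 0 * (i / 8) + ρ 0 / 8 := by ring
      rw [e]; linarith [h1.2]
  obtain ⟨G1, G2, G3⟩ := chain_growth (fun i hi => ⟨(hxy i hi).1, (hxy i hi).2.1⟩) hst
  have hρ0' : 0 < ρ 0 := hρpos 0 (Nat.zero_le _)
  refine ⟨x, ρ, fun i => Real.log (y i), g, ρ 0 * (1 + ((N ^ 2 : ℕ) : ℝ) / 8), ex0, ?_, ?_,
    hρpos, hρle, ?_, ?_, ?_, ?_, ?_, ?_, ?_, ?_, ?_⟩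
  · rw [hρ, ex0, ey0]
  · show Real.log (y 0) = Real.log y0
    rw [ey0]
  · intro i hi
    rw [(hst i hi).1, ← hρ]
    have h4 := hρpos i hi.le
    have e : x i - ρ i / 8 - x i = -(ρ i / 8) := by ring
    rw [e, abs_neg, abs_of_pos (by linarith)]
  · intro i hi
    rw [hρ]; exact (hg i hi).1
  · intro i hi z hz
    rw [hρ] at hz
    have := ((hg i hi).2 z hz).1
    show ‖g i z - ((Real.log (y i) : ℝ) : ℂ)‖ ≤ 1 / 2
    linarith
  · intro i hi z hz
    rw [hρ, hρ] at hz
    have h4 := hρpos i hi.le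
    rw [hρ] at h4
    refine consistent (hxy i hi.le).1 (hxy i hi.le).2.1 (hxy (i + 1) hi).1 (hxy (i + 1) hi).2.1
      (hg i hi.le).1 (hg i hi.le).2 (hg (i + 1) hi).1 (hg (i + 1) hi).2 ?_ hz
    rw [(hst i hi).1]
    have e : x i - rad (x i) (y i) / 8 - x i = -(rad (x i) (y i) / 8) := by ring
    rw [e, abs_neg, abs_of_pos (by linarith)]
    linarith
  · intro i hi
    have hyi : 0 < y i := by linarith [(hxy i hi.le).1, (hxy i hi.le).2.1]
    refine ⟨Real.log_le_log hyi (hst i hi).2.1, ?_⟩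
    have := (hst i hi).2.2.1
    show Real.log (y (i + 1)) ≤ Real.log (y i) + 1
    linarith
  · show Real.log (y 0) + q * Δ ≤ Real.log (y (N ^ 2))
    have h1 : q * Δ ≤ (((N ^ 2 : ℕ) : ℝ) - 14400) / 25000 := by
      have h2 : (((N ^ 2 : ℕ) : ℝ) - 14400) / 25000 = (q + 1) * Δ := by
        rw [hΔ]; field_simp
      rw [h2]
      have : 0 ≤ Δ := by linarith
      have e : ((q:ℝ) + 1) * Δ = q * Δ + Δ := by ring
      rw [e]; linarith
    linarith
  · intro i hi z hz
    rw [mem_ball, dist_eq_norm] at hz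
    have h1 := hxdist i hi
    have h2 := hρ0 i hi
    have e : z - (x 0 : ℂ) = (z - (x i : ℂ)) - ((x 0 - x i : ℝ) : ℂ) := by push_cast; ring
    rw [e]
    refine (norm_sub_le _ _).trans ?_
    rw [norm_real, Real.norm_eq_abs, abs_of_nonneg (by linarith [h1.1])]
    have h3 : ρ 0 * ((i:ℝ) / 8) ≤ ρ 0 * (((N ^ 2 : ℕ) : ℝ) / 8) := by
      have : (i:ℝ) ≤ ((N ^ 2 : ℕ) : ℝ) := by exact_mod_cast hi
      gcongr
    have e2 : ρ 0 * (1 + ((N ^ 2 : ℕ) : ℝ) / 8) = ρ 0 + ρ 0 * (((N ^ 2 : ℕ) : ℝ) / 8) := by ring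
    rw [e2]; linarith [h1.2]
  · rw [hρ, hρ]
    exact chain_ratio (hxpos 0 (Nat.zero_le _)) (hxpos _ le_rfl) (hxy 0 (Nat.zero_le _)).2.1
      (hxy _ le_rfl).2.1 (hxdist _ le_rfl).1 G2 G3
  · have := (hg 0 (Nat.zero_le _)).2
    rw [ex0, ey0] at this
    exact this

/-- **Unconditional bound** for the number of representations as a binomial coefficient. -/
theorem all_reps {ε : ℝ} (hε : 0 < ε) : ∃ C : ℝ, 0 < C ∧ ∀ a : ℕ, 2 ≤ a → (reps a).Finite ∧
    ((reps a).ncard : ℝ) ≤ C * (Real.log a) ^ (1 / 2 + ε) :=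
  all_of_chain chain_hyp hε

end Pool.Helper53.SG
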