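import Mathlib

/-!
# Siegel's lemma in the form needed
-/

namespace Pool.Helper53.SG

attribute [local instance] Matrix.seminormedAddCommGroup

open Matrix

lemma siegel {ι : Type} [Fintype ι] (S : Finset ℤ) (f : ℤ → ι → ℤ) {B : ℝ} (hB : 1 ≤ B)
    (hf : ∀ k ∈ S, ∀ j, |(f k j : ℝ)| ≤ B) (hS : 0 < S.card) (hS2 : 2 * S.card ≤ Fintype.card ι) :
    ∃ p : ι → ℤ, p ≠ 0 ∧ (∀ k ∈ S, ∑ j, f k j * p j = 0) ∧
      ∀ j, |(p j : ℝ)| ≤ Fintype.card ι * B := by
  classical
  set A : Matrix S ι ℤ := Matrix.of (fun k j => f k j) with hA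
  have hcard : Fintype.card S = S.card := by simp
  obtain ⟨t, ht0, hAt, htn⟩ := Int.Matrix.exists_ne_zero_int_vec_norm_le A
    (by rw [hcard]; omega) (by rw [hcard]; exact hS)
  refine ⟨t, ht0, ?_, ?_⟩
  · intro k hk
    have := congrFun hAt ⟨k, hk⟩
    simpa [Matrix.mulVec, dotProduct, hA] using this
  · intro j
    have hAn : ‖A‖ ≤ B := by
      rw [Matrix.norm_le_iff (by linarith)]
      intro i j
      rw [Int.norm_eq_abs]
      exact hf i.1 i.2 j
    have h1 : ‖t j‖ ≤ ‖t‖ := norm_le_pi_norm t j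
    rw [Int.norm_eq_abs] at h1
    have hn1 : (1:ℝ) ≤ Fintype.card ι := by
      have : 1 ≤ Fintype.card ι := by omega
      exact_mod_cast this
    have h2 : (Fintype.card ι : ℝ) * max 1 ‖A‖ ≤ Fintype.card ι * B := by
      gcongr
      exact max_le hB hAn
    have h3 : (1:ℝ) ≤ (Fintype.card ι : ℝ) * max 1 ‖A‖ := by
      have : (1:ℝ) ≤ max 1 ‖A‖ := le_max_left _ _
      nlinarith
    have hexp : ((Fintype.card S : ℝ) / ((Fintype.card ι : ℝ) - Fintype.card S)) ≤ 1 := by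
      rw [hcard]
      have h4 : (2:ℝ) * S.card ≤ Fintype.card ι := by exact_mod_cast hS2
      have h5 : (0:ℝ) < S.card := by exact_mod_cast hS
      rw [div_le_one (by linarith)]
      linarith
    calc |(t j : ℝ)| ≤ ‖t‖ := h1
      _ ≤ _ := htn
      _ ≤ ((Fintype.card ι : ℝ) * max 1 ‖A‖) ^ (1:ℝ) :=
          Real.rpow_le_rpow_of_exponent_le h3 hexp
      _ = (Fintype.card ι : ℝ) * max 1 ‖A‖ := Real.rpow_one _
      _ ≤ _ := h2

end Pool.Helper53.SG
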