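import Pool.Agent.Helper53.SG.ZeroEst
import Pool.Agent.Helper53.SG.Siegel

/-!
# Integral points on an exponential-like analytic curve, local bound
-/

namespace Pool.Helper53.SG

open Complex Metric Set Polynomial

/-- Local bound for the number of integral points. -/
theorem local_bound {q D Z1 : ℕ} {k0 : ℤ} {r R1 r1 A M Δ xm xp V : ℝ} {ν : ℂ → ℂ}
    (hr : 0 < r) (hR1 : 6 * r < R1) (hν : DifferentiableOn ℂ ν (ball ((k0:ℝ):ℂ) R1))
    (hν0 : ∀ z ∈ ball ((k0:ℝ):ℂ) R1, ν z ≠ 0) (hA : 0 ≤ A)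
    (hlip : ∀ z w : ℂ, ‖z - (k0:ℝ)‖ ≤ 6 * r → ‖w - (k0:ℝ)‖ ≤ 6 * r →
      Real.log ‖ν z‖ ≤ Real.log ‖ν w‖ + A * ‖z - w‖ + 1)
    (hxm : |xm - k0| ≤ r / 2) (hxp : |xp - k0| ≤ r / 2)
    (hrange : Real.log ‖ν xp‖ + q * Δ = Real.log ‖ν xm‖)
    (hΔ : 16 ≤ Δ) (hr1 : 0 < r1) (hr1r : r1 ≤ r / 2) (hr1A : A * r1 ≤ Δ / 16)
    (hdom : 2 * q * (2 * r / r1) ^ D ≤ Real.exp (3 * Δ / 8))
    (hM1 : 1 ≤ M) (hM : M ≤ r) (hZ1 : 0 < Z1) (hZ2 : 2 * Z1 ≤ (D + 1) * q)
    (hV1 : 1 ≤ V) (hV : ∀ z : ℂ, ‖z - (k0:ℝ)‖ ≤ 6 * r → ‖ν z‖ ≤ V)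
    (hE : ((2 * M) / (6 * r - M)) ^ Z1 *
      (((D + 1) * q) ^ 2 * (6 * r) ^ (2 * D) * V ^ (2 * q)) < 1)
    (S : Finset ℤ) (n : ℤ → ℤ) (hS : ∀ k ∈ S, |(k:ℝ) - k0| ≤ M ∧ ν ((k:ℝ):ℂ) = ((n k : ℤ) : ℂ)) :
    S.card < Z1 ∨
      (2:ℝ) ^ S.card ≤ 2 * q * (12 * r / r1) ^ D * Real.exp (q * (8 * A * r + 2)) := by
  classical
  rcases lt_or_ge S.card Z1 with h | h
  · left; exact h
  right
  obtain ⟨S1, hS1S, hS1c⟩ := Finset.exists_subset_card_eq h
  -- entries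
  set f : ℤ → (Fin (D+1) × Fin q) → ℤ := fun k j => (k - k0) ^ (j.1 : ℕ) * (n k) ^ (j.2 : ℕ) with hf
  have hkk : ∀ k ∈ S, ‖((k:ℝ):ℂ) - ((k0:ℝ):ℂ)‖ ≤ M := by
    intro k hk
    rw [← ofReal_sub, norm_real, Real.norm_eq_abs]; exact (hS k hk).1
  have hnV : ∀ k ∈ S, |((n k : ℤ) : ℝ)| ≤ V := by
    intro k hk
    have h1 := hV ((k:ℝ):ℂ) ((hkk k hk).trans (by linarith))
    rw [(hS k hk).2] at h1
    rw [← Complex.norm_intCast]
    exact h1
  have hfB : ∀ k ∈ S1, ∀ j, |(f k j : ℝ)| ≤ M ^ D * V ^ q := by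
    intro k hk j
    rw [hf]; simp only
    push_cast
    rw [abs_mul, abs_pow, abs_pow]
    have h1 := (hS k (hS1S hk)).1
    have h2 := hnV k (hS1S hk)
    have h3 : |(k:ℝ) - k0| ^ (j.1 : ℕ) ≤ M ^ D := by
      calc |(k:ℝ) - k0| ^ (j.1 : ℕ) ≤ M ^ (j.1 : ℕ) := by gcongr
        _ ≤ M ^ D := pow_le_pow_right₀ hM1 (by have := j.1.2; omega)
    have h4 : |((n k : ℤ) : ℝ)| ^ (j.2 : ℕ) ≤ V ^ q := by
      calc |((n k : ℤ) : ℝ)| ^ (j.2 : ℕ) ≤ V ^ (j.2 : ℕ) := by gcongr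
        _ ≤ V ^ q := pow_le_pow_right₀ hV1 (by have := j.2.2; omega)
    exact mul_le_mul h3 h4 (by positivity) (by positivity)
  have hB1 : 1 ≤ M ^ D * V ^ q := by
    have h1 : 1 ≤ M ^ D := one_le_pow₀ hM1
    have h2 : 1 ≤ V ^ q := one_le_pow₀ hV1
    nlinarith
  have hcardι : Fintype.card (Fin (D+1) × Fin q) = (D + 1) * q := by simp
  obtain ⟨p, hp0, hp1, hp2⟩ := siegel S1 f hB1 hfB (by omega) (by rw [hcardι]; omega)
  rw [hcardι] at hp2
  set H : ℝ := ((D + 1) * q : ℕ) * (M ^ D * V ^ q) with hH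
  have hHc : H = ((D + 1) * q) * (M ^ D * V ^ q) := by rw [hH]; push_cast; ring
  -- polynomials
  set p' : ℕ → ℕ → ℤ := fun a b => if h : a < D + 1 ∧ b < q then p (⟨a, h.1⟩, ⟨b, h.2⟩) else 0
    with hp'
  have hp'b : ∀ a b, |((p' a b : ℤ) : ℝ)| ≤ H := by
    intro a b
    rw [hp']; simp only
    split_ifs with hab
    · exact hp2 _
    · simp only [Int.cast_zero, abs_zero]; rw [hHc]; positivity
  set P : ℕ → ℂ[X] := fun b => ∑ a ∈ Finset.range (D+1),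
    C ((p' a b : ℤ) : ℂ) * (X - C ((k0:ℝ):ℂ)) ^ a with hP
  have hPdeg : ∀ b < q, (P b).natDegree ≤ D := by
    intro b _
    rw [hP]; simp only
    apply natDegree_sum_le_of_forall_le
    intro a ha
    refine (natDegree_C_mul_le _ _).trans ?_
    refine (natDegree_pow_le).trans ?_
    rw [natDegree_X_sub_C]
    have := Finset.mem_range.1 ha
    omega
  have hPne : ∃ b < q, P b ≠ 0 := by
    have : ∃ j, p j ≠ 0 := by
      by_contra hcon
      push Not at hcon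
      exact hp0 (funext hcon)
    obtain ⟨⟨a, b⟩, hab⟩ := this
    refine ⟨b, b.2, ?_⟩
    intro hPb
    have hcomp : (P b).comp (X + C ((k0:ℝ):ℂ)) =
        ∑ a ∈ Finset.range (D+1), C ((p' a b : ℤ) : ℂ) * X ^ a := by
      rw [hP]; simp only
      rw [sum_comp]
      apply Finset.sum_congr rfl
      intro a _
      simp
    rw [hPb, zero_comp] at hcomp
    have hc := congrArg (fun Q : ℂ[X] => Q.coeff a) hcomp
    simp only [coeff_zero, finsetSum_coeff, coeff_C_mul, coeff_X_pow, mul_ite, mul_one,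
      mul_zero] at hc
    rw [Finset.sum_ite_eq (Finset.range (D+1)) (a:ℕ) (fun x => ((p' x b : ℤ) : ℂ)),
      if_pos (Finset.mem_range.2 a.2)] at hc
    apply hab
    have h5 : p' a b = p (a, b) := by
      rw [hp']; simp only
      rw [dif_pos ⟨a.2, b.2⟩]
    rw [h5] at hc
    exact_mod_cast hc.symm
  set G : ℂ → ℂ := fun z => ∑ b ∈ Finset.range q, (P b).eval z * ν z ^ b with hG
  have hPeval : ∀ b z, (P b).eval z = ∑ a ∈ Finset.range (D+1),
      ((p' a b : ℤ) : ℂ) * (z - ((k0:ℝ):ℂ)) ^ a := by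
    intro b z
    rw [hP]; simp only
    rw [eval_finsetSum]
    apply Finset.sum_congr rfl
    intro a _
    simp
  -- integrality of G at the points
  have hGint : ∀ k ∈ S, ∃ g : ℤ, G ((k:ℝ):ℂ) = (g : ℂ) ∧
      g = ∑ j, f k j * p j := by
    intro k hk
    refine ⟨∑ j, f k j * p j, ?_, rfl⟩
    rw [hG]; simp only
    rw [(hS k hk).2]
    rw [Fintype.sum_prod_type]
    push_cast
    rw [Finset.sum_comm, Finset.sum_range]
    apply Finset.sum_congr rfl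
    intro b _
    rw [hPeval, Finset.sum_range, Finset.sum_mul]
    apply Finset.sum_congr rfl
    intro a _
    have h5 : p' a b = p (a, b) := by
      rw [hp']; simp only
      rw [dif_pos ⟨a.2, b.2⟩]
    rw [h5, hf]; simp only
    push_cast
    ring
  have hGzero1 : ∀ k ∈ S1, G ((k:ℝ):ℂ) = 0 := by
    intro k hk
    obtain ⟨g, hg, hg2⟩ := hGint k (hS1S hk)
    rw [hg, hg2, hp1 k hk]; simp
  have hGd : DifferentiableOn ℂ G (ball ((k0:ℝ):ℂ) R1) := by
    rw [hG]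
    apply DifferentiableOn.fun_sum
    intro b _
    exact ((P b).differentiable.differentiableOn).mul (hν.pow b)
  have h6r : 1 ≤ 6 * r := by linarith
  have hGup : ∀ z : ℂ, ‖z - ((k0:ℝ):ℂ)‖ ≤ 6 * r →
      ‖G z‖ ≤ ((D + 1) * q) ^ 2 * (6 * r) ^ (2 * D) * V ^ (2 * q) := by
    intro z hz
    have hPz : ∀ b, ‖(P b).eval z‖ ≤ (D + 1) * (H * (6 * r) ^ D) := by
      intro b
      rw [hPeval]
      refine (norm_sum_le _ _).trans ?_
      refine (Finset.sum_le_card_nsmul _ _ (H * (6 * r) ^ D) ?_).trans ?_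
      · intro a ha
        rw [norm_mul, norm_pow, Complex.norm_intCast]
        have h1 : ‖z - ((k0:ℝ):ℂ)‖ ^ a ≤ (6 * r) ^ D := by
          calc ‖z - ((k0:ℝ):ℂ)‖ ^ a ≤ (6 * r) ^ a := by gcongr
            _ ≤ _ := pow_le_pow_right₀ h6r (by have := Finset.mem_range.1 ha; omega)
        exact mul_le_mul (hp'b a b) h1 (by positivity) ((abs_nonneg _).trans (hp'b a b))
      · rw [nsmul_eq_mul, Finset.card_range]; push_cast; exact le_rfl
    have hterm : ∀ b ∈ Finset.range q, ‖(P b).eval z * ν z ^ b‖ ≤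
        (D + 1) * (H * (6 * r) ^ D) * V ^ q := by
      intro b hb
      rw [norm_mul, norm_pow]
      have h1 : ‖ν z‖ ^ b ≤ V ^ q := by
        calc ‖ν z‖ ^ b ≤ V ^ b := by gcongr; exact hV z hz
          _ ≤ _ := pow_le_pow_right₀ hV1 (Finset.mem_range.1 hb).le
      exact mul_le_mul (hPz b) h1 (by positivity) ((norm_nonneg _).trans (hPz b))
    rw [hG]; simp only
    refine (norm_sum_le _ _).trans ?_
    refine (Finset.sum_le_card_nsmul _ _ _ hterm).trans ?_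
    rw [nsmul_eq_mul, Finset.card_range, hHc]
    have h2 : M ^ D ≤ (6 * r) ^ D := by gcongr; linarith
    calc (q:ℝ) * ((D + 1) * (((D + 1) * q) * (M ^ D * V ^ q) * (6 * r) ^ D) * V ^ q)
        ≤ (q:ℝ) * ((D + 1) * (((D + 1) * q) * ((6 * r) ^ D * V ^ q) * (6 * r) ^ D) * V ^ q) := by
          gcongr
      _ = _ := by
          rw [two_mul D, pow_add, two_mul q, pow_add]; ring
  -- extrapolation
  have hGzero : ∀ k ∈ S, G ((k:ℝ):ℂ) = 0 := by
    intro k hk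
    obtain ⟨g, hg, _⟩ := hGint k hk
    set s1 : Finset ℂ := S1.image (fun k : ℤ => ((k:ℝ):ℂ)) with hs1
    have hinj : Function.Injective (fun k : ℤ => ((k:ℝ):ℂ)) := by
      intro a b hab; simpa using hab
    have hs1c : s1.card = Z1 := by rw [hs1, Finset.card_image_of_injective _ hinj, hS1c]
    have h1 := schwarz_zeros (c := ((k0:ℝ):ℂ)) (R := 6 * r) (R1 := R1) (M := M) (ρ := M)
      (by linarith) hR1 hGd s1 (by
        intro x hx
        rw [hs1, Finset.mem_image] at hx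
        obtain ⟨k', hk', rfl⟩ := hx
        exact ⟨hkk k' (hS1S hk'), hGzero1 k' hk'⟩) (by linarith) hGup (hkk k hk) (by linarith)
    rw [hs1c] at h1
    have h2 : ‖G ((k:ℝ):ℂ)‖ < 1 := by
      refine lt_of_le_of_lt h1 ?_
      have e : M + M = 2 * M := by ring
      rw [e]; exact hE
    rw [hg, Complex.norm_intCast] at h2
    have h3 : g = 0 := by
      have : |g| < 1 := by exact_mod_cast h2
      exact Int.abs_lt_one_iff.1 this
    rw [hg, h3]; simp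
  -- zero estimate
  set s : Finset ℂ := S.image (fun k : ℤ => ((k:ℝ):ℂ)) with hs
  have hinj : Function.Injective (fun k : ℤ => ((k:ℝ):ℂ)) := by
    intro a b hab; simpa using hab
  have hsc : s.card = S.card := by rw [hs, Finset.card_image_of_injective _ hinj]
  rw [← hsc]
  exact zero_estimate (k := (k0:ℝ)) hr hR1 hν hν0 hA hlip hxm hxp hrange hΔ hr1 hr1r hr1A hdom P
    hPdeg hPne s hM (by
      intro x hx
      rw [hs, Finset.mem_image] at hx
      obtain ⟨k', hk', rfl⟩ := hx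
      exact ⟨hkk k' hk', hGzero k' hk'⟩)

end Pool.Helper53.SG
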