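import Pool.Agent.Helper53.SG.Phi
import Pool.Agent.Helper53.SG.Local

/-!
# Application of the local bound to the analytic model of the binomial equation
-/

namespace Pool.Helper53.SG

open Complex Metric Set Filter Topology

/-- logarithm of `1+u` in modulus -/
lemma abs_log_norm_one_add {u : ℂ} (hu : ‖u‖ ≤ 1 / 8) : |Real.log ‖1 + u‖| ≤ 1 / 4 := by
  have h1 : ‖1 + u‖ ≤ 9 / 8 := by
    refine (norm_add_le _ _).trans ?_
    rw [norm_one]; linarith
  have h2 : 7 / 8 ≤ ‖1 + u‖ := by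
    have : (1:ℂ) = (1 + u) - u := by ring
    have h3 := norm_sub_le (1 + u) u
    rw [← this, norm_one] at h3
    linarith
  rw [abs_le]
  constructor
  · have h3 := Real.one_sub_inv_le_log_of_pos (x := ‖1 + u‖) (by linarith)
    have h4 : ‖1 + u‖⁻¹ ≤ (7/8 : ℝ)⁻¹ := inv_anti₀ (by norm_num) h2
    norm_num at h4
    linarith
  · have h3 := Real.log_le_sub_one_of_pos (x := ‖1 + u‖) (by linarith)
    linarith

theorem core {c η s M : ℝ} {q D I h k0 Z1 : ℕ} {α L : ℝ} (hc : 0 < c) (hc8 : c ≤ 1 / 8)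
    (hq : 1 ≤ q) (hk0 : 1 ≤ k0) (hL : α + Real.log (k0.factorial : ℝ) = k0 * L) (hL1 : 1 ≤ L)
    (hlog : 8 + 3 * Real.log k0 ≤ 4 * L) (hlog2 : Real.log (2 * k0) ≤ (1 - 4 * c) * L)
    (hCI1 : Real.exp (1 - 3 * c * L) ≤ 1) (hCI2 : CI I * Real.exp (1 - 3 * c * L) ≤ 1 / 4)
    (hs : s = c / (208 * q)) (hh : 1 ≤ h) (h12 : 12 * (h:ℝ) < c / 13 * k0)
    (hM1 : 1 ≤ M) (hM : M ≤ 2 * h)
    (S : Finset ℤ) (n : ℤ → ℤ)
    (hS : ∀ k ∈ S, |(k:ℝ) - k0| ≤ M ∧
      ‖exp (phi α ((k:ℝ):ℂ) + wit I (phi α) I ((k:ℝ):ℂ)) - ((n k : ℤ) : ℂ)‖ ≤ η)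
    (hη : S.card * (η * (k0:ℝ) ^ S.card) ≤ 1 / 8)
    (hcu : 1 ≤ 2 * c * (h * L / k0))
    (hΔ16 : 16 ≤ 2 * c * (h * L / k0) / q)
    (hdom : 2 * q * (2 / s) ^ D ≤ Real.exp (3 / 8 * (2 * c * (h * L / k0) / q)))
    (hZ1 : 0 < Z1) (hZ2 : 2 * Z1 ≤ (D + 1) * q)
    (hE : ((2 * M) / (12 * h - M)) ^ Z1 *
      (((D + 1) * q) ^ 2 * (12 * (h:ℝ)) ^ (2 * D) * (Real.exp (3 * L)) ^ (2 * q)) < 1) :
    S.card < Z1 ∨ (2:ℝ) ^ S.card ≤
      2 * q * (12 / s) ^ D * Real.exp (q * (208 * (h * L / k0) + 2)) := by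
  have hk : (1:ℝ) ≤ k0 := by exact_mod_cast hk0
  have hqr : (1:ℝ) ≤ q := by exact_mod_cast hq
  have hhr : (1:ℝ) ≤ h := by exact_mod_cast hh
  have hspos : 0 < s := by rw [hs]; positivity
  have hs2 : s ≤ 1 / 2 := by
    rw [hs, div_le_div_iff₀ (by positivity) (by norm_num)]; nlinarith
  set θ : ℝ := c / 13 with hθ
  have hθ4 : θ * k0 ≤ k0 / 4 := by rw [hθ]; nlinarith
  set φ := phi α with hφ
  have hck : 0 ≤ c * L := by positivity
  -- bounds for the phase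
  have hphik0 : φ (k0:ℂ) = ((L:ℝ):ℂ) := by
    rw [hφ, phi_nat, hL]
    congr 1
    field_simp
  have hphi : ∀ z : ℂ, ‖z - k0‖ ≤ θ * k0 → |(φ z).re - L| ≤ c * L := by
    intro z hz
    have h1 := phi_lip hk0 hL (by linarith) hlog (z := z) (w := (k0:ℂ)) (by linarith)
      (by rw [sub_self, norm_zero]; positivity)
    have h2 : ‖φ z - φ (k0:ℂ)‖ ≤ c * L := by
      refine h1.trans ?_
      calc 13 * L / k0 * ‖z - k0‖ ≤ 13 * L / k0 * (θ * k0) := by gcongr
        _ = c * L := by rw [hθ]; field_simp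
    rw [hphik0] at h2
    have h3 := Complex.abs_re_le_norm (φ z - ((L:ℝ):ℂ))
    rw [sub_re, ofReal_re] at h3
    exact h3.trans h2
  have h2k : 2 * (k0:ℝ) ≤ Real.exp ((1 - 4 * c) * L) := by
    rw [← Real.log_le_iff_le_exp (by linarith)]; exact hlog2
  have hzx : ∀ z : ℂ, ‖z - k0‖ ≤ θ * k0 → 1 ≤ ‖z‖ ∧
      ‖z‖ * Real.exp (1 - (φ z).re) ≤ Real.exp (1 - 3 * c * L) ∨ ‖z‖ < 1 := by
    intro z hz
    rcases lt_or_ge ‖z‖ 1 with h1 | h1
    · right; exact h1
    left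
    refine ⟨h1, ?_⟩
    obtain ⟨_, _, hz2⟩ := mem_UK_of_near hk0 (z := z) (by linarith)
    have h3 := hphi z hz
    rw [abs_le] at h3
    calc ‖z‖ * Real.exp (1 - (φ z).re)
        ≤ Real.exp ((1 - 4 * c) * L) * Real.exp (1 - (L - c * L)) := by
          gcongr
          · linarith
          · linarith [h3.1]
      _ = Real.exp (1 - 3 * c * L) := by rw [← Real.exp_add]; congr 1; ring
  have hz1 : ∀ z : ℂ, ‖z - k0‖ ≤ θ * k0 → 1 ≤ ‖z‖ := by
    intro z hz
    obtain ⟨_, hz2, _⟩ := mem_UK_of_near hk0 (z := z) (by linarith)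
    have : (12:ℝ) * 1 < c / 13 * k0 := by
      refine lt_of_le_of_lt ?_ h12
      linarith
    have h5 : c / 13 * k0 ≤ k0 / 104 := by nlinarith
    linarith
  have hwb : ∀ z : ℂ, ‖z - k0‖ ≤ θ * k0 → ‖wit I φ I z‖ ≤ 1 / 4 := by
    intro z hz
    rcases hzx z hz with ⟨h1, h2⟩ | h1
    · refine wit_bound I h1 (h2.trans hCI1) ?_ I
      refine le_trans ?_ hCI2
      have := CI_nonneg I
      gcongr
    · have := hz1 z hz; linarith
  -- the correction
  set e : ℤ → ℂ := fun k => ((n k : ℤ) : ℂ) - exp (φ ((k:ℝ):ℂ) + wit I φ I ((k:ℝ):ℂ)) with he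
  obtain ⟨cc, hcc, hcck, hccb⟩ := lagr S e (η := η) (fun k hk => by
    rw [he]; simp only; rw [norm_sub_rev]; exact (hS k hk).2)
  have hcb : ∀ z : ℂ, ‖z - k0‖ ≤ θ * k0 → ‖cc z‖ ≤ 1 / 8 := by
    intro z hz
    refine (hccb z k0 hk ?_).trans hη
    intro j hj
    have h1 := (hS j hj).1
    have h2 : z - (j:ℝ) = (z - k0) - (((j:ℝ) - k0 : ℝ) : ℂ) := by push_cast; ring
    rw [h2]
    refine (norm_sub_le _ _).trans ?_
    rw [norm_real, Real.norm_eq_abs]
    have h3 : M ≤ θ * k0 := by linarith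
    linarith
  set ν0 : ℂ → ℂ := fun z => exp (φ z + wit I φ I z) with hν0
  set ν : ℂ → ℂ := fun z => ν0 z + cc z with hν
  have hν0n : ∀ z : ℂ, ‖ν0 z‖ = Real.exp ((φ z).re + (wit I φ I z).re) := by
    intro z; rw [hν0]; simp only; rw [norm_exp, add_re]
  have hν01 : ∀ z : ℂ, ‖z - k0‖ ≤ θ * k0 → 1 ≤ ‖ν0 z‖ := by
    intro z hz
    rw [hν0n]
    apply Real.one_le_exp
    have h1 := hphi z hz
    have h2 := hwb z hz
    have h3 := Complex.abs_re_le_norm (wit I φ I z)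
    rw [abs_le] at h1 h3
    nlinarith [h1.1, h3.1]
  have hquot : ∀ z : ℂ, ‖z - k0‖ ≤ θ * k0 → ‖cc z / ν0 z‖ ≤ 1 / 8 := by
    intro z hz
    rw [norm_div, div_le_iff₀ (by linarith [hν01 z hz])]
    have h1 := hcb z hz
    have h2 := hν01 z hz
    linarith
  have hfac : ∀ z : ℂ, ν z = ν0 z * (1 + cc z / ν0 z) := by
    intro z
    have : ν0 z ≠ 0 := exp_ne_zero _
    rw [hν]; simp only; field_simp
  have hνne : ∀ z : ℂ, ‖z - k0‖ ≤ θ * k0 → ν z ≠ 0 := by
    intro z hz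
    rw [hfac]
    apply mul_ne_zero (exp_ne_zero _)
    intro h0
    have h1 := hquot z hz
    have h2 : cc z / ν0 z = -1 := by linear_combination h0
    rw [h2, norm_neg, norm_one] at h1
    norm_num at h1
  have hlogν : ∀ z : ℂ, ‖z - k0‖ ≤ θ * k0 → |Real.log ‖ν z‖ - (φ z).re| ≤ 1 / 2 := by
    intro z hz
    rw [hfac, norm_mul]
    have h0 : ‖ν0 z‖ ≠ 0 := by
      have := hν01 z hz
      linarith
    have h1 : ‖1 + cc z / ν0 z‖ ≠ 0 := by
      rw [norm_ne_zero_iff]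
      intro h
      apply hνne z hz
      rw [hfac, h, mul_zero]
    rw [Real.log_mul h0 h1, hν0n, Real.log_exp]
    have h2 := abs_log_norm_one_add (hquot z hz)
    have h3 := Complex.abs_re_le_norm (wit I φ I z)
    have h4 := hwb z hz
    have h5 : (φ z).re + (wit I φ I z).re + Real.log ‖1 + cc z / ν0 z‖ - (φ z).re =
      (wit I φ I z).re + Real.log ‖1 + cc z / ν0 z‖ := by ring
    rw [h5]
    refine (abs_add_le _ _).trans ?_
    linarith
  -- analyticity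
  have hball : ∀ z ∈ ball (k0:ℂ) (θ * k0), ‖z - k0‖ ≤ θ * k0 := by
    intro z hz
    rw [mem_ball, dist_eq_norm] at hz; exact hz.le
  have hφd : DifferentiableOn ℂ φ (ball (k0:ℂ) (θ * k0)) := by
    have h1 : DifferentiableOn ℂ lam (ball (k0:ℂ) (θ * k0)) :=
      (lam_differentiableOn hk).mono (fun z hz => (mem_UK_of_near hk0
        ((hball z hz).trans hθ4)).1)
    rw [hφ]
    unfold phi
    apply DifferentiableOn.div
    · exact h1.const_add _
    · exact differentiableOn_id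
    · intro z hz
      have := hz1 z (hball z hz)
      rw [← norm_pos_iff]; linarith
  have hνd : DifferentiableOn ℂ ν (ball (k0:ℂ) (θ * k0)) := by
    rw [hν, hν0]
    exact ((hφd.add (wit_differentiableOn I hφd I)).cexp).add hcc.differentiableOn
  -- casts
  have hcast : (((k0:ℤ):ℝ):ℂ) = (k0:ℂ) := by push_cast; rfl
  set u : ℝ := h * L / k0 with hu
  have hu0 : 0 ≤ u := by rw [hu]; positivity
  have h6 : 6 * (2 * (h:ℝ)) < θ * k0 := by linarith
  have h2hk : 2 * h ≤ k0 := by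
    have : 2 * (h:ℝ) ≤ k0 := by nlinarith
    exact_mod_cast this
  have hLlog : Real.log (2 * k0) ≤ L := by nlinarith
  have hrange0 := phi_range hk0 h2hk hL hLlog
  have hxmc : (((k0:ℝ) - h : ℝ) : ℂ) = ((k0 - h : ℕ) : ℂ) := by
    rw [Nat.cast_sub (by omega)]; push_cast; ring
  have hxpc : (((k0:ℝ) + h : ℝ) : ℂ) = ((k0 + h : ℕ) : ℂ) := by push_cast; ring
  have hrem : (φ ((k0 - h : ℕ) : ℂ)).re =
      (α + Real.log ((k0 - h).factorial : ℝ)) / ((k0 - h : ℕ) : ℝ) := by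
    rw [hφ, phi_nat, ofReal_re]
  have hrep : (φ ((k0 + h : ℕ) : ℂ)).re =
      (α + Real.log ((k0 + h).factorial : ℝ)) / ((k0 + h : ℕ) : ℝ) := by
    rw [hφ, phi_nat, ofReal_re]
  have hnearm : ‖(((k0:ℝ) - h : ℝ) : ℂ) - k0‖ ≤ θ * k0 := by
    have : (((k0:ℝ) - h : ℝ) : ℂ) - k0 = ((-(h:ℝ) : ℝ) : ℂ) := by push_cast; ring
    rw [this, norm_real, Real.norm_eq_abs, abs_neg, abs_of_nonneg (by linarith)]
    linarith
  have hnearp : ‖(((k0:ℝ) + h : ℝ) : ℂ) - k0‖ ≤ θ * k0 := by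
    have : (((k0:ℝ) + h : ℝ) : ℂ) - k0 = (((h:ℝ) : ℝ) : ℂ) := by push_cast; ring
    rw [this, norm_real, Real.norm_eq_abs, abs_of_nonneg (by linarith)]
    linarith
  have hrange1 : 4 * c * u - 1 ≤
      Real.log ‖ν (((k0:ℝ) - h : ℝ) : ℂ)‖ - Real.log ‖ν (((k0:ℝ) + h : ℝ) : ℂ)‖ := by
    have h1 := hlogν _ hnearm
    have h2 := hlogν _ hnearp
    rw [abs_le] at h1 h2
    rw [hxmc, hrem] at h1
    rw [hxpc, hrep] at h2
    rw [hxmc, hxpc]
    have h3 : 4 * c * u ≤ h * (L - Real.log (2 * k0)) / k0 := by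
      rw [hu]
      have : 4 * c * (h * L / k0) = h * (4 * c * L) / k0 := by ring
      rw [this]
      gcongr
      linarith
    linarith [h1.1, h2.2]
  set Δ : ℝ := (Real.log ‖ν (((k0:ℝ) - h : ℝ) : ℂ)‖ -
    Real.log ‖ν (((k0:ℝ) + h : ℝ) : ℂ)‖) / q with hΔ
  have hΔlow : 2 * c * u / q ≤ Δ := by
    rw [hΔ]
    gcongr
    linarith
  have hqne : (q:ℝ) ≠ 0 := by linarith
  have hr0 : (0:ℝ) < 2 * h := by linarith
  have hmain := local_bound (q := q) (D := D) (Z1 := Z1) (k0 := (k0:ℤ)) (r := 2 * h)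
    (R1 := θ * k0) (r1 := 2 * h * s) (A := 13 * L / k0) (M := M) (Δ := Δ) (xm := (k0:ℝ) - h)
    (xp := (k0:ℝ) + h) (V := Real.exp (3 * L)) (ν := ν) hr0 h6 (by rw [hcast]; exact hνd)
    (by rw [hcast]; intro z hz; exact hνne z (hball z hz)) (by positivity)
    (by
      intro z w hz hw
      have e1 : (((k0:ℤ):ℝ):ℂ) = (k0:ℂ) := hcast
      simp only [e1] at hz hw
      have hz' : ‖z - k0‖ ≤ θ * k0 := by linarith
      have hw' : ‖w - k0‖ ≤ θ * k0 := by linarith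
      have h1 := hlogν z hz'
      have h2 := hlogν w hw'
      rw [abs_le] at h1 h2
      have h3 := phi_lip hk0 hL (by linarith) hlog (z := z) (w := w) (by linarith) (by linarith)
      have h4 := Complex.abs_re_le_norm (φ z - φ w)
      rw [sub_re, abs_le] at h4
      linarith [h1.2, h2.1, h4.2])
    (by
      have : (k0:ℝ) - h - ((k0:ℤ):ℝ) = -(h:ℝ) := by push_cast; ring
      rw [this, abs_neg, abs_of_nonneg (by linarith)]; linarith)
    (by
      have : (k0:ℝ) + h - ((k0:ℤ):ℝ) = (h:ℝ) := by push_cast; ring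
      rw [this, abs_of_nonneg (by linarith)]; linarith)
    (by rw [hΔ]; field_simp; ring)
    (hΔ16.trans hΔlow) (by positivity) (by nlinarith)
    (by
      have e1 : 13 * L / k0 * (2 * h * s) = 26 * s * u := by rw [hu]; ring
      rw [e1]
      have e2 : 26 * s * u = (2 * c * u / q) / 16 := by
        rw [hs]; field_simp; ring
      rw [e2]; linarith)
    (by
      have e1 : 2 * (2 * (h:ℝ)) / (2 * h * s) = 2 / s := by field_simp
      rw [e1]
      refine hdom.trans ?_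
      apply Real.exp_le_exp.2
      linarith)
    hM1 hM hZ1 hZ2 (Real.one_le_exp (by linarith))
    (by
      intro z hz
      have e1 : (((k0:ℤ):ℝ):ℂ) = (k0:ℂ) := hcast
      simp only [e1] at hz
      have hz' : ‖z - k0‖ ≤ θ * k0 := by linarith
      have h1 := hlogν z hz'
      have h2 := hphi z hz'
      rw [abs_le] at h1 h2
      rw [← Real.log_le_iff_le_exp (norm_pos_iff.2 (hνne z hz'))]
      nlinarith [h1.2, h2.2])
    (by
      have e1 : 6 * (2 * (h:ℝ)) = 12 * h := by ring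
      rw [e1]; exact hE)
    S n
    (by
      intro k hk
      refine ⟨by push_cast; exact (hS k hk).1, ?_⟩
      have h1 := hcck k hk
      rw [hν]; simp only
      rw [h1, he]; simp only
      rw [hν0]; simp only
      ring)
  rcases hmain with h1 | h1
  · left; exact h1
  · right
    refine h1.trans (le_of_eq ?_)
    have e1 : 12 * (2 * (h:ℝ)) / (2 * h * s) = 12 / s := by field_simp
    rw [e1]
    congr 2
    rw [hu]
    ring

end Pool.Helper53.SG
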