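import Pool.Agent.Helper53.SG.Points

/-!
# Counting solutions in dyadic blocks
-/

namespace Pool.Helper53.SG

open Filter Topology

lemma two_pow_le_choose {n k : ℕ} (hk : 1 ≤ k) (hn : 2 * k ≤ n) : 2 ^ k ≤ n.choose k := by
  have h1 : 4 ^ k ≤ 2 * k * k.centralBinom := Nat.four_pow_le_two_mul_self_mul_centralBinom k hk
  have h2 : 2 * k ≤ 2 ^ k := by
    clear h1 hn
    induction k, hk using Nat.le_induction with
    | base => norm_num
    | succ m hm ih => rw [pow_succ]; omega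
  have h3 : 2 ^ k ≤ k.centralBinom := by
    have e : 4 ^ k = 2 ^ k * 2 ^ k := by rw [← mul_pow]; norm_num
    have h4 : 2 ^ k * 2 ^ k ≤ 2 ^ k * k.centralBinom := by
      rw [← e]; exact h1.trans (Nat.mul_le_mul_right _ h2)
    exact Nat.le_of_mul_le_mul_left h4 (by positivity)
  exact h3.trans (Nat.choose_le_choose k hn)

lemma le_two_log {n k a : ℕ} (hk : 1 ≤ k) (hn : 2 * k ≤ n) (ha : n.choose k = a) :
    (k:ℝ) ≤ 2 * Real.log a := by
  have h1 := two_pow_le_choose hk hn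
  rw [ha] at h1
  have h2 : ((2:ℝ)) ^ k ≤ a := by exact_mod_cast h1
  have h3 := Real.log_le_log (by positivity) h2
  rw [Real.log_pow] at h3
  have h4 := Real.log_two_gt_d9
  have h5 : (k:ℝ) * (1/2) ≤ k * Real.log 2 := by gcongr; linarith
  linarith

/-- `k` is the lower entry of a representation of `a` with `n ≥ k^(1+δ)`. -/
def Sol (δ : ℝ) (a k : ℕ) : Prop :=
  1 ≤ k ∧ ∃ n : ℕ, 2 * k ≤ n ∧ (k:ℝ) ^ (1 + δ) ≤ n ∧ n.choose k = a

lemma log_fact_le (k : ℕ) : Real.log (k.factorial : ℝ) ≤ k * Real.log k := by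
  rcases Nat.eq_zero_or_pos k with h | h
  · subst h; simp
  have h1 : (k.factorial : ℝ) ≤ (k:ℝ) ^ k := by exact_mod_cast Nat.factorial_le_pow k
  have h2 := Real.log_le_log (by exact_mod_cast Nat.factorial_pos k) h1
  rwa [Real.log_pow] at h2

/-- Bounds for the size parameter `L` of a solution. -/
lemma sol_size {δ : ℝ} (hδ : 0 < δ) (hδ1 : δ ≤ 1) {a k0 K : ℕ} (hK : 1 ≤ K) (hKk : K ≤ k0)
    (hsol : Sol δ a k0) (haK : Real.log a ≤ (K:ℝ) ^ 2) (hk0 : 2 / δ ≤ Real.log k0) {L : ℝ}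
    (hL : L = (Real.log a + Real.log (k0.factorial : ℝ)) / k0) :
    Real.log (2 * k0) ≤ (1 - 4 * (δ / 32)) * L ∧ L ≤ 2 * k0 ∧
      L ≤ (1 + 2 / δ) * (Real.log a / K) := by
  obtain ⟨h1, n, hn2, hn3, hn4⟩ := hsol
  have hk0r : (0:ℝ) < k0 := by exact_mod_cast h1
  have hKr : (0:ℝ) < K := by exact_mod_cast hK
  have hnr : (0:ℝ) < n := by exact_mod_cast (by omega : 0 < n)
  obtain ⟨g1, g2, _⟩ := solution_data (I := 0) h1 hn2 (ℓ := L) (by rw [hL, hn4])
  have hlogn : (1 + δ) * Real.log k0 ≤ Real.log n := by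
    rw [← Real.log_rpow hk0r]
    exact Real.log_le_log (Real.rpow_pos_of_pos hk0r _) hn3
  have hl2 := Real.log_two_lt_d9
  have hlk2 : 2 ≤ Real.log k0 := by
    have : 2 ≤ 2 / δ := by rw [le_div_iff₀ hδ]; linarith
    linarith
  have hdk : 2 ≤ δ * Real.log k0 := by
    rw [div_le_iff₀ hδ] at hk0; linarith
  have hLlow : (1 + δ) * Real.log k0 - 0.7 ≤ L := by linarith
  have hfl := log_fact_le k0
  have hLeq : L * k0 = Real.log a + Real.log (k0.factorial : ℝ) := by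
    rw [hL]; field_simp
  refine ⟨?_, ?_, ?_⟩
  · rw [Real.log_mul (by norm_num) hk0r.ne']
    have h3 : (1 - 4 * (δ / 32)) * ((1 + δ) * Real.log k0 - 0.7) ≤ (1 - 4 * (δ / 32)) * L := by
      apply mul_le_mul_of_nonneg_left hLlow
      linarith
    have h4 : (1 - 4 * (δ / 32)) * ((1 + δ) * Real.log k0 - 0.7) =
        Real.log k0 + (7/8) * (δ * Real.log k0) - (1/8) * (δ * (δ * Real.log k0))
          - 0.7 + 0.7 * (δ / 8) := by ring
    have h5 : δ * (δ * Real.log k0) ≤ 1 * (δ * Real.log k0) := by gcongr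
    have h6 : (3/4) * 2 ≤ (3/4) * (δ * Real.log k0) := by gcongr
    linarith
  · have hlk : Real.log k0 ≤ k0 := by
      have := Real.add_one_le_exp (Real.log k0)
      rw [Real.exp_log hk0r] at this; linarith
    have hKk' : (K:ℝ) ≤ k0 := by exact_mod_cast hKk
    have h3 : L * k0 ≤ 2 * k0 * k0 := by
      rw [hLeq]
      have h4 : (K:ℝ)^2 ≤ (k0:ℝ) * k0 := by rw [sq]; gcongr
      have h5 : k0 * Real.log k0 ≤ (k0:ℝ) * k0 := by gcongr
      linarith
    exact le_of_mul_le_mul_right h3 hk0r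
  · have hKk' : (K:ℝ) ≤ k0 := by exact_mod_cast hKk
    have h3 : L = Real.log a / k0 + Real.log (k0.factorial : ℝ) / k0 := by
      rw [hL]; ring
    have h4 : Real.log (k0.factorial : ℝ) / k0 ≤ Real.log k0 := by
      rw [div_le_iff₀ hk0r]; linarith
    have h5 : δ * Real.log k0 - 0.7 ≤ Real.log a / k0 := by linarith
    have h6 : Real.log k0 ≤ 2 / δ * (Real.log a / k0) := by
      rw [div_mul_eq_mul_div, le_div_iff₀ hδ]
      linarith
    have h7 : 0 ≤ Real.log a / k0 := by linarith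
    have h8 : 0 ≤ Real.log a := by
      have := mul_nonneg h7 hk0r.le
      rwa [div_mul_cancel₀ _ hk0r.ne'] at this
    have h9 : Real.log a / k0 ≤ Real.log a / K := by gcongr
    calc L ≤ (1 + 2 / δ) * (Real.log a / k0) := by
          have e : (1 + 2 / δ) * (Real.log a / k0) = Real.log a / k0 +
            2 / δ * (Real.log a / k0) := by ring
          rw [e]; linarith
      _ ≤ _ := by gcongr

/-- Solutions in a dyadic block. -/
theorem block {δ ε : ℝ} (hδ : 0 < δ) (hδ1 : δ ≤ 1) (hε : 0 < ε) (hε1 : ε ≤ 1 / 2) :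
    ∃ C : ℝ, 0 < C ∧ ∀ a K : ℕ, 1 ≤ K → Real.log a ≤ (K:ℝ) ^ 2 →
      ∀ S : Finset ℕ, (∀ k ∈ S, K ≤ k ∧ k < 2 * K ∧ Sol δ a k) →
        (S.card : ℝ) ≤ C * ((K:ℝ) ^ ε * (Real.log a / K)) := by
  classical
  obtain ⟨B, C, hC, hloc⟩ := local_points (c := δ / 32) (ε := ε) (by positivity) (by linarith)
    hε (by linarith)
  -- large `k0`
  have hev : ∀ᶠ x : ℝ in atTop, B ≤ Real.log x ∧ 2 / δ ≤ Real.log x ∧ 1 ≤ Real.log x ∧
      Real.log x ≤ x ^ (ε / 2) := by
    have h1 := Real.tendsto_log_atTop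
    have h2 := (isLittleO_log_rpow_atTop (r := ε / 2) (by positivity)).bound (c := 1)
      (by norm_num)
    filter_upwards [h1.eventually_ge_atTop B, h1.eventually_ge_atTop (2 / δ),
      h1.eventually_ge_atTop 1, h2, eventually_ge_atTop (1:ℝ)] with x g1 g2 g3 g4 g5
    refine ⟨g1, g2, g3, ?_⟩
    rw [Real.norm_eq_abs, Real.norm_eq_abs, one_mul, abs_of_nonneg (by linarith),
      abs_of_nonneg (by positivity)] at g4
    exact g4
  obtain ⟨X, hX⟩ := Filter.eventually_atTop.1 hev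
  obtain ⟨C2, hC2⟩ : ∃ C2 : ℝ, C2 = 3 * (C * (1 + 2 / δ)) + 2 * |X| := ⟨_, rfl⟩
  have hC2a : 3 * (C * (1 + 2 / δ)) ≤ C2 := by
    have := abs_nonneg X
    linarith
  have hC2p : 0 < 3 * (C * (1 + 2 / δ)) := by positivity
  refine ⟨C2, by linarith, ?_⟩
  intro a K hK haK S hS
  have hKr : (1:ℝ) ≤ K := by exact_mod_cast hK
  have hK0 : (0:ℝ) < K := by linarith
  have hKε : (1:ℝ) ≤ (K:ℝ) ^ ε := Real.one_le_rpow hKr hε.le
  rcases S.eq_empty_or_nonempty with hemp | hne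
  · rw [hemp, Finset.card_empty]
    have : 0 ≤ Real.log a := Real.log_natCast_nonneg a
    have : 0 ≤ C2 := by linarith
    push_cast
    positivity
  obtain ⟨k1, hk1⟩ := hne
  obtain ⟨hk1a, hk1b, hk1c, n1, hn1, _, hn1a⟩ := hS k1 hk1
  have hAK : (1/2 : ℝ) ≤ Real.log a / K := by
    rw [le_div_iff₀ hK0]
    have h1 := le_two_log hk1c hn1 hn1a
    have h2 : (K:ℝ) ≤ k1 := by exact_mod_cast hk1a
    linarith
  rcases lt_or_ge (K:ℝ) X with hKX | hKX
  · -- trivial bound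
    have h1 : S.card ≤ K := by
      have : S ⊆ Finset.Ico K (2 * K) := by
        intro k hk
        rw [Finset.mem_Ico]
        exact ⟨(hS k hk).1, (hS k hk).2.1⟩
      have := Finset.card_le_card this
      rw [Nat.card_Ico] at this
      omega
    have h2 : (S.card : ℝ) ≤ K := by exact_mod_cast h1
    have h3 : (1:ℝ) * (1/2) ≤ (K:ℝ) ^ ε * (Real.log a / K) := by gcongr
    have h4 : 2 * |X| ≤ C2 := by linarith
    have h5 : 2 * |X| * (1 * (1/2)) ≤ C2 * ((K:ℝ) ^ ε * (Real.log a / K)) := by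
      apply mul_le_mul h4 h3 (by norm_num) (by linarith)
    have h6 := le_abs_self X
    linarith
  -- the interval length
  obtain ⟨H, hH⟩ : ∃ H : ℕ, H = ⌊(K:ℝ) ^ (1 - ε)⌋₊ := ⟨_, rfl⟩
  have hKe1 : (1:ℝ) ≤ (K:ℝ) ^ (1 - ε) := Real.one_le_rpow hKr (by linarith)
  have hH1 : 1 ≤ H := by rw [hH]; exact Nat.one_le_floor_iff _ |>.2 hKe1
  have hHle : (H:ℝ) ≤ (K:ℝ) ^ (1 - ε) := by rw [hH]; exact Nat.floor_le (by linarith)
  have hHge : (K:ℝ) ^ (1 - ε) ≤ 2 * H := by
    have h1 : (K:ℝ) ^ (1 - ε) < H + 1 := by rw [hH]; exact Nat.lt_floor_add_one _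
    have h2 : (1:ℝ) ≤ H := by exact_mod_cast hH1
    linarith
  have hHr : (0:ℝ) < H := by exact_mod_cast hH1
  obtain ⟨J, hJ⟩ : ∃ J : ℕ, J = K / H + 1 := ⟨_, rfl⟩
  have hJle : (J:ℝ) ≤ 3 * (K:ℝ) ^ ε := by
    have h1 : ((K / H : ℕ) : ℝ) ≤ (K:ℝ) / H := Nat.cast_div_le
    have h2 : (K:ℝ) / H ≤ 2 * (K:ℝ) ^ ε := by
      rw [div_le_iff₀ hHr]
      have h3 : (K:ℝ) = (K:ℝ) ^ ε * (K:ℝ) ^ (1 - ε) := by
        rw [← Real.rpow_add hK0]; simp
      calc (K:ℝ) = (K:ℝ) ^ ε * (K:ℝ) ^ (1 - ε) := h3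
        _ ≤ (K:ℝ) ^ ε * (2 * H) := by gcongr
        _ = _ := by ring
    rw [hJ]; push_cast; linarith
  set f : ℕ → ℕ := fun k => (k - K) / H with hf
  have hmaps : ∀ k ∈ S, f k ∈ Finset.range J := by
    intro k hk
    rw [Finset.mem_range, hf, hJ]
    have h1 := (hS k hk).2.1
    have h2 : k - K ≤ K := by omega
    have h3 : (k - K) / H ≤ K / H := Nat.div_le_div_right h2
    show (k - K) / H < K / H + 1
    omega
  have hcard := Finset.card_eq_sum_card_fiberwise (f := f) (s := S) (t := Finset.range J) hmaps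
  have hfib : ∀ i ∈ Finset.range J, ((S.filter (fun k => f k = i)).card : ℝ) ≤
      C * (1 + 2 / δ) * (Real.log a / K) := by
    intro i _
    rcases (S.filter (fun k => f k = i)).eq_empty_or_nonempty with he | ⟨k0, hk0⟩
    · rw [he, Finset.card_empty]
      have : 0 ≤ Real.log a := Real.log_natCast_nonneg a
      push_cast; positivity
    rw [Finset.mem_filter] at hk0
    obtain ⟨hk0S, hk0i⟩ := hk0
    obtain ⟨hk0a, hk0b, hk0c⟩ := hS k0 hk0S
    have hk0K : (K:ℝ) ≤ k0 := by exact_mod_cast hk0a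
    have hk0r : (0:ℝ) < k0 := by linarith
    obtain ⟨x1, x2, x3, x4⟩ := hX (k0:ℝ) (by linarith)
    obtain ⟨L, hL⟩ : ∃ L : ℝ, L = (Real.log a + Real.log (k0.factorial : ℝ)) / k0 := ⟨_, rfl⟩
    obtain ⟨s1, s2, s3⟩ := sol_size hδ hδ1 hK hk0a hk0c haK x2 hL
    have hb := hloc k0 (Real.log a) L x1 x4 (by rw [hL]; field_simp) s1 s2
      (S.filter (fun k => f k = i)) (by
        intro k hk
        rw [Finset.mem_filter] at hk
        obtain ⟨hkS, hki⟩ := hk
        obtain ⟨hka, hkb, hkc, n, hn, _, hna⟩ := hS k hkS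
        refine ⟨?_, n, hkc, hn, by rw [hna]⟩
        have h1 : (k0:ℝ) ^ (1 - ε) ≥ (K:ℝ) ^ (1 - ε) := by
          apply Real.rpow_le_rpow hK0.le hk0K (by linarith)
        refine le_trans ?_ (hHle.trans h1)
        have h2 : (k - K) / H = (k0 - K) / H := by
          have e1 : f k = f k0 := by rw [hki, hk0i]
          exact e1
        have h3 := Nat.div_add_mod (k - K) H
        have h4 := Nat.div_add_mod (k0 - K) H
        have h5 := Nat.mod_lt (k - K) hH1
        have h6 := Nat.mod_lt (k0 - K) hH1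
        rw [h2] at h3
        have h7 : k ≤ k0 + H := by omega
        have h8 : k0 ≤ k + H := by omega
        have h7' : (k:ℝ) ≤ k0 + H := by exact_mod_cast h7
        have h8' : (k0:ℝ) ≤ k + H := by exact_mod_cast h8
        rw [abs_le]
        constructor <;> linarith)
    refine hb.trans ?_
    have hLn : 0 ≤ L := by
      rw [hL]
      apply div_nonneg _ hk0r.le
      have h1 : 0 ≤ Real.log a := Real.log_natCast_nonneg a
      have h2 : 0 ≤ Real.log (k0.factorial : ℝ) := Real.log_natCast_nonneg _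
      linarith
    have h1 : L / Real.log k0 ≤ L := div_le_self hLn x3
    calc C * (L / Real.log k0) ≤ C * ((1 + 2 / δ) * (Real.log a / K)) := by
          gcongr; linarith
      _ = _ := by ring
  rw [hcard]
  push_cast
  calc ∑ i ∈ Finset.range J, ((S.filter (fun k => f k = i)).card : ℝ)
      ≤ ∑ i ∈ Finset.range J, C * (1 + 2 / δ) * (Real.log a / K) := Finset.sum_le_sum hfib
    _ = J * (C * (1 + 2 / δ) * (Real.log a / K)) := by
        rw [Finset.sum_const, Finset.card_range, nsmul_eq_mul]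
    _ ≤ (3 * (K:ℝ) ^ ε) * (C * (1 + 2 / δ) * (Real.log a / K)) := by
        gcongr
    _ = (3 * (C * (1 + 2 / δ))) * ((K:ℝ) ^ ε * (Real.log a / K)) := by ring
    _ ≤ C2 * ((K:ℝ) ^ ε * (Real.log a / K)) := by gcongr

/-- Summation over dyadic blocks. -/
lemma dyadic_sum (S : Finset ℕ) {K1 : ℕ} {X : ℝ} (hK1 : 1 ≤ K1)
    (h : ∀ K, K1 ≤ K → ((S.filter (fun k => K ≤ k ∧ k < 2 * K)).card : ℝ) ≤ X / K) (J : ℕ) :
    ((S.filter (fun k => K1 ≤ k ∧ k < 2 ^ J * K1)).card : ℝ) ≤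
      2 * X / K1 * (1 - (1/2) ^ J) := by
  classical
  have hK1r : (0:ℝ) < K1 := by exact_mod_cast hK1
  induction J with
  | zero =>
    have : S.filter (fun k => K1 ≤ k ∧ k < 2 ^ 0 * K1) = ∅ := by
      apply Finset.filter_eq_empty_iff.2
      intro k _ hk
      simp at hk
      omega
    rw [this]; simp
  | succ J ih =>
    have hsub : S.filter (fun k => K1 ≤ k ∧ k < 2 ^ (J + 1) * K1) ⊆
        S.filter (fun k => K1 ≤ k ∧ k < 2 ^ J * K1) ∪
        S.filter (fun k => 2 ^ J * K1 ≤ k ∧ k < 2 * (2 ^ J * K1)) := by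
      intro k hk
      rw [Finset.mem_filter] at hk
      rw [Finset.mem_union, Finset.mem_filter, Finset.mem_filter]
      obtain ⟨a1, a2, a3⟩ := hk
      rcases lt_or_ge k (2 ^ J * K1) with g | g
      · exact Or.inl ⟨a1, a2, g⟩
      · refine Or.inr ⟨a1, g, ?_⟩
        rw [pow_succ] at a3
        linarith
    have h1 := (Finset.card_le_card hsub).trans (Finset.card_union_le _ _)
    have h2 : ((S.filter (fun k => K1 ≤ k ∧ k < 2 ^ (J + 1) * K1)).card : ℝ) ≤
        ((S.filter (fun k => K1 ≤ k ∧ k < 2 ^ J * K1)).card : ℝ) +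
        ((S.filter (fun k => 2 ^ J * K1 ≤ k ∧ k < 2 * (2 ^ J * K1))).card : ℝ) := by
      exact_mod_cast h1
    have h3 := h (2 ^ J * K1) (Nat.le_mul_of_pos_left _ (by positivity))
    refine h2.trans ((add_le_add ih h3).trans (le_of_eq ?_))
    push_cast
    have e : ((1:ℝ)/2) ^ J = 1 / 2 ^ J := by rw [one_div, inv_pow, one_div]
    rw [pow_succ, e]
    field_simp
    ring

end Pool.Helper53.SG
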