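import Mathlib

/-!
# An analytic function with values log k! at natural numbers
-/

namespace Pool.Helper53.SG

open Complex Metric Set Filter Topology

/-- the terms -/
noncomputable def lterm (j : ℕ) (z : ℂ) : ℂ :=
  z * (Real.log (1 + 1 / ((j:ℝ) + 1)) : ℝ) - Complex.log (1 + z / ((j:ℂ) + 1))

/-- analytic interpolation of log k! -/
noncomputable def lam (z : ℂ) : ℂ := ∑' j : ℕ, lterm j z

/-- the domain -/
def UK (K : ℝ) : Set ℂ := {z : ℂ | -(1/2) < z.re} ∩ ball 0 (2 * K)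

lemma UK_open (K : ℝ) : IsOpen (UK K) :=
  (isOpen_lt continuous_const Complex.continuous_re).inter isOpen_ball

lemma UK_convex (K : ℝ) : Convex ℝ (UK K) :=
  (convex_halfSpace_re_gt _).inter (convex_ball _ _)

lemma norm_add_ge {K : ℝ} {z : ℂ} (hz : z ∈ UK K) (j : ℕ) :
    ((j:ℝ) + 1) / 2 ≤ ‖(j:ℂ) + 1 + z‖ := by
  have h1 : -(1/2) < z.re := hz.1
  have h2 : ((j:ℂ) + 1 + z).re ≤ ‖(j:ℂ) + 1 + z‖ := Complex.re_le_norm _
  have h3 : ((j:ℂ) + 1 + z).re = (j:ℝ) + 1 + z.re := by simp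
  rw [h3] at h2
  have : (0:ℝ) ≤ j := Nat.cast_nonneg j
  linarith

lemma lterm_hasDerivAt {K : ℝ} {z : ℂ} (hz : z ∈ UK K) (j : ℕ) :
    HasDerivAt (lterm j) ((Real.log (1 + 1 / ((j:ℝ) + 1)) : ℝ) - 1 / ((j:ℂ) + 1 + z)) z := by
  have hj : ((j:ℂ) + 1) ≠ 0 := Nat.cast_add_one_ne_zero j
  have hjr : (0:ℝ) < (j:ℝ) + 1 := by positivity
  have hre : 0 < (1 + z / ((j:ℂ) + 1)).re := by
    have h1 : -(1/2) < z.re := hz.1
    have e : z / ((j:ℂ) + 1) = ((((j:ℝ) + 1)⁻¹ : ℝ) : ℂ) * z := by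
      push_cast; rw [div_eq_mul_inv, mul_comm]
    rw [add_re, one_re, e, re_ofReal_mul]
    have h2 : ((j:ℝ) + 1)⁻¹ ≤ 1 := by
      apply inv_le_one_of_one_le₀
      have : (0:ℝ) ≤ j := Nat.cast_nonneg j
      linarith
    have h3 : 0 < ((j:ℝ) + 1)⁻¹ := by positivity
    nlinarith
  have hslit : (1 + z / ((j:ℂ) + 1)) ∈ slitPlane := Or.inl hre
  have h1 : HasDerivAt (fun z : ℂ => 1 + z / ((j:ℂ) + 1)) (1 / ((j:ℂ) + 1)) z := by
    have := ((hasDerivAt_id z).div_const ((j:ℂ) + 1)).const_add 1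
    simpa using this
  have h2 := h1.clog hslit
  have h3 : HasDerivAt (fun z : ℂ => z * ((Real.log (1 + 1 / ((j:ℝ) + 1)) : ℝ) : ℂ))
      (Real.log (1 + 1 / ((j:ℝ) + 1)) : ℝ) z := by
    have := (hasDerivAt_id z).mul_const ((Real.log (1 + 1 / ((j:ℝ) + 1)) : ℝ) : ℂ)
    simpa using this
  have h4 := h3.sub h2
  have e1 : (1 + z / ((j:ℂ) + 1)) = ((j:ℂ) + 1 + z) / ((j:ℂ) + 1) := by
    field_simp
  have hne : (1 + z / ((j:ℂ) + 1)) ≠ 0 := slitPlane_ne_zero hslit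
  have hne2 : ((j:ℂ) + 1 + z) ≠ 0 := by
    intro h
    apply hne
    rw [e1, h, zero_div]
  have e2 : 1 / ((j:ℂ) + 1 + z) = 1 / ((j:ℂ) + 1) / (1 + z / ((j:ℂ) + 1)) := by
    rw [e1, div_div_div_cancel_right₀ hj]
  rw [e2]
  exact h4

lemma lterm_deriv_bound {K : ℝ} (hK : 1 ≤ K) {z : ℂ} (hz : z ∈ UK K) (j : ℕ) :
    ‖((Real.log (1 + 1 / ((j:ℝ) + 1)) : ℝ) : ℂ) - 1 / ((j:ℂ) + 1 + z)‖ ≤
      min (3 / ((j:ℝ) + 1)) (5 * K / ((j:ℝ) + 1) ^ 2) := by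
  have hjr : (0:ℝ) < (j:ℝ) + 1 := by positivity
  have hj1 : (1:ℝ) ≤ (j:ℝ) + 1 := by
    have : (0:ℝ) ≤ j := Nat.cast_nonneg j
    linarith
  have hnorm := norm_add_ge hz j
  have hpos : 0 < ‖(j:ℂ) + 1 + z‖ := by
    have : 0 < ((j:ℝ) + 1) / 2 := by positivity
    linarith
  have hlog0 : 0 ≤ Real.log (1 + 1 / ((j:ℝ) + 1)) := by
    apply Real.log_nonneg
    have : 0 < 1 / ((j:ℝ) + 1) := by positivity
    linarith
  have hlog1 : Real.log (1 + 1 / ((j:ℝ) + 1)) ≤ 1 / ((j:ℝ) + 1) := by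
    have := Real.log_le_sub_one_of_pos (x := 1 + 1 / ((j:ℝ) + 1)) (by positivity)
    linarith
  have hlog2 : 1 / ((j:ℝ) + 1) - 1 / ((j:ℝ) + 1) ^ 2 ≤ Real.log (1 + 1 / ((j:ℝ) + 1)) := by
    have := Real.one_sub_inv_le_log_of_pos (x := 1 + 1 / ((j:ℝ) + 1)) (by positivity)
    refine le_trans ?_ this
    have e : (1 + 1 / ((j:ℝ) + 1))⁻¹ = ((j:ℝ) + 1) / ((j:ℝ) + 2) := by
      field_simp; ring
    rw [e, ← sub_nonneg]
    have e2 : 1 - ((j:ℝ) + 1) / ((j:ℝ) + 2) - (1 / ((j:ℝ) + 1) - 1 / ((j:ℝ) + 1) ^ 2) =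
      1 / (((j:ℝ) + 2) * ((j:ℝ) + 1) ^ 2) := by
      field_simp; ring
    rw [e2]; positivity
  have hinv : ‖1 / ((j:ℂ) + 1 + z)‖ ≤ 2 / ((j:ℝ) + 1) := by
    rw [norm_div, norm_one]
    rw [div_le_div_iff₀ hpos hjr]
    linarith
  apply le_min
  · refine (norm_sub_le _ _).trans ?_
    rw [norm_real, Real.norm_eq_abs, abs_of_nonneg hlog0]
    have e : 3 / ((j:ℝ) + 1) = 1 / ((j:ℝ) + 1) + 2 / ((j:ℝ) + 1) := by ring
    rw [e]; exact add_le_add hlog1 hinv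
  · have hz2 : ‖z‖ < 2 * K := by
      have := hz.2; rwa [mem_ball, dist_zero_right] at this
    have hj : ((j:ℂ) + 1) ≠ 0 := Nat.cast_add_one_ne_zero j
    have hne2 : ((j:ℂ) + 1 + z) ≠ 0 := norm_pos_iff.1 hpos
    have e : ((Real.log (1 + 1 / ((j:ℝ) + 1)) : ℝ) : ℂ) - 1 / ((j:ℂ) + 1 + z) =
        ((Real.log (1 + 1 / ((j:ℝ) + 1)) - 1 / ((j:ℝ) + 1) : ℝ) : ℂ) +
          z / (((j:ℂ) + 1) * ((j:ℂ) + 1 + z)) := by
      push_cast
      field_simp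
      ring
    rw [e]
    refine (norm_add_le _ _).trans ?_
    rw [norm_real, Real.norm_eq_abs, abs_of_nonpos (by linarith), norm_div, norm_mul]
    have hjn : ‖(j:ℂ) + 1‖ = (j:ℝ) + 1 := by
      have : ((j:ℂ) + 1) = (((j:ℝ) + 1 : ℝ) : ℂ) := by push_cast; ring
      rw [this, norm_real, Real.norm_eq_abs, abs_of_pos hjr]
    rw [hjn]
    have h1 : ‖z‖ / (((j:ℝ) + 1) * ‖(j:ℂ) + 1 + z‖) ≤ 4 * K / ((j:ℝ) + 1) ^ 2 := by
      rw [div_le_div_iff₀ (by positivity) (by positivity)]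
      have h2 : ((j:ℝ) + 1) ^ 2 ≤ 2 * (((j:ℝ) + 1) * ‖(j:ℂ) + 1 + z‖) := by nlinarith
      have h3 : 0 ≤ ((j:ℝ) + 1) * ‖(j:ℂ) + 1 + z‖ := by positivity
      calc ‖z‖ * ((j:ℝ) + 1) ^ 2 ≤ (2 * K) * (2 * (((j:ℝ) + 1) * ‖(j:ℂ) + 1 + z‖)) := by gcongr
        _ = _ := by ring
    have h4 : 1 / ((j:ℝ) + 1) ^ 2 ≤ K / ((j:ℝ) + 1) ^ 2 := by gcongr
    have e3 : 5 * K / ((j:ℝ) + 1) ^ 2 = K / ((j:ℝ) + 1) ^ 2 + 4 * K / ((j:ℝ) + 1) ^ 2 := by ring
    rw [e3]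
    linarith

lemma lterm_lip {K : ℝ} (hK : 1 ≤ K) {z w : ℂ} (hz : z ∈ UK K) (hw : w ∈ UK K) (j : ℕ) :
    ‖lterm j z - lterm j w‖ ≤
      min (3 / ((j:ℝ) + 1)) (5 * K / ((j:ℝ) + 1) ^ 2) * ‖z - w‖ :=
  (UK_convex K).norm_image_sub_le_of_norm_hasDerivWithin_le
    (fun _ hx => (lterm_hasDerivAt hx j).hasDerivWithinAt)
    (fun _ hx => lterm_deriv_bound hK hx j) hw hz

lemma zero_mem_UK {K : ℝ} (hK : 1 ≤ K) : (0:ℂ) ∈ UK K :=
  ⟨by simp, by rw [mem_ball, dist_self]; linarith⟩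

lemma lterm_zero (j : ℕ) : lterm j 0 = 0 := by simp [lterm]

lemma summable_inv_sq : Summable (fun j : ℕ => 1 / ((j:ℝ) + 1) ^ 2) := by
  have := (summable_nat_add_iff 1).2 (Real.summable_one_div_nat_pow.2 (by norm_num : 1 < 2))
  simpa using this

lemma lterm_norm_le {K : ℝ} (hK : 1 ≤ K) {z : ℂ} (hz : z ∈ UK K) (j : ℕ) :
    ‖lterm j z‖ ≤ 10 * K ^ 2 * (1 / ((j:ℝ) + 1) ^ 2) := by
  have h1 := lterm_lip hK hz (zero_mem_UK hK) j
  rw [lterm_zero, sub_zero, sub_zero] at h1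
  have hz2 : ‖z‖ < 2 * K := by
    have := hz.2; rwa [mem_ball, dist_zero_right] at this
  calc ‖lterm j z‖ ≤ _ := h1
    _ ≤ (5 * K / ((j:ℝ) + 1) ^ 2) * (2 * K) := by
        have h0 : 0 ≤ 5 * K / ((j:ℝ) + 1) ^ 2 := by positivity
        exact mul_le_mul (min_le_right _ _) hz2.le (norm_nonneg _) h0
    _ = _ := by ring

lemma lterm_summable {K : ℝ} (hK : 1 ≤ K) {z : ℂ} (hz : z ∈ UK K) :
    Summable (fun j => lterm j z) :=
  Summable.of_norm_bounded (summable_inv_sq.mul_left (10 * K ^ 2)) (lterm_norm_le hK hz)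

lemma lam_differentiableOn {K : ℝ} (hK : 1 ≤ K) : DifferentiableOn ℂ lam (UK K) := by
  have := differentiableOn_tsum_of_summable_norm (F := lterm) (U := UK K)
    (summable_inv_sq.mul_left (10 * K ^ 2))
    (fun j z hz => (lterm_hasDerivAt hz j).differentiableAt.differentiableWithinAt) (UK_open K)
    (fun j z hz => lterm_norm_le hK hz j)
  exact this

/-- the sum of the Lipschitz constants -/
lemma sum_min_le (K : ℕ) (hK : 1 ≤ K) :
    ∑' j : ℕ, min (3 / ((j:ℝ) + 1)) (5 * K / ((j:ℝ) + 1) ^ 2) ≤ 8 + 3 * Real.log K ∧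
    Summable (fun j : ℕ => min (3 / ((j:ℝ) + 1)) (5 * K / ((j:ℝ) + 1) ^ 2)) := by
  have hsum : Summable (fun j : ℕ => min (3 / ((j:ℝ) + 1)) (5 * K / ((j:ℝ) + 1) ^ 2)) := by
    refine Summable.of_nonneg_of_le (fun j => ?_) (fun j => ?_)
      (summable_inv_sq.mul_left (5 * (K:ℝ)))
    · positivity
    · refine (min_le_right _ _).trans (le_of_eq ?_); ring
  refine ⟨?_, hsum⟩
  have hKr : (1:ℝ) ≤ K := by exact_mod_cast hK
  have hbound : ∀ N : ℕ, ∑ j ∈ Finset.range N,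
      min (3 / ((j:ℝ) + 1)) (5 * K / ((j:ℝ) + 1) ^ 2) ≤ 8 + 3 * Real.log K := by
    intro N
    have hnn : ∀ j : ℕ, 0 ≤ min (3 / ((j:ℝ) + 1)) (5 * K / ((j:ℝ) + 1) ^ 2) := by
      intro j; positivity
    have h1 : ∑ j ∈ Finset.range N, min (3 / ((j:ℝ) + 1)) (5 * K / ((j:ℝ) + 1) ^ 2) ≤
        ∑ j ∈ Finset.range (K + N), min (3 / ((j:ℝ) + 1)) (5 * K / ((j:ℝ) + 1) ^ 2) := by
      apply Finset.sum_le_sum_of_subset_of_nonneg
      · intro x hx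
        rw [Finset.mem_range] at hx ⊢; omega
      · intro j _ _; exact hnn j
    refine h1.trans ?_
    rw [Finset.sum_range_add]
    have hA : ∑ j ∈ Finset.range K, min (3 / ((j:ℝ) + 1)) (5 * K / ((j:ℝ) + 1) ^ 2) ≤
        3 * (1 + Real.log K) := by
      have h2 : ∑ j ∈ Finset.range K, min (3 / ((j:ℝ) + 1)) (5 * K / ((j:ℝ) + 1) ^ 2) ≤
          ∑ j ∈ Finset.range K, 3 * (1 / ((j:ℝ) + 1)) := by
        apply Finset.sum_le_sum
        intro j _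
        refine (min_le_left _ _).trans (le_of_eq ?_); ring
      refine h2.trans ?_
      rw [← Finset.mul_sum]
      have h3 := harmonic_le_one_add_log K
      have h4 : ((harmonic K : ℚ) : ℝ) = ∑ j ∈ Finset.range K, 1 / ((j:ℝ) + 1) := by
        simp [harmonic]
      rw [h4] at h3
      linarith
    have hB : ∀ N : ℕ, ∑ j ∈ Finset.range N,
        min (3 / (((K + j : ℕ):ℝ) + 1)) (5 * K / (((K + j : ℕ):ℝ) + 1) ^ 2) ≤
        5 * K * (1 / K - 1 / ((K:ℝ) + N)) := by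
      intro N
      induction N with
      | zero => simp
      | succ N ih =>
        rw [Finset.sum_range_succ]
        have h5 : min (3 / (((K + N : ℕ):ℝ) + 1)) (5 * K / (((K + N : ℕ):ℝ) + 1) ^ 2) ≤
            5 * K * (1 / ((K:ℝ) + N) - 1 / ((K:ℝ) + (N + 1 : ℕ))) := by
          refine (min_le_right _ _).trans ?_
          have hKN : (0:ℝ) < (K:ℝ) + N := by positivity
          have e : 1 / ((K:ℝ) + N) - 1 / ((K:ℝ) + (N + 1 : ℕ)) =
              1 / (((K:ℝ) + N) * ((K:ℝ) + N + 1)) := by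
            push_cast
            field_simp
            ring
          rw [e, div_eq_mul_one_div (5 * (K:ℝ))]
          gcongr
          push_cast
          nlinarith
        calc _ ≤ 5 * K * (1 / K - 1 / ((K:ℝ) + N)) +
              5 * K * (1 / ((K:ℝ) + N) - 1 / ((K:ℝ) + (N + 1 : ℕ))) := add_le_add ih h5
          _ = _ := by ring
    have hB2 := hB N
    have h6 : 5 * (K:ℝ) * (1 / K - 1 / ((K:ℝ) + N)) ≤ 5 := by
      have h7 : 0 ≤ 1 / ((K:ℝ) + N) := by positivity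
      have h8 : 5 * (K:ℝ) * (1 / K) = 5 := by field_simp
      nlinarith
    linarith
  exact hsum.tsum_le_of_sum_range_le hbound

lemma lam_lip {K : ℕ} (hK : 1 ≤ K) {z w : ℂ} (hz : z ∈ UK K) (hw : w ∈ UK K) :
    ‖lam z - lam w‖ ≤ (8 + 3 * Real.log K) * ‖z - w‖ := by
  have hKr : (1:ℝ) ≤ K := by exact_mod_cast hK
  obtain ⟨h1, h2⟩ := sum_min_le K hK
  have hs : Summable (fun j => ‖lterm j z - lterm j w‖) :=
    Summable.of_nonneg_of_le (fun _ => norm_nonneg _) (fun j => lterm_lip hKr hz hw j)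
      (h2.mul_right ‖z - w‖)
  rw [lam, lam, ← (lterm_summable hKr hz).tsum_sub (lterm_summable hKr hw)]
  calc ‖∑' j, (lterm j z - lterm j w)‖ ≤ ∑' j, ‖lterm j z - lterm j w‖ := norm_tsum_le_tsum_norm hs
    _ ≤ ∑' j : ℕ, min (3 / ((j:ℝ) + 1)) (5 * K / ((j:ℝ) + 1) ^ 2) * ‖z - w‖ :=
        hs.tsum_le_tsum (fun j => lterm_lip hKr hz hw j) (h2.mul_right ‖z - w‖)
    _ = (∑' j : ℕ, min (3 / ((j:ℝ) + 1)) (5 * K / ((j:ℝ) + 1) ^ 2)) * ‖z - w‖ := by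
        rw [tsum_mul_right]
    _ ≤ _ := by gcongr

lemma natCast_mem_UK {K : ℝ} {k : ℕ} (hk : (k:ℝ) < 2 * K) : (k:ℂ) ∈ UK K := by
  constructor
  · show -(1/2) < ((k:ℂ)).re
    rw [natCast_re]
    have : (0:ℝ) ≤ k := Nat.cast_nonneg k
    linarith
  · rw [mem_ball, dist_zero_right, norm_natCast]; exact hk

lemma lterm_nat_succ (j k : ℕ) : lterm j ((k + 1 : ℕ) : ℂ) - lterm j (k : ℂ) =
    ((Real.log (((j:ℝ) + 1 + k) / ((j:ℝ) + 1)) -
      Real.log ((((j + 1 : ℕ):ℝ) + 1 + k) / (((j + 1 : ℕ):ℝ) + 1)) : ℝ) : ℂ) := by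
  have hjr : (0:ℝ) < (j:ℝ) + 1 := by positivity
  have hlog : ∀ m : ℕ, Complex.log (1 + ((m:ℕ):ℂ) / ((j:ℂ) + 1)) =
      ((Real.log (1 + (m:ℝ) / ((j:ℝ) + 1)) : ℝ) : ℂ) := by
    intro m
    rw [Complex.ofReal_log (by positivity)]
    push_cast
    rfl
  rw [lterm, lterm, hlog, hlog]
  rw [← ofReal_natCast, ← ofReal_natCast]
  rw [← ofReal_mul, ← ofReal_mul, ← ofReal_sub, ← ofReal_sub, ← ofReal_sub]
  congr 1
  have h1 : Real.log (1 + 1 / ((j:ℝ) + 1)) = Real.log ((j:ℝ) + 2) - Real.log ((j:ℝ) + 1) := by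
    rw [← Real.log_div (by positivity) (by positivity)]
    congr 1; field_simp; ring
  have h2 : Real.log (1 + ((k + 1 : ℕ):ℝ) / ((j:ℝ) + 1)) =
      Real.log ((j:ℝ) + 2 + k) - Real.log ((j:ℝ) + 1) := by
    rw [← Real.log_div (by positivity) (by positivity)]
    congr 1; push_cast; field_simp; ring
  have h3 : Real.log (1 + (k:ℝ) / ((j:ℝ) + 1)) =
      Real.log ((j:ℝ) + 1 + k) - Real.log ((j:ℝ) + 1) := by
    rw [← Real.log_div (by positivity) (by positivity)]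
    congr 1; field_simp
  have h4 : Real.log (((j:ℝ) + 1 + k) / ((j:ℝ) + 1)) =
      Real.log ((j:ℝ) + 1 + k) - Real.log ((j:ℝ) + 1) :=
    Real.log_div (by positivity) (by positivity)
  have h5 : Real.log ((((j + 1 : ℕ):ℝ) + 1 + k) / (((j + 1 : ℕ):ℝ) + 1)) =
      Real.log ((j:ℝ) + 2 + k) - Real.log ((j:ℝ) + 2) := by
    rw [Real.log_div (by positivity) (by positivity)]
    push_cast
    congr 2 <;> ring
  rw [h1, h2, h3, h4, h5]
  push_cast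
  ring

lemma lam_nat_succ (k : ℕ) : lam ((k + 1 : ℕ) : ℂ) - lam (k : ℂ) =
    ((Real.log ((k:ℝ) + 1) : ℝ) : ℂ) := by
  have hK : (1:ℝ) ≤ (k:ℝ) + 1 := by
    have : (0:ℝ) ≤ k := Nat.cast_nonneg k
    linarith
  have m1 : ((k + 1 : ℕ) : ℂ) ∈ UK ((k:ℝ) + 1) := natCast_mem_UK (by push_cast; linarith)
  have m2 : ((k : ℕ) : ℂ) ∈ UK ((k:ℝ) + 1) := natCast_mem_UK (by push_cast; linarith)
  have s1 := lterm_summable hK m1
  have s2 := lterm_summable hK m2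
  rw [lam, lam, ← s1.tsum_sub s2]
  have hs := s1.sub s2
  set g : ℕ → ℝ := fun j => Real.log (((j:ℝ) + 1 + k) / ((j:ℝ) + 1)) with hg
  have hpart : ∀ N : ℕ, ∑ j ∈ Finset.range N, (lterm j ((k + 1 : ℕ) : ℂ) - lterm j (k : ℂ)) =
      ((g 0 - g N : ℝ) : ℂ) := by
    intro N
    rw [Finset.sum_congr rfl (fun j _ => lterm_nat_succ j k)]
    rw [← ofReal_sum]
    congr 1
    rw [← Finset.sum_range_sub' g N]
  have hlim := hs.hasSum.tendsto_sum_nat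
  simp only [hpart] at hlim
  have hgN : Tendsto g atTop (𝓝 0) := by
    have h1 : Tendsto (fun j : ℕ => 1 + (k:ℝ) * (1 / ((j:ℝ) + 1))) atTop (𝓝 (1 + k * 0)) :=
      (tendsto_one_div_add_atTop_nhds_zero_nat.const_mul (k:ℝ)).const_add 1
    rw [mul_zero, add_zero] at h1
    have h2 := h1.log (by norm_num)
    rw [Real.log_one] at h2
    refine h2.congr (fun j => ?_)
    rw [hg]; simp only
    congr 1
    field_simp
  have h3 : Tendsto (fun N => ((g 0 - g N : ℝ) : ℂ)) atTop (𝓝 (((g 0 - 0 : ℝ)) : ℂ)) := by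
    exact (Complex.continuous_ofReal.tendsto _).comp (hgN.const_sub (g 0))
  have h4 := tendsto_nhds_unique hlim h3
  rw [h4]
  congr 1
  rw [hg]; simp only
  rw [sub_zero]
  congr 1
  push_cast
  ring

theorem lam_nat (k : ℕ) : lam (k : ℂ) = ((Real.log (k.factorial : ℝ) : ℝ) : ℂ) := by
  induction k with
  | zero =>
    simp only [Nat.cast_zero, Nat.factorial_zero, Nat.cast_one, Real.log_one, ofReal_zero]
    rw [lam]
    simp [lterm_zero]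
  | succ k ih =>
    have h := lam_nat_succ k
    rw [ih] at h
    have h2 : Real.log (((k+1).factorial : ℕ) : ℝ) =
        Real.log ((k:ℝ) + 1) + Real.log (k.factorial : ℝ) := by
      rw [Nat.factorial_succ]
      push_cast
      rw [Real.log_mul (by positivity) (by positivity)]
    rw [h2, ofReal_add, ← h]
    ring

end Pool.Helper53.SG
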