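import Pool.Agent.Helper53.SG.Total

/-!
# Assembly: from a local bound near the diagonal to the bound for all representations
-/

namespace Pool.Helper53.SG

open Filter Topology

/-- `k` is the lower entry of a representation of `a` with `n ≤ k^2`. -/
def NSol (a k : ℕ) : Prop :=
  1 ≤ k ∧ ∃ n : ℕ, 2 * k ≤ n ∧ n ≤ k ^ 2 ∧ n.choose k = a

/-- From short intervals to dyadic blocks. -/
theorem near_block {ε C X : ℝ} (hε : 0 < ε) (hε1 : ε ≤ 1 / 2) (hC : 0 ≤ C)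
    (hloc : ∀ a k0 : ℕ, X ≤ k0 → NSol a k0 → ∀ S : Finset ℕ,
      (∀ k ∈ S, |(k:ℝ) - k0| ≤ (k0:ℝ) ^ (1 - ε) ∧ NSol a k) → (S.card : ℝ) ≤ C) :
    ∃ C2 : ℝ, 0 < C2 ∧ ∀ a K : ℕ, 1 ≤ K → Real.log a ≤ (K:ℝ) ^ 2 →
      ∀ S : Finset ℕ, (∀ k ∈ S, K ≤ k ∧ k < 2 * K ∧ NSol a k) →
        (S.card : ℝ) ≤ C2 * ((K:ℝ) ^ ε * (Real.log a / K)) := by
  classical
  obtain ⟨C2, hC2⟩ : ∃ C2 : ℝ, C2 = 6 * C + 2 * |X| + 1 := ⟨_, rfl⟩
  have hX0 := abs_nonneg X
  refine ⟨C2, by linarith, ?_⟩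
  intro a K hK _ S hS
  have hKr : (1:ℝ) ≤ K := by exact_mod_cast hK
  have hK0 : (0:ℝ) < K := by linarith
  have hKε : (1:ℝ) ≤ (K:ℝ) ^ ε := Real.one_le_rpow hKr hε.le
  rcases S.eq_empty_or_nonempty with hemp | hne
  · rw [hemp, Finset.card_empty]
    have : 0 ≤ Real.log a := Real.log_natCast_nonneg a
    have : 0 ≤ C2 := by linarith
    push_cast
    positivity
  obtain ⟨k1, hk1⟩ := hne
  obtain ⟨hk1a, hk1b, hk1c, n1, hn1, _, hn1a⟩ := hS k1 hk1
  have hAK : (1/2 : ℝ) ≤ Real.log a / K := by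
    rw [le_div_iff₀ hK0]
    have h1 := le_two_log hk1c hn1 hn1a
    have h2 : (K:ℝ) ≤ k1 := by exact_mod_cast hk1a
    linarith
  rcases lt_or_ge (K:ℝ) X with hKX | hKX
  · -- trivial bound
    have h1 : S.card ≤ K := by
      have : S ⊆ Finset.Ico K (2 * K) := by
        intro k hk
        rw [Finset.mem_Ico]
        exact ⟨(hS k hk).1, (hS k hk).2.1⟩
      have := Finset.card_le_card this
      rw [Nat.card_Ico] at this
      omega
    have h2 : (S.card : ℝ) ≤ K := by exact_mod_cast h1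
    have h3 : (1:ℝ) * (1/2) ≤ (K:ℝ) ^ ε * (Real.log a / K) := by gcongr
    have h4 : 2 * |X| ≤ C2 := by linarith
    have h5 : 2 * |X| * (1 * (1/2)) ≤ C2 * ((K:ℝ) ^ ε * (Real.log a / K)) := by
      apply mul_le_mul h4 h3 (by norm_num) (by linarith)
    have h6 := le_abs_self X
    linarith
  -- the interval length
  obtain ⟨H, hH⟩ : ∃ H : ℕ, H = ⌊(K:ℝ) ^ (1 - ε)⌋₊ := ⟨_, rfl⟩
  have hKe1 : (1:ℝ) ≤ (K:ℝ) ^ (1 - ε) := Real.one_le_rpow hKr (by linarith)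
  have hH1 : 1 ≤ H := by rw [hH]; exact Nat.one_le_floor_iff _ |>.2 hKe1
  have hHle : (H:ℝ) ≤ (K:ℝ) ^ (1 - ε) := by rw [hH]; exact Nat.floor_le (by linarith)
  have hHge : (K:ℝ) ^ (1 - ε) ≤ 2 * H := by
    have h1 : (K:ℝ) ^ (1 - ε) < H + 1 := by rw [hH]; exact Nat.lt_floor_add_one _
    have h2 : (1:ℝ) ≤ H := by exact_mod_cast hH1
    linarith
  have hHr : (0:ℝ) < H := by exact_mod_cast hH1
  obtain ⟨J, hJ⟩ : ∃ J : ℕ, J = K / H + 1 := ⟨_, rfl⟩
  have hJle : (J:ℝ) ≤ 3 * (K:ℝ) ^ ε := by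
    have h1 : ((K / H : ℕ) : ℝ) ≤ (K:ℝ) / H := Nat.cast_div_le
    have h2 : (K:ℝ) / H ≤ 2 * (K:ℝ) ^ ε := by
      rw [div_le_iff₀ hHr]
      have h3 : (K:ℝ) = (K:ℝ) ^ ε * (K:ℝ) ^ (1 - ε) := by
        rw [← Real.rpow_add hK0]; simp
      calc (K:ℝ) = (K:ℝ) ^ ε * (K:ℝ) ^ (1 - ε) := h3
        _ ≤ (K:ℝ) ^ ε * (2 * H) := by gcongr
        _ = _ := by ring
    rw [hJ]; push_cast; linarith
  set f : ℕ → ℕ := fun k => (k - K) / H with hf
  have hmaps : ∀ k ∈ S, f k ∈ Finset.range J := by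
    intro k hk
    rw [Finset.mem_range, hf, hJ]
    have h1 := (hS k hk).2.1
    have h2 : k - K ≤ K := by omega
    have h3 : (k - K) / H ≤ K / H := Nat.div_le_div_right h2
    show (k - K) / H < K / H + 1
    omega
  have hcard := Finset.card_eq_sum_card_fiberwise (f := f) (s := S) (t := Finset.range J) hmaps
  have hfib : ∀ i ∈ Finset.range J, ((S.filter (fun k => f k = i)).card : ℝ) ≤ C := by
    intro i _
    rcases (S.filter (fun k => f k = i)).eq_empty_or_nonempty with he | ⟨k0, hk0⟩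
    · rw [he, Finset.card_empty]
      push_cast; exact hC
    rw [Finset.mem_filter] at hk0
    obtain ⟨hk0S, hk0i⟩ := hk0
    obtain ⟨hk0a, hk0b, hk0c⟩ := hS k0 hk0S
    have hk0K : (K:ℝ) ≤ k0 := by exact_mod_cast hk0a
    refine hloc a k0 (by linarith) hk0c (S.filter (fun k => f k = i)) ?_
    intro k hk
    rw [Finset.mem_filter] at hk
    obtain ⟨hkS, hki⟩ := hk
    obtain ⟨hka, hkb, hkc⟩ := hS k hkS
    refine ⟨?_, hkc⟩
    have h1 : (k0:ℝ) ^ (1 - ε) ≥ (K:ℝ) ^ (1 - ε) := by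
      apply Real.rpow_le_rpow hK0.le hk0K (by linarith)
    refine le_trans ?_ (hHle.trans h1)
    have h2 : (k - K) / H = (k0 - K) / H := by
      have e1 : f k = f k0 := by rw [hki, hk0i]
      exact e1
    have h3 := Nat.div_add_mod (k - K) H
    have h4 := Nat.div_add_mod (k0 - K) H
    have h5 := Nat.mod_lt (k - K) hH1
    have h6 := Nat.mod_lt (k0 - K) hH1
    rw [h2] at h3
    have h7 : k ≤ k0 + H := by omega
    have h8 : k0 ≤ k + H := by omega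
    have h7' : (k:ℝ) ≤ k0 + H := by exact_mod_cast h7
    have h8' : (k0:ℝ) ≤ k + H := by exact_mod_cast h8
    rw [abs_le]
    constructor <;> linarith
  rw [hcard]
  push_cast
  calc ∑ i ∈ Finset.range J, ((S.filter (fun k => f k = i)).card : ℝ)
      ≤ ∑ i ∈ Finset.range J, C := Finset.sum_le_sum hfib
    _ = J * C := by
        rw [Finset.sum_const, Finset.card_range, nsmul_eq_mul]
    _ ≤ (3 * (K:ℝ) ^ ε) * C := by
        gcongr
    _ = (6 * C) * ((K:ℝ) ^ ε * (1 / 2)) := by ring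
    _ ≤ C2 * ((K:ℝ) ^ ε * (Real.log a / K)) := by
        apply mul_le_mul (by linarith) (by gcongr) (by positivity) (by linarith)

/-- The set of upper entries of the representations of `a`. -/
def reps (a : ℕ) : Set ℕ := {n : ℕ | ∃ k : ℕ, 1 ≤ k ∧ 2 * k ≤ n ∧ n.choose k = a}

/-- **Bound for all representations**, from the local bound near the diagonal. -/
theorem all_of_near {ε : ℝ} (hε : 0 < ε)
    (hloc : ∃ X C : ℝ, 0 ≤ C ∧ ∀ a k0 : ℕ, X ≤ k0 → NSol a k0 → ∀ S : Finset ℕ,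
      (∀ k ∈ S, |(k:ℝ) - k0| ≤ (k0:ℝ) ^ (1 - min ε (1 / 2)) ∧ NSol a k) → (S.card : ℝ) ≤ C) :
    ∃ C : ℝ, 0 < C ∧ ∀ a : ℕ, 2 ≤ a → (reps a).Finite ∧
      ((reps a).ncard : ℝ) ≤ C * (Real.log a) ^ (1 / 2 + ε) := by
  classical
  obtain ⟨X, C, hC, hloc⟩ := hloc
  have hε' : 0 < min ε (1/2) := lt_min hε (by norm_num)
  obtain ⟨C2, hC2, hb⟩ := near_block hε' (min_le_right _ _) hC hloc
  have h1 := assemble (P := NSol) hε' hC2 (by
    rintro a k ⟨hk, n, hn, _, hna⟩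
    exact le_two_log hk hn hna) hb
  obtain ⟨C3, hC3, h3⟩ := exponent_mono (e2 := 1 / 2 + ε) (by
    have := min_le_left ε (1/2)
    linarith) h1
  obtain ⟨C4, hC4, h4⟩ := total (δ := 1) one_pos hε
  refine ⟨C3 + C4, by positivity, fun a ha => ?_⟩
  refine ncard_le (a := a) (Q := fun k => NSol a k ∨ Sol 1 a k) ?_ ?_
  · rintro n ⟨k, hk, hn, hna⟩
    refine ⟨k, hk, by omega, hna, ?_⟩
    rcases le_total n (k ^ 2) with h | h
    · exact Or.inl ⟨hk, n, hn, h, hna⟩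
    · refine Or.inr ⟨hk, n, hn, ?_, hna⟩
      have h5 : (k:ℝ) ^ ((1:ℝ) + 1) = ((k ^ 2 : ℕ) : ℝ) := by
        rw [show (1:ℝ) + 1 = ((2 : ℕ) : ℝ) by norm_num, Real.rpow_natCast]
        push_cast; rfl
      rw [h5]
      exact_mod_cast h
  · intro S hS
    have h5 : S ⊆ S.filter (fun k => NSol a k) ∪ S.filter (fun k => Sol 1 a k) := by
      intro k hk
      rw [Finset.mem_union, Finset.mem_filter, Finset.mem_filter]
      rcases hS k hk with h | h
      · exact Or.inl ⟨hk, h⟩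
      · exact Or.inr ⟨hk, h⟩
    have h6 := (Finset.card_le_card h5).trans (Finset.card_union_le _ _)
    have h7 := h3 a ha (S.filter (fun k => NSol a k)) (fun k hk => (Finset.mem_filter.1 hk).2)
    have h8 := h4 a ha (S.filter (fun k => Sol 1 a k)) (fun k hk => (Finset.mem_filter.1 hk).2)
    have h9 : (S.card : ℝ) ≤ ((S.filter (fun k => NSol a k)).card : ℝ) +
        ((S.filter (fun k => Sol 1 a k)).card : ℝ) := by exact_mod_cast h6
    have e : (C3 + C4) * (Real.log a) ^ (1 / 2 + ε) = C3 * (Real.log a) ^ (1 / 2 + ε) +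
        C4 * (Real.log a) ^ (1 / 2 + ε) := by ring
    rw [e]
    linarith

end Pool.Helper53.SG
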