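import Pool.Agent.Helper53.SG.Near
import Pool.Agent.Helper53.SG.Chain
import Pool.Agent.Helper47.SG.Step

/-!
# The local bound near the diagonal, from the existence of chains
-/

namespace Pool.Helper53.SG

open Complex Metric Set Filter Topology
open Pool.Agent.Helper47.SG (rad Base FF psi rad_le rad_pos base_iff psi_inj lamR_nat Dom)

/-- Existence of chains of discs along the real curve, with gain `q Δ` in `log y`. -/
def ChainHyp : Prop := ∀ q D : ℕ, ∃ (m : ℕ) (Δ W X0 : ℝ), 16 ≤ Δ ∧ 1 ≤ W ∧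
  2 * q * W ^ D ≤ Real.exp (3 * Δ / 8) ∧
  ∀ x0 y0 α : ℝ, X0 ≤ x0 → 2 * x0 ≤ y0 → Base x0 y0 α →
    ∃ (x ρ t : ℕ → ℝ) (g : ℕ → ℂ → ℂ) (R : ℝ), x 0 = x0 ∧ ρ 0 = rad x0 y0 ∧
      t 0 = Real.log y0 ∧ (∀ i ≤ m, 0 < ρ i) ∧ (∀ i < m, ρ (i + 1) ≤ ρ i) ∧
      (∀ i < m, |x (i + 1) - x i| ≤ ρ i / 8) ∧
      (∀ i ≤ m, DifferentiableOn ℂ (g i) (ball (x i : ℂ) (ρ i))) ∧
      (∀ i ≤ m, ∀ z ∈ ball (x i : ℂ) (ρ i), ‖g i z - (t i : ℂ)‖ ≤ 1 / 2) ∧
      (∀ i < m, ∀ z ∈ ball (x i : ℂ) (ρ i) ∩ ball (x (i + 1) : ℂ) (ρ (i + 1)),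
        g (i + 1) z = g i z) ∧
      (∀ i < m, t i ≤ t (i + 1) ∧ t (i + 1) ≤ t i + 1) ∧ t 0 + q * Δ ≤ t m ∧
      (∀ i ≤ m, ∀ z ∈ ball (x i : ℂ) (ρ i), ‖z - (x 0 : ℂ)‖ ≤ R) ∧ 8 * R / ρ m ≤ W ∧
      (∀ z ∈ ball (x0 : ℂ) (rad x0 y0), ‖g 0 z - (Real.log y0 : ℂ)‖ ≤ 1 / 200 ∧
        FF α (g 0 z) z = 0 ∧ (z.im = 0 → (g 0 z).im = 0))

lemma base_choose {n k : ℕ} (hk : 1 ≤ k) (hn : 2 * k ≤ n) :
    Base (k:ℝ) (n:ℝ) (Real.log (n.choose k : ℝ)) := by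
  have hkr : (0:ℝ) < k := by exact_mod_cast hk
  have hkn : (k:ℝ) < n := by exact_mod_cast (by omega : k < n)
  rw [base_iff hkr hkn]
  unfold psi
  have e : (n:ℝ) - k = ((n - k : ℕ) : ℝ) := by
    rw [Nat.cast_sub (by omega)]
  rw [e, lamR_nat (by omega), lamR_nat hk, lamR_nat (by omega)]
  have h1 : n.choose k * k.factorial * (n - k).factorial = n.factorial :=
    Nat.choose_mul_factorial_mul_factorial (by omega)
  have h2 : ((n.choose k : ℕ) : ℝ) * k.factorial * (n - k).factorial = n.factorial := by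
    exact_mod_cast h1
  have hc : (0:ℝ) < (n.choose k : ℕ) := by exact_mod_cast Nat.choose_pos (by omega)
  have hf1 : (0:ℝ) < (k.factorial : ℕ) := by exact_mod_cast Nat.factorial_pos k
  have hf2 : (0:ℝ) < ((n - k).factorial : ℕ) := by exact_mod_cast Nat.factorial_pos _
  rw [← h2, Real.log_mul (by positivity) hf2.ne', Real.log_mul hc.ne' hf1.ne']
  ring

/-- The analytic solution passes through the integral points. -/
lemma through {x0 y0 α : ℝ} (hx0 : 1000 ≤ x0) (hy0 : 2 * x0 ≤ y0) {g0 : ℂ → ℂ}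
    (hg0 : ∀ z ∈ ball (x0 : ℂ) (rad x0 y0), ‖g0 z - (Real.log y0 : ℂ)‖ ≤ 1 / 200 ∧
        FF α (g0 z) z = 0 ∧ (z.im = 0 → (g0 z).im = 0)) {n k : ℕ} (hk : 1 ≤ k) (hn : 2 * k ≤ n)
    (hα : α = Real.log (n.choose k : ℝ)) (hkb : |(k:ℝ) - x0| < rad x0 y0) :
    Complex.exp (g0 ((k:ℝ):ℂ)) = (n : ℂ) := by
  have hx00 : 0 < x0 := by linarith
  have hmem : ((k:ℝ):ℂ) ∈ ball (x0 : ℂ) (rad x0 y0) := by
    rw [mem_ball, dist_eq_norm, ← Complex.ofReal_sub, Complex.norm_real, Real.norm_eq_abs]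
    exact hkb
  obtain ⟨g1, g2, g3⟩ := hg0 _ hmem
  have hdom : Dom x0 y0 (g0 ((k:ℝ):ℂ)) ((k:ℝ):ℂ) := by
    refine ⟨g1.trans (by norm_num), ?_⟩
    have := mem_ball.1 hmem
    rw [dist_eq_norm] at this
    exact this.le.trans (rad_le hx00 hy0)
  have e : g0 ((k:ℝ):ℂ) = ((g0 ((k:ℝ):ℂ)).re : ℂ) := by
    apply Complex.ext
    · rw [Complex.ofReal_re]
    · rw [Complex.ofReal_im]; exact g3 (Complex.ofReal_im k)
  have hkr : (0:ℝ) < k := by exact_mod_cast hk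
  have h2 := hdom.re_Yz hx00 hy0
  rw [e, ← Complex.ofReal_exp, ← Complex.ofReal_sub, Complex.ofReal_re] at h2
  have h3 : (k:ℝ) < Real.exp (g0 ((k:ℝ):ℂ)).re := by linarith
  have h4 : Base k (Real.exp (g0 ((k:ℝ):ℂ)).re) α := by
    unfold Base
    rw [Real.log_exp, ← e]
    exact g2
  have h5 := (base_iff hkr h3).1 h4
  have hkn : (k:ℝ) < n := by exact_mod_cast (by omega : k < n)
  have h6 := (base_iff hkr hkn).1 (base_choose hk hn)
  rw [← hα] at h6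
  have h7 := psi_inj hkr h3 hkn (h5.trans h6.symm)
  rw [e, ← Complex.ofReal_exp, h7]
  push_cast; rfl

/-- Smallness of the extrapolation quantity. -/
lemma near_hE {q Z1 : ℕ} {k0 ρ M T lk ε : ℝ} (hq : (1:ℝ) ≤ q) (hqε : 96 ≤ q * ε)
    (hlk : 0 < lk) (hexplk : Real.exp lk = k0) (hε : 0 < ε)
    (hρ : 0 < ρ) (hρk : ρ / 2 ≤ k0) (hM1 : 1 ≤ M) (hMρ : 8 * M / ρ ≤ Real.exp (-(ε / 2 * lk)))
    (hM16 : M ≤ ρ / 16) (hT : T + 1 / 2 ≤ 3 * lk) (hZ1 : ((q:ℝ) + 1) * q ≤ 4 * Z1)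
    (hbig : ((q + 1) * q : ℝ) ^ 2 ≤ Real.exp lk) :
    ((2 * M) / (ρ / 2 - M)) ^ Z1 * (((q + 1) * q) ^ 2 * (ρ / 2) ^ (2 * q) *
      (Real.exp (T + 1 / 2)) ^ (2 * q)) < 1 := by
  have hk0 : 0 < k0 := by rw [← hexplk]; exact Real.exp_pos _
  have h1 : (2 * M) / (ρ / 2 - M) ≤ Real.exp (-(ε / 2 * lk)) := by
    refine le_trans ?_ hMρ
    rw [div_le_div_iff₀ (by linarith) hρ]
    have h2 : ρ / 4 ≤ ρ / 2 - M := by linarith
    calc 2 * M * ρ = 8 * M * (ρ / 4) := by ring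
      _ ≤ 8 * M * (ρ / 2 - M) := by gcongr
  have h3 : ((2 * M) / (ρ / 2 - M)) ^ Z1 ≤ Real.exp (-(Z1 * (ε / 2 * lk))) := by
    calc ((2 * M) / (ρ / 2 - M)) ^ Z1 ≤ (Real.exp (-(ε / 2 * lk))) ^ Z1 :=
          pow_le_pow_left₀ (div_nonneg (by linarith) (by linarith)) h1 _
      _ = _ := by rw [← Real.exp_nat_mul]; congr 1; ring
  have h4 : (ρ / 2) ^ (2 * q) ≤ Real.exp (2 * q * lk) := by
    calc (ρ / 2) ^ (2 * q) ≤ (Real.exp lk) ^ (2 * q) := by rw [hexplk]; gcongr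
      _ = _ := by rw [← Real.exp_nat_mul]; congr 1; push_cast; ring
  have h5 : (Real.exp (T + 1 / 2)) ^ (2 * q) ≤ Real.exp (6 * q * lk) := by
    calc (Real.exp (T + 1 / 2)) ^ (2 * q) ≤ (Real.exp (3 * lk)) ^ (2 * q) := by gcongr
      _ = _ := by rw [← Real.exp_nat_mul]; congr 1; push_cast; ring
  calc ((2 * M) / (ρ / 2 - M)) ^ Z1 * (((q + 1) * q) ^ 2 * (ρ / 2) ^ (2 * q) *
      (Real.exp (T + 1 / 2)) ^ (2 * q))
      ≤ Real.exp (-(Z1 * (ε / 2 * lk))) * (Real.exp lk * Real.exp (2 * q * lk) *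
        Real.exp (6 * q * lk)) := by gcongr
    _ = Real.exp (-(Z1 * (ε / 2 * lk)) + (lk + 2 * q * lk + 6 * q * lk)) := by
        rw [← Real.exp_add, ← Real.exp_add, ← Real.exp_add]
    _ < 1 := by
        rw [Real.exp_lt_one_iff]
        have e1 : ((q:ℝ) + 1) * 96 ≤ ((q:ℝ) + 1) * (q * ε) := by gcongr
        have e2 : ((q:ℝ) + 1) * q * ε ≤ 4 * Z1 * ε := by gcongr
        have e3 : 12 * ((q:ℝ) + 1) ≤ Z1 * (ε / 2) := by
          have e4 : ((q:ℝ) + 1) * (q * ε) = ((q:ℝ) + 1) * q * ε := by ring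
          have e5 : 4 * (Z1:ℝ) * ε = 8 * (Z1 * (ε / 2)) := by ring
          linarith
        have e6 : 12 * ((q:ℝ) + 1) * lk ≤ Z1 * (ε / 2) * lk := by gcongr
        have e7 : 0 < q * lk := by positivity
        have e8 : 12 * ((q:ℝ) + 1) * lk = 12 * (q * lk) + 12 * lk := by ring
        have e9 : (Z1:ℝ) * (ε / 2) * lk = Z1 * (ε / 2 * lk) := by ring
        have e10 : 2 * (q:ℝ) * lk = 2 * (q * lk) := by ring
        have e11 : 6 * (q:ℝ) * lk = 6 * (q * lk) := by ring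
        rw [e8, e9] at e6
        rw [e10, e11]
        linarith

theorem near_of_chain (hch : ChainHyp) {ε : ℝ} (hε : 0 < ε) (hε1 : ε ≤ 1 / 2) :
    ∃ X C : ℝ, 0 ≤ C ∧ ∀ a k0 : ℕ, X ≤ k0 → NSol a k0 → ∀ S : Finset ℕ,
      (∀ k ∈ S, |(k:ℝ) - k0| ≤ (k0:ℝ) ^ (1 - ε) ∧ NSol a k) → (S.card : ℝ) ≤ C := by
  classical
  obtain ⟨q, hq⟩ : ∃ q : ℕ, q = ⌈96 / ε⌉₊ := ⟨_, rfl⟩
  have hqε : 96 ≤ q * ε := by
    have h1 := Nat.le_ceil (96 / ε)
    rw [div_le_iff₀ hε, ← hq] at h1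
    exact h1
  have hq1r : (1:ℝ) ≤ q := by
    have : (q:ℝ) * ε ≤ q * 1 := by gcongr; linarith
    linarith
  have hq1 : 1 ≤ q := by exact_mod_cast hq1r
  obtain ⟨m, Δ, W, X0, hΔ, hW1, hdom, hch⟩ := hch q q
  obtain ⟨Z1, hZ1⟩ : ∃ Z1 : ℕ, Z1 = ((q + 1) * q) / 2 := ⟨_, rfl⟩
  have hq2 : 2 ≤ (q + 1) * q := by
    calc 2 = (1 + 1) * 1 := by norm_num
      _ ≤ (q + 1) * q := by gcongr
  have hZ1pos : 0 < Z1 := by rw [hZ1]; exact Nat.div_pos hq2 (by norm_num)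
  have hZ12 : 2 * Z1 ≤ (q + 1) * q := by rw [hZ1]; exact Nat.mul_div_le _ _
  have hZ1low : ((q:ℝ) + 1) * q ≤ 4 * Z1 := by
    have h1 : (q + 1) * q < 2 * Z1 + 2 := by
      have := Nat.lt_mul_div_succ ((q+1)*q) (show 0 < 2 by norm_num)
      omega
    have h2 : (q + 1) * q ≤ 4 * Z1 := by omega
    have : (((q + 1) * q : ℕ) : ℝ) ≤ ((4 * Z1 : ℕ) : ℝ) := by exact_mod_cast h2
    push_cast at this; exact this
  -- large `x`
  have hev : ∀ᶠ x : ℝ in atTop, 3200 * (1 + Real.log x) ≤ x ^ (ε / 2) ∧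
      ((q + 1) * q : ℝ) ^ 2 ≤ x ∧ 2 ≤ Real.log x ∧ 6400 * (1 + Real.log x) ≤ x ^ ε := by
    have h1 := Real.tendsto_log_atTop
    have h2 := (isLittleO_log_rpow_atTop (r := ε / 2) (by positivity)).bound (c := 1 / 12800)
      (by norm_num)
    have h3 : ∀ᶠ x : ℝ in atTop, 12800 ≤ x ^ (ε / 2) :=
      (tendsto_rpow_atTop (by positivity)).eventually_ge_atTop _
    filter_upwards [h1.eventually_ge_atTop 2, h2, h3, eventually_ge_atTop (1:ℝ),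
      eventually_ge_atTop (((q + 1) * q : ℝ) ^ 2)] with x g1 g2 g3 g4 g5
    have hx0 : 0 < x := by linarith
    rw [Real.norm_eq_abs, Real.norm_eq_abs, abs_of_nonneg (by linarith),
      abs_of_nonneg (by positivity)] at g2
    have hA : 6400 * (1 + Real.log x) ≤ x ^ (ε / 2) := by linarith
    refine ⟨by linarith, g5, g1, hA.trans ?_⟩
    apply Real.rpow_le_rpow_of_exponent_le g4 (by linarith)
  obtain ⟨X1, hX1⟩ := Filter.eventually_atTop.1 hev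
  have hRHS0 : 0 ≤ 2 ^ m * (Real.log (32 * q * W ^ q) + q * (m + 3)) := by
    have h1 : (1:ℝ) ≤ W ^ q := one_le_pow₀ hW1
    have h2 : 0 ≤ Real.log (32 * q * W ^ q) := by
      apply Real.log_nonneg
      have h3 : (1:ℝ) * 1 ≤ q * W ^ q := by gcongr
      have e : 32 * (q:ℝ) * W ^ q = 32 * (q * W ^ q) := by ring
      rw [e]; linarith
    positivity
  refine ⟨|X0| + |X1| + 1000, Z1 + 2 * (2 ^ m * (Real.log (32 * q * W ^ q) + q * (m + 3))),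
    by positivity, ?_⟩
  intro a k0 hXk0 hsol S hS
  have aX0 := abs_nonneg X0
  have aX1 := abs_nonneg X1
  have lX0 := le_abs_self X0
  have lX1 := le_abs_self X1
  obtain ⟨hk1, n0, hn2, hn3, hn4⟩ := hsol
  have hk0r : (0:ℝ) < k0 := by exact_mod_cast hk1
  obtain ⟨b1, b2, b3, b4⟩ := hX1 (k0:ℝ) (by linarith)
  have hk01 : (1:ℝ) ≤ k0 := by linarith
  have hn0r : (0:ℝ) < n0 := by exact_mod_cast (by omega : 0 < n0)
  have hn2r : 2 * (k0:ℝ) ≤ n0 := by exact_mod_cast hn2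
  have hn3r : (n0:ℝ) ≤ (k0:ℝ) ^ 2 := by exact_mod_cast hn3
  have hbase := base_choose hk1 hn2
  rw [hn4] at hbase
  obtain ⟨x, ρ, t, g, R, c1, c2, c3, c4, c5, c6, c7, c8, c9, c10, c11, c12, c13, c14⟩ :=
    hch (k0:ℝ) (n0:ℝ) (Real.log a) (by linarith) hn2r hbase
  -- the radius
  obtain ⟨lk, hlk⟩ : ∃ lk : ℝ, lk = Real.log k0 := ⟨_, rfl⟩
  rw [← hlk] at b1 b3 b4
  have hexplk : Real.exp lk = k0 := by rw [hlk]; exact Real.exp_log hk0r
  have hlogn : Real.log n0 ≤ 2 * lk := by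
    have := Real.log_le_log hn0r hn3r
    rw [Real.log_pow] at this
    rw [hlk]; push_cast at this; exact this
  have hratio : Real.log (n0 / k0) ≤ lk := by
    rw [Real.log_div hn0r.ne' hk0r.ne', ← hlk]; linarith
  have hratio0 : 0 ≤ Real.log (n0 / k0) := by
    apply Real.log_nonneg
    rw [le_div_iff₀ hk0r]; linarith
  have hρ0 : 0 < ρ 0 := c4 0 (Nat.zero_le _)
  have hρlow : k0 / (400 * (1 + lk)) ≤ ρ 0 := by
    rw [c2]; unfold rad; gcongr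
  have hρup : ρ 0 / 2 ≤ k0 := by
    have := rad_le hk0r hn2r
    rw [c2]; linarith
  -- M
  obtain ⟨M, hM⟩ : ∃ M : ℝ, M = (k0:ℝ) ^ (1 - ε) := ⟨_, rfl⟩
  have hM1 : 1 ≤ M := by rw [hM]; exact Real.one_le_rpow hk01 (by linarith)
  have hMk : M * (k0:ℝ) ^ ε = k0 := by
    rw [hM, ← Real.rpow_add hk0r]; simp
  have hkε : 0 < (k0:ℝ) ^ ε := Real.rpow_pos_of_pos hk0r _
  have hM16 : M ≤ ρ 0 / 16 := by
    have h1 : M * (6400 * (1 + lk)) ≤ k0 := by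
      calc M * (6400 * (1 + lk)) ≤ M * (k0:ℝ) ^ ε := by gcongr
        _ = k0 := hMk
    have h2 : M ≤ k0 / (400 * (1 + lk)) / 16 := by
      rw [div_div, le_div_iff₀ (by positivity)]
      linarith
    linarith
  have hyexp : (k0:ℝ) ^ (ε / 2) = Real.exp (ε / 2 * lk) := by
    rw [Real.rpow_def_of_pos hk0r, ← hlk]; congr 1; ring
  have hy2 : (k0:ℝ) ^ ε = (k0:ℝ) ^ (ε / 2) * (k0:ℝ) ^ (ε / 2) := by
    rw [← Real.rpow_add hk0r]; congr 1; ring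
  have hMρ : 8 * M / ρ 0 ≤ Real.exp (-(ε / 2 * lk)) := by
    rw [div_le_iff₀ hρ0, Real.exp_neg, ← hyexp]
    have hy0 : 0 < (k0:ℝ) ^ (ε / 2) := Real.rpow_pos_of_pos hk0r _
    rw [← div_eq_inv_mul, le_div_iff₀ hy0]
    have h1 : 8 * M * (k0:ℝ) ^ (ε / 2) ≤ k0 / (400 * (1 + lk)) := by
      rw [le_div_iff₀ (by positivity)]
      calc 8 * M * (k0:ℝ) ^ (ε / 2) * (400 * (1 + lk)) =
            M * (k0:ℝ) ^ (ε / 2) * (3200 * (1 + lk)) := by ring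
        _ ≤ M * (k0:ℝ) ^ (ε / 2) * (k0:ℝ) ^ (ε / 2) := by gcongr
        _ = M * (k0:ℝ) ^ ε := by rw [hy2]; ring
        _ = k0 := hMk
    exact h1.trans hρlow
  have hE := near_hE (q := q) (Z1 := Z1) (T := t 0) hq1r hqε (by linarith) hexplk hε hρ0 hρup hM1
    hMρ hM16 (by rw [c3]; linarith) hZ1low (by rw [hexplk]; exact b2)
  -- the points
  have hex : ∀ k : ℤ, ∃ nk : ℤ, ∀ k' ∈ S, (k':ℤ) = k →
      ∃ n : ℕ, nk = n ∧ 1 ≤ k' ∧ 2 * k' ≤ n ∧ n.choose k' = a := by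
    intro k
    by_cases hk : ∃ k' ∈ S, (k':ℤ) = k
    · obtain ⟨k', hk', rfl⟩ := hk
      obtain ⟨h1, n, h2, _, h3⟩ := (hS k' hk').2
      refine ⟨n, fun k'' hk'' he => ?_⟩
      have : k'' = k' := by exact_mod_cast he
      subst this
      exact ⟨n, rfl, h1, h2, h3⟩
    · push Not at hk
      exact ⟨0, fun k' hk' he => absurd he (hk k' hk')⟩
  choose nn hnn using hex
  obtain ⟨T, hT⟩ : ∃ T : Finset ℤ, T = S.image (fun k : ℕ => (k:ℤ)) := ⟨_, rfl⟩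
  have hTc : T.card = S.card := by
    rw [hT, Finset.card_image_of_injective _ Nat.cast_injective]
  have hTS : ∀ k ∈ T, |(k:ℝ) - ((k0:ℤ):ℝ)| ≤ M ∧
      Complex.exp (g 0 ((k:ℝ):ℂ)) = ((nn k : ℤ) : ℂ) := by
    intro k hk
    rw [hT, Finset.mem_image] at hk
    obtain ⟨k', hk', rfl⟩ := hk
    obtain ⟨n, hn1, hk1', hn2', hn3'⟩ := hnn (k':ℤ) k' hk' rfl
    have hM' := (hS k' hk').1
    rw [← hM] at hM'
    refine ⟨by push_cast; exact hM', ?_⟩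
    have hcast : (((k':ℤ):ℝ):ℂ) = ((k':ℝ):ℂ) := by push_cast; rfl
    have hcast2 : ((nn (k':ℤ) : ℤ) : ℂ) = (n:ℂ) := by rw [hn1]; push_cast; rfl
    rw [hcast, hcast2]
    refine through (x0 := (k0:ℝ)) (y0 := (n0:ℝ)) (by linarith) hn2r c14 hk1' hn2'
      (by rw [hn3']) ?_
    rw [← c2]
    linarith
  have hmain := near_local (k0 := (k0:ℤ)) (M := M) (by rw [c1]; push_cast; rfl) c4 c5 c6 c7 c8 c9
    c10 c11 c12 hΔ (by
      have hρm := c4 m le_rfl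
      have hR0 : 0 ≤ R := (norm_nonneg _).trans (c12 0 (Nat.zero_le _) (x 0 : ℂ)
        (mem_ball_self (c4 0 (Nat.zero_le _))))
      refine le_trans ?_ hdom
      gcongr) hM1 hM16 (by rw [c3]; have := Real.log_nonneg (show (1:ℝ) ≤ n0 by linarith); linarith)
    hZ1pos hZ12 hE T nn hTS
  rw [hTc] at hmain
  rcases hmain with h | h
  · have h1 : (S.card : ℝ) ≤ Z1 := by exact_mod_cast h.le
    linarith
  · have hρm := c4 m le_rfl
    have hR0 : 0 < R := by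
      have h1 := c12 0 (Nat.zero_le _) ((x 0 : ℂ) + ((ρ 0 / 2 : ℝ) : ℂ)) (by
        rw [mem_ball, dist_eq_norm, add_sub_cancel_left, norm_real, Real.norm_eq_abs,
          abs_of_pos (by linarith)]
        linarith)
      rw [add_sub_cancel_left, norm_real, Real.norm_eq_abs, abs_of_pos (by linarith)] at h1
      linarith
    have h2 : Real.log (32 * q * (8 * R / ρ m) ^ q) ≤ Real.log (32 * q * W ^ q) := by
      apply Real.log_le_log (by positivity)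
      gcongr
    have h3 := Real.log_two_gt_d9
    have h4 : (S.card : ℝ) * (1 / 2) ≤ S.card * Real.log 2 := by gcongr; linarith
    have h5 : 2 ^ m * (Real.log (32 * q * (8 * R / ρ m) ^ q) + q * (m + 3)) ≤
        2 ^ m * (Real.log (32 * q * W ^ q) + q * (m + 3)) := by gcongr
    have h6 : (0:ℝ) ≤ Z1 := Nat.cast_nonneg Z1
    linarith

/-- The final theorem from the existence of chains. -/
theorem all_of_chain (hch : ChainHyp) {ε : ℝ} (hε : 0 < ε) :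
    ∃ C : ℝ, 0 < C ∧ ∀ a : ℕ, 2 ≤ a → (reps a).Finite ∧
      ((reps a).ncard : ℝ) ≤ C * (Real.log a) ^ (1 / 2 + ε) :=
  all_of_near hε (near_of_chain hch (lt_min hε (by norm_num)) (min_le_right _ _))

end Pool.Helper53.SG
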