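import Pool.Agent.Helper53.SG.Core

/-!
# Numerical lemmas for the choice of the constants
-/

namespace Pool.Helper53.SG

open Complex Metric Set Filter Topology

/-- Choice of the degree `D` and of the scale `h`. -/
theorem num_Dh {q Ch L lk k0 c : ℝ} (hq : 48 ≤ q) (hCh : 1 ≤ Ch) (hc : 0 < c)
    (hlk : 8 ≤ lk) (hlkL : lk ≤ L) (hk0 : 0 < k0) (hlkk : lk ≤ k0)
    (hb : 156 * (Ch * (3 * q + 1) + 1) ≤ lk * c) :
    ∃ D h : ℕ, 1 ≤ D ∧ 1 ≤ h ∧ 3 * q * L ≤ D * lk ∧ D * lk ≤ 3 * q * L + lk ∧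
      Ch * D ≤ h * L / k0 ∧ h * L ≤ Ch * D * k0 + L ∧ 3 * k0 / lk ≤ h ∧
      12 * (h:ℝ) < c / 13 * k0 := by
  have hL0 : 0 < L := by linarith
  have hlk0 : 0 < lk := by linarith
  have hq0 : 0 < q := by linarith
  have hCh0 : 0 < Ch := by linarith
  obtain ⟨D, hD1, hD2⟩ : ∃ D : ℕ, 3 * q * L / lk ≤ D ∧ (D:ℝ) < 3 * q * L / lk + 1 :=
    ⟨⌈3 * q * L / lk⌉₊, Nat.le_ceil _, Nat.ceil_lt_add_one (by positivity)⟩
  have hDpos : 1 ≤ D := by
    have : (0:ℝ) < D := lt_of_lt_of_le (by positivity) hD1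
    exact_mod_cast this
  have hDr : (1:ℝ) ≤ D := by exact_mod_cast hDpos
  have hDr0 : (0:ℝ) < D := by linarith
  obtain ⟨h, hh1, hh2⟩ : ∃ h : ℕ, Ch * D * k0 / L ≤ h ∧ (h:ℝ) < Ch * D * k0 / L + 1 :=
    ⟨⌈Ch * D * k0 / L⌉₊, Nat.le_ceil _, Nat.ceil_lt_add_one (by positivity)⟩
  have hhpos : 1 ≤ h := by
    have : (0:ℝ) < h := lt_of_lt_of_le (by positivity) hh1
    exact_mod_cast this
  have hDlk : 3 * q * L ≤ D * lk := by rwa [div_le_iff₀ hlk0] at hD1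
  have hDlk2 : D * lk ≤ 3 * q * L + lk := by
    have h3 : (D:ℝ) * lk ≤ (3 * q * L / lk + 1) * lk := by gcongr
    have h4 : (3 * q * L / lk + 1) * lk = 3 * q * L + lk := by field_simp
    linarith
  have hhL : Ch * D ≤ h * L / k0 := by
    rw [le_div_iff₀ hk0]
    rw [div_le_iff₀ hL0] at hh1
    exact hh1
  have hhL2 : h * L ≤ Ch * D * k0 + L := by
    have h1 : (h:ℝ) * L ≤ (Ch * D * k0 / L + 1) * L := by gcongr
    have h2 : (Ch * D * k0 / L + 1) * L = Ch * D * k0 + L := by field_simp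
    linarith
  have hhk : 3 * k0 / lk ≤ h := by
    refine le_trans ?_ hh1
    rw [div_le_div_iff₀ hlk0 hL0]
    have h1 : 3 * L ≤ 3 * q * L := by
      have : 3 * L * 1 ≤ 3 * L * q := by gcongr; linarith
      linarith
    have h2 : D * lk ≤ Ch * (D * lk) := by
      have : 1 * (D * lk) ≤ Ch * (D * lk) := by gcongr
      linarith
    have h3 : 3 * L ≤ Ch * (D * lk) := by linarith
    calc 3 * k0 * L = k0 * (3 * L) := by ring
      _ ≤ k0 * (Ch * (D * lk)) := by gcongr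
      _ = _ := by ring
  have hh12 : 12 * (h:ℝ) < c / 13 * k0 := by
    have h1 : Ch * D * k0 / L ≤ Ch * (3 * q + 1) * (k0 / lk) := by
      rw [← mul_div_assoc, div_le_div_iff₀ hL0 hlk0]
      have h2 : D * lk ≤ (3 * q + 1) * L := by linarith
      calc Ch * D * k0 * lk = Ch * k0 * (D * lk) := by ring
        _ ≤ Ch * k0 * ((3 * q + 1) * L) := by gcongr
        _ = _ := by ring
    have h5 : (1:ℝ) ≤ k0 / lk := by rw [le_div_iff₀ hlk0]; linarith
    have h6 : 12 * (h:ℝ) < 12 * ((Ch * (3 * q + 1) + 1) * (k0 / lk)) := by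
      have e : (Ch * (3 * q + 1) + 1) * (k0 / lk) = Ch * (3 * q + 1) * (k0 / lk) + k0 / lk := by
        ring
      rw [e]; linarith
    refine h6.trans_le ?_
    have h8 : 12 * ((Ch * (3 * q + 1) + 1) * (k0 / lk)) =
        (156 * (Ch * (3 * q + 1) + 1)) * (k0 / (13 * lk)) := by
      field_simp; ring
    rw [h8]
    calc (156 * (Ch * (3 * q + 1) + 1)) * (k0 / (13 * lk)) ≤ (lk * c) * (k0 / (13 * lk)) := by
          gcongr
      _ = _ := by field_simp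
  exact ⟨D, h, hDpos, hhpos, hDlk, hDlk2, hhL, hhL2, hhk, hh12⟩

/-- The extrapolation inequality. -/
theorem num_hE {q D h Z1 : ℕ} {k0 lk L ε M y : ℝ} (hq : (48:ℝ) ≤ q) (hqε : 48 ≤ q * ε)
    (hlk8 : 8 ≤ lk) (hexplk : Real.exp lk = k0)
    (hy : y = Real.exp (ε / 2 * lk)) (hly : lk ≤ y) (hM : M = k0 / y ^ 2) (hM0 : 0 < M)
    (hDlk : 3 * q * L ≤ D * lk) (hhk : 3 * k0 / lk ≤ h) (hh12 : 12 * (h:ℝ) ≤ k0) (hh1 : 1 ≤ h)
    (hMh : M ≤ h) (hZ1 : ((D:ℝ) + 1) * q ≤ 4 * Z1) (hlq : Real.log q ≤ lk) (hL : 0 < L) :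
    ((2 * M) / (12 * h - M)) ^ Z1 *
      (((D + 1) * q) ^ 2 * (12 * (h:ℝ)) ^ (2 * D) * (Real.exp (3 * L)) ^ (2 * q)) < 1 := by
  have hk0 : 0 < k0 := by rw [← hexplk]; exact Real.exp_pos _
  have hy0 : 0 < y := by rw [hy]; exact Real.exp_pos _
  have hq0 : (0:ℝ) < q := by linarith
  have hhr : (1:ℝ) ≤ h := by exact_mod_cast hh1
  have h10 : 10 * (h:ℝ) ≤ 12 * h - M := by linarith
  have h1 : (2 * M) / (12 * h - M) ≤ y⁻¹ := by
    have h2 : 3 * k0 / y ≤ h := by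
      refine le_trans ?_ hhk
      gcongr
    rw [div_le_iff₀ (by linarith)]
    have h3 : 10 * (3 * k0 / y) ≤ 12 * h - M := by linarith
    calc 2 * M = 2 * (k0 / y ^ 2) := by rw [hM]
      _ ≤ y⁻¹ * (10 * (3 * k0 / y)) := by
          have : y⁻¹ * (10 * (3 * k0 / y)) = 30 * (k0 / y ^ 2) := by
            field_simp; norm_num
          rw [this]
          have : 0 ≤ k0 / y ^ 2 := by positivity
          linarith
      _ ≤ _ := by gcongr
  have h4 : ((2 * M) / (12 * h - M)) ^ Z1 ≤ Real.exp (-(Z1 * (ε / 2 * lk))) := by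
    calc ((2 * M) / (12 * h - M)) ^ Z1 ≤ (y⁻¹) ^ Z1 :=
          pow_le_pow_left₀ (div_nonneg (by linarith) (by linarith)) h1 _
      _ = _ := by
          rw [hy, ← Real.exp_neg, ← Real.exp_nat_mul]; congr 1; ring
  have h5 : (12 * (h:ℝ)) ^ (2 * D) ≤ Real.exp (2 * D * lk) := by
    calc (12 * (h:ℝ)) ^ (2 * D) ≤ (Real.exp lk) ^ (2 * D) := by rw [hexplk]; gcongr
      _ = _ := by rw [← Real.exp_nat_mul]; congr 1; push_cast; ring
  have h6 : (Real.exp (3 * L)) ^ (2 * q) = Real.exp (6 * q * L) := by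
    rw [← Real.exp_nat_mul]; congr 1; push_cast; ring
  have h7 : (((D:ℝ) + 1) * q) ^ 2 ≤ Real.exp (2 * D + 2 * lk) := by
    have h8 : (D:ℝ) + 1 ≤ Real.exp D := Real.add_one_le_exp _
    have h9 : (q:ℝ) ≤ Real.exp lk := by
      rw [← Real.log_le_iff_le_exp hq0]; exact hlq
    calc (((D:ℝ) + 1) * q) ^ 2 ≤ (Real.exp D * Real.exp lk) ^ 2 := by gcongr
      _ = _ := by rw [← Real.exp_add, ← Real.exp_nat_mul]; congr 1; push_cast; ring
  have hD0 : (0:ℝ) ≤ D := Nat.cast_nonneg D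
  calc ((2 * M) / (12 * h - M)) ^ Z1 *
        (((D + 1) * q) ^ 2 * (12 * (h:ℝ)) ^ (2 * D) * (Real.exp (3 * L)) ^ (2 * q))
      ≤ Real.exp (-(Z1 * (ε / 2 * lk))) *
        (Real.exp (2 * D + 2 * lk) * Real.exp (2 * D * lk) * Real.exp (6 * q * L)) := by
        rw [h6]
        gcongr
    _ = Real.exp (-(Z1 * (ε / 2 * lk)) + (2 * D + 2 * lk + 2 * D * lk + 6 * q * L)) := by
        rw [← Real.exp_add, ← Real.exp_add, ← Real.exp_add]
    _ < 1 := by
        rw [Real.exp_lt_one_iff]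
        have hε0 : 0 < ε := by
          by_contra hcon
          push Not at hcon
          have : (q:ℝ) * ε ≤ 0 := mul_nonpos_of_nonneg_of_nonpos hq0.le hcon
          linarith
        have h11 : 6 * ((D:ℝ) + 1) ≤ Z1 * (ε / 2) := by
          have e1 : ((D:ℝ) + 1) * 48 ≤ ((D:ℝ) + 1) * (q * ε) := by gcongr
          have e2 : ((D:ℝ) + 1) * q * ε ≤ 4 * Z1 * ε := by gcongr
          have e3 : ((D:ℝ) + 1) * (q * ε) = ((D:ℝ) + 1) * q * ε := by ring
          have e4 : 4 * (Z1:ℝ) * ε = 8 * (Z1 * (ε / 2)) := by ring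
          linarith
        have h12 : 6 * ((D:ℝ) + 1) * lk ≤ Z1 * (ε / 2) * lk := by gcongr
        have e5 : 6 * ((D:ℝ) + 1) * lk = 6 * (D * lk) + 6 * lk := by ring
        have e6 : (Z1:ℝ) * (ε / 2) * lk = Z1 * (ε / 2 * lk) := by ring
        have e7 : 2 * (D:ℝ) * lk = 2 * (D * lk) := by ring
        have e8 : (D:ℝ) * 8 ≤ D * lk := by gcongr
        have e9 : 6 * (q:ℝ) * L = 2 * (3 * q * L) := by ring
        rw [e5, e6] at h12
        rw [e7, e9]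
        linarith

end Pool.Helper53.SG
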