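import Pool.Agent.Helper53.SG.Num

/-!
# More numerical lemmas for the choice of the constants
-/

namespace Pool.Helper53.SG

open Complex Metric Set Filter Topology

/-- The approximation at an integer solution. -/
theorem num_approx {I k0 k' n : ℕ} {α L c C1 C6 : ℝ} (hc : 0 < c) (hc8 : c ≤ 1 / 8)
    (hk0 : 0 < k0) (hL : α + Real.log (k0.factorial : ℝ) = k0 * L) (hL1 : 1 ≤ L)
    (hlog8 : 8 + 3 * Real.log k0 ≤ 4 * L) (hlog2 : Real.log (2 * k0) ≤ (1 - 4 * c) * L)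
    (hk1 : 1 ≤ k') (hn2 : 2 * k' ≤ n) (hn3 : α = Real.log (n.choose k' : ℝ))
    (hd : |(k':ℝ) - k0| ≤ c / 13 * k0) (hIc : C1 + 4 ≤ 3 * c * I)
    (hCI : 1 + Real.log (4 * (CI I + 1)) ≤ 3 * c * L)
    (hC6 : C6 = 4 * ((CI I * Real.exp 1) ^ I + 4)) (hC6L : Real.log C6 ≤ L) :
    ‖exp (phi α (k':ℂ) + wit I (phi α) I (k':ℂ)) - (n : ℂ)‖ ≤ Real.exp (-(C1 * L)) := by
  have hk0r : (0:ℝ) < k0 := by exact_mod_cast hk0
  have hCI0 := CI_nonneg I
  have hL0 : 0 < L := by linarith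
  have hlogCI : 0 ≤ Real.log (4 * (CI I + 1)) := Real.log_nonneg (by linarith)
  have hCI1 : Real.exp (1 - 3 * c * L) ≤ 1 := by
    rw [Real.exp_le_one_iff]; linarith
  have hCI2 : CI I * Real.exp (1 - 3 * c * L) ≤ 1 / 4 := by
    have h1 : Real.exp (1 - 3 * c * L) ≤ Real.exp (-Real.log (4 * (CI I + 1))) := by
      apply Real.exp_le_exp.2; linarith
    rw [Real.exp_neg, Real.exp_log (by positivity)] at h1
    calc CI I * Real.exp (1 - 3 * c * L) ≤ (CI I + 1) * (4 * (CI I + 1))⁻¹ := by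
          gcongr; linarith
      _ = 1 / 4 := by field_simp
  have h2k : 2 * (k0:ℝ) ≤ Real.exp ((1 - 4 * c) * L) := by
    rw [← Real.log_le_iff_le_exp (by linarith)]; exact hlog2
  obtain ⟨ℓ, hℓ⟩ : ∃ ℓ : ℝ, ℓ = (α + Real.log (k'.factorial : ℝ)) / k' := ⟨_, rfl⟩
  have hkk : ‖(k':ℂ) - k0‖ ≤ c / 13 * k0 := by
    have : (k':ℂ) - k0 = (((k':ℝ) - k0 : ℝ) : ℂ) := by push_cast; ring
    rw [this, norm_real, Real.norm_eq_abs]
    exact hd
  have hc13 : c / 13 * (k0:ℝ) ≤ k0 / 4 := by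
    have : c / 13 * (k0:ℝ) ≤ (1/8) / 13 * k0 := by gcongr
    linarith
  have hℓL : |ℓ - L| ≤ c * L := by
    have h1 := phi_lip hk0 hL hL0.le hlog8 (z := (k':ℂ)) (w := (k0:ℂ))
      (by linarith) (by rw [sub_self, norm_zero]; positivity)
    have e1 : phi α (k':ℂ) = ((ℓ:ℝ):ℂ) := by rw [hℓ]; exact phi_nat α k'
    have e2 : phi α (k0:ℂ) = ((L:ℝ):ℂ) := by
      rw [phi_nat, hL]; congr 1; field_simp
    rw [e1, e2, ← ofReal_sub, norm_real, Real.norm_eq_abs] at h1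
    refine h1.trans ?_
    calc 13 * L / k0 * ‖(k':ℂ) - k0‖ ≤ 13 * L / k0 * (c / 13 * k0) := by gcongr
      _ = c * L := by field_simp
  rw [abs_le] at hℓL hd
  have hk2 : (k':ℝ) ≤ 2 * k0 := by linarith [hd.2]
  have hkexp : (k':ℝ) * Real.exp (-ℓ) ≤ Real.exp (-(3 * c * L)) := by
    calc (k':ℝ) * Real.exp (-ℓ) ≤ Real.exp ((1 - 4 * c) * L) * Real.exp (-(L - c * L)) := by
          gcongr
          · linarith
          · linarith [hℓL.1]
      _ = _ := by rw [← Real.exp_add]; congr 1; ring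
  have hx : (k':ℝ) * Real.exp (1 - ℓ) ≤ Real.exp (1 - 3 * c * L) := by
    have e1 : Real.exp (1 - ℓ) = Real.exp 1 * Real.exp (-ℓ) := by
      rw [← Real.exp_add]; congr 1
    have e2 : Real.exp (1 - 3 * c * L) = Real.exp 1 * Real.exp (-(3 * c * L)) := by
      rw [← Real.exp_add]; congr 1
    rw [e1, e2]
    calc (k':ℝ) * (Real.exp 1 * Real.exp (-ℓ)) = Real.exp 1 * ((k':ℝ) * Real.exp (-ℓ)) := by
          ring
      _ ≤ _ := by gcongr
  have hxx : 0 ≤ (k':ℝ) * Real.exp (1 - ℓ) := by positivity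
  have hacc := accuracy (I := I) (J := I) hk1 hn2 hn3 hℓ (hx.trans hCI1)
    (le_trans (by gcongr) hCI2)
  obtain ⟨g1, g2, _⟩ := solution_data (I := I) hk1 hn2 (ℓ := ℓ) (by rw [hℓ, hn3])
  have hnr : (0:ℝ) < n := by exact_mod_cast (by omega : 0 < n)
  have hn_low : Real.exp ℓ ≤ n := by
    rw [← Real.le_log_iff_exp_le hnr]; linarith
  have hn_up : (n:ℝ) ≤ 2 * Real.exp (2 * L) := by
    have h0 : c * L ≤ 1 * L := by gcongr; linarith
    have h1 : Real.log n ≤ Real.log 2 + 2 * L := by linarith [hℓL.2]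
    have h2 := (Real.log_le_iff_le_exp hnr).1 h1
    rwa [Real.exp_add, Real.exp_log (by norm_num)] at h2
  have hkn : (k':ℝ) / n ≤ Real.exp (-(3 * c * L)) := by
    refine le_trans ?_ hkexp
    rw [Real.exp_neg, ← div_eq_mul_inv]
    gcongr
  refine hacc.trans ?_
  have hA : (CI I * ((k':ℝ) * Real.exp (1 - ℓ))) ^ I ≤
      (CI I * Real.exp 1) ^ I * Real.exp (-(3 * c * I * L)) := by
    calc (CI I * ((k':ℝ) * Real.exp (1 - ℓ))) ^ I ≤ (CI I * Real.exp (1 - 3 * c * L)) ^ I := by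
          gcongr
      _ = _ := by
          have e2 : Real.exp (1 - 3 * c * L) = Real.exp 1 * Real.exp (-(3 * c * L)) := by
            rw [← Real.exp_add]; congr 1
          rw [e2, ← mul_assoc, mul_pow, ← Real.exp_nat_mul]
          congr 2; ring
  have hB2 : 4 * ((k':ℝ) / n) ^ (I + 1) ≤ 4 * Real.exp (-(3 * c * I * L)) := by
    have h1 : ((k':ℝ) / n) ^ (I + 1) ≤ (Real.exp (-(3 * c * L))) ^ (I + 1) := by gcongr
    have h2 : (Real.exp (-(3 * c * L))) ^ (I + 1) ≤ Real.exp (-(3 * c * I * L)) := by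
      rw [← Real.exp_nat_mul]
      apply Real.exp_le_exp.2
      push_cast
      have h3 : 0 ≤ 3 * c * L := by positivity
      have h4 : ((I:ℝ) + 1) * (-(3 * c * L)) = -(3 * c * I * L) - 3 * c * L := by ring
      linarith
    linarith
  have hC6p : 0 < C6 := by rw [hC6]; positivity
  calc 2 * (n:ℝ) * ((CI I * ((k':ℝ) * Real.exp (1 - ℓ))) ^ I + 4 * ((k':ℝ) / n) ^ (I + 1))
      ≤ 2 * (2 * Real.exp (2 * L)) * ((CI I * Real.exp 1) ^ I * Real.exp (-(3 * c * I * L)) +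
        4 * Real.exp (-(3 * c * I * L))) := by gcongr
    _ = C6 * (Real.exp (2 * L) * Real.exp (-(3 * c * I * L))) := by rw [hC6]; ring
    _ ≤ Real.exp L * (Real.exp (2 * L) * Real.exp (-(3 * c * I * L))) := by
        gcongr
        rw [← Real.log_le_iff_le_exp hC6p]; linarith
    _ = Real.exp (L + (2 * L + -(3 * c * I * L))) := by
        rw [← Real.exp_add, ← Real.exp_add]
    _ ≤ Real.exp (-(C1 * L)) := by
        apply Real.exp_le_exp.2
        have h5 : (C1 + 4) * L ≤ 3 * c * I * L := by gcongr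
        have h6 : (C1 + 4) * L = C1 * L + 4 * L := by ring
        linarith

/-- The total error is small. -/
theorem num_eta {m D : ℕ} {k0 lk L C1 C4 q : ℝ} (hlk8 : 8 ≤ lk) (hlkL : lk ≤ L)
    (hexplk : Real.exp lk = k0) (hC4 : 0 < C4) (hq : 0 < q)
    (hm : (m:ℝ) ≤ C4 * D + 1) (hDlk2 : D * lk ≤ 3 * q * L + lk)
    (hC1 : C1 = 2 * (3 * q * C4 + C4 + 1) + 4) :
    (m : ℝ) * (Real.exp (-(C1 * L)) * k0 ^ m) ≤ 1 / 8 := by
  have hL0 : 0 < L := by linarith
  have hlk0 : 0 < lk := by linarith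
  have hm0 : (0:ℝ) ≤ m := Nat.cast_nonneg m
  have h1 : (m:ℝ) ≤ Real.exp (m * lk) := by
    have h2 := Real.add_one_le_exp ((m:ℝ) * lk)
    have h3 : (m:ℝ) * 1 ≤ m * lk := by gcongr; linarith
    linarith
  have h2 : k0 ^ m = Real.exp (m * lk) := by
    rw [Real.exp_nat_mul, hexplk]
  have h3 : 2 * (m * lk) ≤ (C1 - 4) * L := by
    have h4 : (m:ℝ) * lk ≤ (C4 * D + 1) * lk := by gcongr
    have h6 : C4 * (D * lk) ≤ C4 * (3 * q * L + lk) := by gcongr
    have h7 : C4 * lk ≤ C4 * L := by gcongr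
    have e1 : (C4 * D + 1) * lk = C4 * (D * lk) + lk := by ring
    have e2 : C4 * (3 * q * L + lk) = 3 * q * C4 * L + C4 * lk := by ring
    have e3 : (C1 - 4) * L = 2 * (3 * q * C4 * L + C4 * L + L) := by rw [hC1]; ring
    rw [e3]; rw [e1] at h4; rw [e2] at h6
    linarith
  rw [h2]
  calc (m:ℝ) * (Real.exp (-(C1 * L)) * Real.exp (m * lk)) ≤
        Real.exp (m * lk) * (Real.exp (-(C1 * L)) * Real.exp (m * lk)) := by
        gcongr
    _ = Real.exp (2 * (m * lk) - C1 * L) := by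
        rw [← Real.exp_add, ← Real.exp_add]; congr 1; ring
    _ ≤ Real.exp (-4) := by
        apply Real.exp_le_exp.2
        have e3 : (C1 - 4) * L = C1 * L - 4 * L := by ring
        linarith
    _ ≤ 1 / 8 := by
        rw [Real.exp_neg, one_div]
        apply inv_anti₀ (by norm_num)
        have h8 : Real.exp 4 = Real.exp 2 * Real.exp 2 := by rw [← Real.exp_add]; norm_num
        have h9 := Real.add_one_le_exp (2:ℝ)
        have h10 : (3:ℝ) * 3 ≤ Real.exp 2 * Real.exp 2 := by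
          apply mul_le_mul <;> linarith
        linarith

/-- The dominance condition. -/
theorem num_dom {q D : ℕ} {c s u Ch l1 l2 : ℝ} (hc : 0 < c) (hs0 : 0 < s) (hq : (0:ℝ) < q)
    (hl1 : l1 = Real.log (2 * q)) (hl2 : l2 = Real.log (2 / s)) (hl1p : 0 ≤ l1) (hl2p : 0 ≤ l2)
    (hCh : Ch = (8 * q / c) * (1 + l1 + l2)) (hu : Ch * D ≤ u) (hD : (1:ℝ) ≤ D) :
    2 * q * (2 / s) ^ D ≤ Real.exp (3 / 8 * (2 * c * u / q)) := by
  have e1 : 2 * (q:ℝ) * (2 / s) ^ D = Real.exp (l1 + D * l2) := by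
    rw [Real.exp_add, Real.exp_nat_mul, hl1, hl2, Real.exp_log (by positivity),
      Real.exp_log (by positivity)]
  rw [e1]
  apply Real.exp_le_exp.2
  have h1 : 3 / 8 * (2 * c * (Ch * D) / q) ≤ 3 / 8 * (2 * c * u / q) := by gcongr
  refine le_trans ?_ h1
  have h2 : 3 / 8 * (2 * c * (Ch * D) / q) = 6 * (1 + l1 + l2) * D := by
    rw [hCh]; field_simp; ring
  rw [h2]
  have h3 : l1 ≤ l1 * D := by
    have : l1 * 1 ≤ l1 * D := by gcongr
    linarith
  have h4 : 0 ≤ l1 * D := by positivity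
  have h5 : 0 ≤ l2 * D := by positivity
  have e2 : 6 * (1 + l1 + l2) * D = 6 * D + 6 * (l1 * D) + 6 * (l2 * D) := by ring
  rw [e2]
  linarith

theorem num_dom2 {q D : ℕ} {c u Ch : ℝ} (hc : 0 < c) (hq : (1:ℝ) ≤ q)
    (hCh : 8 * q / c ≤ Ch) (hu : Ch * D ≤ u) (hD : (1:ℝ) ≤ D) :
    1 ≤ 2 * c * u ∧ 16 ≤ 2 * c * u / q := by
  have hq0 : (0:ℝ) < q := by linarith
  have h0 : 0 < 8 * (q:ℝ) / c := by positivity
  have hCh0 : 0 < Ch := by linarith
  have h1 : Ch * 1 ≤ Ch * D := by gcongr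
  have h2 : 8 * q / c ≤ u := by linarith
  rw [div_le_iff₀ hc] at h2
  constructor
  · linarith
  · rw [le_div_iff₀ hq0]; linarith

/-- The final contradiction. -/
theorem num_final {m D q : ℕ} {u Ch l1 l3 C3 C4 s : ℝ} (hs0 : 0 < s) (hq : (1:ℝ) ≤ q)
    (hl1 : l1 = Real.log (2 * q)) (hl3 : l3 = Real.log (12 / s)) (hl1p : 0 ≤ l1)
    (hC3 : C3 = l1 + l3 + q * (208 * Ch + 418)) (hC4 : C4 = 2 * C3 + q)
    (hu : u ≤ Ch * D + 2) (hD : (1:ℝ) ≤ D)
    (h1 : (2:ℝ) ^ m ≤ 2 * q * (12 / s) ^ D * Real.exp (q * (208 * u + 2))) :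
    (m:ℝ) ≤ C4 * D := by
  have hq0 : (0:ℝ) < q := by linarith
  have h2 : Real.log ((2:ℝ) ^ m) ≤ Real.log (2 * q * (12 / s) ^ D *
      Real.exp (q * (208 * u + 2))) := Real.log_le_log (by positivity) h1
  rw [Real.log_pow, Real.log_mul (by positivity) (Real.exp_pos _).ne', Real.log_exp,
    Real.log_mul (by positivity) (by positivity), Real.log_pow, ← hl1, ← hl3] at h2
  have h3 : m * Real.log 2 ≤ C3 * D := by
    refine h2.trans ?_
    have h4 : q * (208 * u + 2) ≤ q * (208 * (Ch * D + 2) + 2) := by gcongr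
    have h5 : l1 ≤ l1 * D := by
      have : l1 * 1 ≤ l1 * D := by gcongr
      linarith
    have h6 : (q:ℝ) * 418 ≤ q * 418 * D := by
      have : (q:ℝ) * 418 * 1 ≤ q * 418 * D := by gcongr
      linarith
    have e1 : q * (208 * (Ch * D + 2) + 2) = (q:ℝ) * (208 * Ch) * D + q * 418 := by ring
    have e2 : C3 * D = l1 * D + l3 * D + q * (208 * Ch) * D + q * 418 * D := by rw [hC3]; ring
    rw [e1] at h4
    rw [e2]
    linarith
  have hl2' := Real.log_two_gt_d9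
  have h7 : (m:ℝ) * (1/2) ≤ m * Real.log 2 := by gcongr; linarith
  have h9 : 0 ≤ (q:ℝ) * D := by positivity
  have e3 : C4 * D = 2 * (C3 * D) + q * D := by rw [hC4]; ring
  rw [e3]; linarith

end Pool.Helper53.SG
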