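import Pool.Agent.Helper53.SG.Acc

/-!
# Lipschitz bound and range of the phase; a small interpolation polynomial
-/

namespace Pool.Helper53.SG

open Complex Metric Set Filter Topology

lemma mem_UK_of_near {k0 : ℕ} (hk0 : 1 ≤ k0) {z : ℂ} (hz : ‖z - k0‖ ≤ k0 / 4) :
    z ∈ UK (k0:ℝ) ∧ 3 * (k0:ℝ) / 4 ≤ ‖z‖ ∧ ‖z‖ ≤ 5 * (k0:ℝ) / 4 := by
  have hk : (1:ℝ) ≤ k0 := by exact_mod_cast hk0
  have hkn : ‖(k0:ℂ)‖ = k0 := Complex.norm_natCast k0
  have h1 : ‖z‖ ≤ 5 * (k0:ℝ) / 4 := by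
    have : z = (z - k0) + k0 := by ring
    rw [this]; refine (norm_add_le _ _).trans ?_
    rw [hkn]; linarith
  have h2 : 3 * (k0:ℝ) / 4 ≤ ‖z‖ := by
    have : (k0:ℂ) = z - (z - k0) := by ring
    have h3 := norm_sub_le z (z - k0)
    rw [← this, hkn] at h3
    linarith
  refine ⟨⟨?_, ?_⟩, h2, h1⟩
  · show -(1/2) < z.re
    have h3 := Complex.abs_re_le_norm (z - k0)
    have h4 : (z - k0).re = z.re - k0 := by simp
    rw [h4, abs_le] at h3
    linarith [h3.1]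
  · rw [mem_ball, dist_zero_right]; linarith

lemma phi_lip {k0 : ℕ} (hk0 : 1 ≤ k0) {α L : ℝ}
    (hL : α + Real.log (k0.factorial : ℝ) = k0 * L) (hL0 : 0 ≤ L)
    (hlog : 8 + 3 * Real.log k0 ≤ 4 * L) {z w : ℂ} (hz : ‖z - k0‖ ≤ k0 / 4)
    (hw : ‖w - k0‖ ≤ k0 / 4) : ‖phi α z - phi α w‖ ≤ 13 * L / k0 * ‖z - w‖ := by
  have hk : (1:ℝ) ≤ k0 := by exact_mod_cast hk0
  obtain ⟨hzU, hz1, hz2⟩ := mem_UK_of_near hk0 hz
  obtain ⟨hwU, hw1, hw2⟩ := mem_UK_of_near hk0 hw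
  have hk0U : (k0:ℂ) ∈ UK (k0:ℝ) := natCast_mem_UK (by linarith)
  have hznz : z ≠ 0 := by rw [← norm_pos_iff]; linarith
  have hwnz : w ≠ 0 := by rw [← norm_pos_iff]; linarith
  have h1 : ‖lam z - lam w‖ ≤ 4 * L * ‖z - w‖ :=
    (lam_lip hk0 hzU hwU).trans (by gcongr)
  have h2 : ‖lam z - lam k0‖ ≤ 4 * L * (k0 / 4) :=
    (lam_lip hk0 hzU hk0U).trans (by gcongr)
  have h3 : ‖(α:ℂ) + lam z‖ ≤ 2 * k0 * L := by
    have e : (α:ℂ) + lam z = ((k0 * L : ℝ) : ℂ) + (lam z - lam k0) := by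
      rw [← hL, lam_nat]; push_cast; ring
    rw [e]
    refine (norm_add_le _ _).trans ?_
    rw [norm_real, Real.norm_eq_abs, abs_of_nonneg (by positivity)]
    linarith
  have e : phi α z - phi α w = (((α:ℂ) + lam z) * (w - z) + z * (lam z - lam w)) / (z * w) := by
    rw [phi, phi]; field_simp; ring
  rw [e, norm_div, norm_mul, div_le_iff₀ (by positivity)]
  have h4 : ‖((α:ℂ) + lam z) * (w - z) + z * (lam z - lam w)‖ ≤ 7 * k0 * L * ‖z - w‖ := by
    refine (norm_add_le _ _).trans ?_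
    rw [norm_mul, norm_mul, norm_sub_rev w z]
    have h5 : ‖(α:ℂ) + lam z‖ * ‖z - w‖ ≤ 2 * k0 * L * ‖z - w‖ := by gcongr
    have h6 : ‖z‖ * ‖lam z - lam w‖ ≤ (5 * (k0:ℝ) / 4) * (4 * L * ‖z - w‖) := by gcongr
    nlinarith
  refine h4.trans ?_
  have h7 : 9 * (k0:ℝ) ^ 2 / 16 ≤ ‖z‖ * ‖w‖ := by
    calc 9 * (k0:ℝ) ^ 2 / 16 = (3 * (k0:ℝ) / 4) * (3 * (k0:ℝ) / 4) := by ring
      _ ≤ _ := by gcongr
  have h8 : 13 * L / k0 * ‖z - w‖ * (9 * (k0:ℝ) ^ 2 / 16) ≤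
      13 * L / k0 * ‖z - w‖ * (‖z‖ * ‖w‖) := by gcongr
  refine le_trans ?_ h8
  have h9 : 13 * L / k0 * ‖z - w‖ * (9 * (k0:ℝ) ^ 2 / 16) = (117/16) * k0 * L * ‖z - w‖ := by
    field_simp; ring
  rw [h9]
  have : 0 ≤ k0 * L * ‖z - w‖ := by positivity
  nlinarith

lemma log_fact_add (m h : ℕ) : Real.log ((m + h).factorial : ℝ) ≤
    Real.log (m.factorial : ℝ) + h * Real.log ((m + h : ℕ) : ℝ) := by
  have h1 : (m + h).factorial ≤ m.factorial * (m + h) ^ h := by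
    rw [← Nat.factorial_mul_ascFactorial]
    exact Nat.mul_le_mul_left _ (Nat.ascFactorial_le_pow_add m h)
  rcases Nat.eq_zero_or_pos (m + h) with h0 | h0
  · have hm : m = 0 := by omega
    have hh : h = 0 := by omega
    subst hm; subst hh; simp
  have h2 : (0:ℝ) < m.factorial := by exact_mod_cast Nat.factorial_pos m
  have h3 : (0:ℝ) < ((m + h : ℕ) : ℝ) := by exact_mod_cast h0
  rw [← Real.log_pow, ← Real.log_mul h2.ne' (by positivity)]
  apply Real.log_le_log (by exact_mod_cast Nat.factorial_pos _)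
  exact_mod_cast h1

lemma phi_range {k0 h : ℕ} (hk0 : 1 ≤ k0) (hh : 2 * h ≤ k0) {α L : ℝ}
    (hL : α + Real.log (k0.factorial : ℝ) = k0 * L) (hL2 : Real.log (2 * k0) ≤ L) :
    h * (L - Real.log (2 * k0)) / k0 ≤
      (α + Real.log ((k0 - h).factorial : ℝ)) / ((k0 - h : ℕ) : ℝ) -
      (α + Real.log ((k0 + h).factorial : ℝ)) / ((k0 + h : ℕ) : ℝ) := by
  have hk : (1:ℝ) ≤ k0 := by exact_mod_cast hk0
  have hhr : 2 * (h:ℝ) ≤ k0 := by exact_mod_cast hh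
  have hh0 : (0:ℝ) ≤ h := Nat.cast_nonneg h
  have hkh : ((k0 - h : ℕ) : ℝ) = (k0:ℝ) - h := by rw [Nat.cast_sub (by omega)]
  have h1 := log_fact_add (k0 - h) h
  have e1 : k0 - h + h = k0 := by omega
  rw [e1] at h1
  have h2 := log_fact_add k0 h
  have hlk : Real.log k0 ≤ Real.log (2 * k0) := Real.log_le_log (by linarith) (by linarith)
  have hlk2 : Real.log ((k0 + h : ℕ) : ℝ) ≤ Real.log (2 * k0) := by
    apply Real.log_le_log
    · push_cast; linarith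
    · push_cast; linarith
  have ha : L + h * (L - Real.log (2 * k0)) / k0 ≤
      (α + Real.log ((k0 - h).factorial : ℝ)) / ((k0 - h : ℕ) : ℝ) := by
    rw [hkh, le_div_iff₀ (by linarith)]
    have h3 : k0 * L - h * Real.log (2 * k0) ≤ α + Real.log ((k0 - h).factorial : ℝ) := by
      have : h * Real.log k0 ≤ h * Real.log (2 * k0) := by gcongr
      linarith
    refine le_trans ?_ h3
    have h4 : h * (L - Real.log (2 * k0)) / k0 * ((k0:ℝ) - h) ≤ h * (L - Real.log (2 * k0)) := by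
      rw [div_mul_eq_mul_div, div_le_iff₀ (by linarith)]
      have h5 : 0 ≤ h * (L - Real.log (2 * k0)) := mul_nonneg hh0 (by linarith)
      nlinarith
    nlinarith
  have hb : (α + Real.log ((k0 + h).factorial : ℝ)) / ((k0 + h : ℕ) : ℝ) ≤ L := by
    rw [div_le_iff₀ (by push_cast; linarith)]
    push_cast
    have h6 : h * Real.log ((k0 + h : ℕ) : ℝ) ≤ h * L := by
      gcongr; exact hlk2.trans hL2
    push_cast at h6 h2
    nlinarith
  linarith

/-- small Lagrange interpolation -/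
lemma lagr (S : Finset ℤ) (e : ℤ → ℂ) {η : ℝ} (he : ∀ k ∈ S, ‖e k‖ ≤ η) :
    ∃ c : ℂ → ℂ, Differentiable ℂ c ∧ (∀ k ∈ S, c ((k:ℝ):ℂ) = e k) ∧
      ∀ (z : ℂ) (R : ℝ), 1 ≤ R → (∀ j ∈ S, ‖z - (j:ℝ)‖ ≤ R) → ‖c z‖ ≤ S.card * (η * R ^ S.card) := by
  classical
  refine ⟨fun z => ∑ k ∈ S, e k * ∏ j ∈ S.erase k, ((z - (j:ℝ)) / ((k:ℝ) - (j:ℝ))), ?_, ?_, ?_⟩
  · fun_prop
  · intro k hk
    simp only
    rw [Finset.sum_eq_single_of_mem k hk]
    · rw [Finset.prod_eq_one, mul_one]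
      intro j hj
      have hjk : j ≠ k := Finset.ne_of_mem_erase hj
      apply div_self
      rw [sub_ne_zero]
      intro h
      apply hjk
      exact_mod_cast h.symm
    · intro k' _ hk'
      have : k ∈ S.erase k' := Finset.mem_erase.2 ⟨fun h => hk' h.symm, hk⟩
      rw [Finset.prod_eq_zero this (by simp), mul_zero]
  · intro z R hR hz
    refine (norm_sum_le _ _).trans ?_
    have hterm : ∀ k ∈ S, ‖e k * ∏ j ∈ S.erase k, ((z - (j:ℝ)) / ((k:ℝ) - (j:ℝ)))‖ ≤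
        η * R ^ S.card := by
      intro k hk
      have hη : 0 ≤ η := (norm_nonneg _).trans (he k hk)
      rw [norm_mul, norm_prod]
      have h1 : ∏ j ∈ S.erase k, ‖(z - (j:ℝ)) / ((k:ℝ) - (j:ℝ))‖ ≤ ∏ j ∈ S.erase k, R := by
        apply Finset.prod_le_prod (fun _ _ => norm_nonneg _)
        intro j hj
        have hjk : j ≠ k := Finset.ne_of_mem_erase hj
        have hj1 : (1:ℝ) ≤ ‖((k:ℝ):ℂ) - (j:ℝ)‖ := by
          rw [← ofReal_sub, norm_real, Real.norm_eq_abs]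
          have h2 : (k - j) ≠ 0 := sub_ne_zero.2 (fun h => hjk h.symm)
          have h3 := Int.one_le_abs h2
          exact_mod_cast h3
        rw [norm_div, div_le_iff₀ (by linarith)]
        calc ‖z - (j:ℝ)‖ ≤ R := hz j (Finset.mem_of_mem_erase hj)
          _ = R * 1 := (mul_one R).symm
          _ ≤ _ := by gcongr
      rw [Finset.prod_const] at h1
      have h4 : R ^ (S.erase k).card ≤ R ^ S.card := by
        apply pow_le_pow_right₀ hR
        exact Finset.card_erase_le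
      exact mul_le_mul (he k hk) (h1.trans h4) (Finset.prod_nonneg (fun _ _ => norm_nonneg _)) hη
    refine (Finset.sum_le_card_nsmul _ _ _ hterm).trans ?_
    rw [nsmul_eq_mul]

end Pool.Helper53.SG
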