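import Pool.Agent.Helper53.SG.Num2

/-!
# The bound for the number of solutions in a short interval
-/

namespace Pool.Helper53.SG

open Complex Metric Set Filter Topology

theorem local_points_aux {c ε s l1 l2 l3 Ch C3 C4 C1 C6 : ℝ} {q I : ℕ} (hc : 0 < c)
    (hc8 : c ≤ 1 / 8) (hε : 0 < ε) (hε1 : ε ≤ 1)
    (hq1 : 1 ≤ q) (hq48 : (48:ℝ) ≤ q) (hqε : 48 ≤ q * ε)
    (hs : s = c / (208 * q)) (hs0 : 0 < s)
    (hl1 : l1 = Real.log (2 * q)) (hl2 : l2 = Real.log (2 / s)) (hl3 : l3 = Real.log (12 / s))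
    (hl1p : 0 ≤ l1) (hl2p : 0 ≤ l2) (hl3p : 0 ≤ l3)
    (hCh : Ch = (8 * q / c) * (1 + l1 + l2)) (hChq : 8 * q / c ≤ Ch) (hCh1 : 1 ≤ Ch)
    (hC3 : C3 = l1 + l3 + q * (208 * Ch + 418)) (hC3p : 0 ≤ C3)
    (hC4 : C4 = 2 * C3 + q) (hC4p : 0 < C4)
    (hC1 : C1 = 2 * (3 * q * C4 + C4 + 1) + 4)
    (hIc : C1 + 4 ≤ 3 * c * I)
    (hC6 : C6 = 4 * ((CI I * Real.exp 1) ^ I + 4))
    {k0 : ℕ} {α L lk : ℝ} (hlk : lk = Real.log k0) (hlk8 : 8 ≤ lk)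
    (hb2 : 1 + Real.log (4 * (CI I + 1)) ≤ 3 * c * lk)
    (hb3 : 156 * (Ch * (3 * q + 1) + 1) ≤ lk * c)
    (hb4 : Real.log C6 ≤ lk) (hb5 : Real.log q ≤ lk)
    (hly : lk ≤ (k0:ℝ) ^ (ε / 2)) (hL : α + Real.log (k0.factorial : ℝ) = k0 * L)
    (hlog2 : Real.log (2 * k0) ≤ (1 - 4 * c) * L) (hL2k : L ≤ 2 * k0)
    (S : Finset ℕ) (hS : ∀ k ∈ S, |(k:ℝ) - k0| ≤ (k0:ℝ) ^ (1 - ε) ∧
        ∃ n : ℕ, 1 ≤ k ∧ 2 * k ≤ n ∧ α = Real.log (n.choose k : ℝ)) :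
    (S.card : ℝ) ≤ C4 * (3 * q + 1) * (L / lk) := by
  classical
  have hk0pos : 0 < k0 := by
    rcases Nat.eq_zero_or_pos k0 with h | h
    · rw [hlk, h] at hlk8; simp at hlk8; linarith
    · exact h
  have hk0r : (0:ℝ) < k0 := by exact_mod_cast hk0pos
  have hk1 : (1:ℝ) ≤ k0 := by exact_mod_cast hk0pos
  have hexplk : Real.exp lk = k0 := by rw [hlk]; exact Real.exp_log hk0r
  have hlkk : lk ≤ k0 := by
    have := Real.add_one_le_exp lk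
    rw [hexplk] at this; linarith
  have hlk2 : lk ≤ Real.log (2 * k0) := by
    rw [hlk]; exact Real.log_le_log hk0r (by linarith)
  have hLpos : 0 < L := by
    by_contra hcon
    push Not at hcon
    have : (1 - 4 * c) * L ≤ 0 := mul_nonpos_of_nonneg_of_nonpos (by linarith) hcon
    linarith
  have hlkL : lk ≤ L := by
    have h1 : (1 - 4 * c) * L ≤ 1 * L := by gcongr; linarith
    linarith
  have hq0 : (0:ℝ) < q := by linarith
  obtain ⟨D, h, hDpos, hhpos, hDlk, hDlk2, hhL, hhL2, hhk, hh12⟩ :=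
    num_Dh hq48 hCh1 hc hlk8 hlkL hk0r hlkk hb3
  have hD1 : (1:ℝ) ≤ D := by exact_mod_cast hDpos
  have hhr : (1:ℝ) ≤ h := by exact_mod_cast hhpos
  have hc13 : c / 13 * (k0:ℝ) ≤ k0 := by
    have : c / 13 * (k0:ℝ) ≤ 1 * k0 := by
      gcongr
      linarith
    linarith
  -- M
  obtain ⟨y, hy⟩ : ∃ y : ℝ, y = (k0:ℝ) ^ (ε / 2) := ⟨_, rfl⟩
  rw [← hy] at hly
  have hy8 : 8 ≤ y := hlk8.trans hly
  have hy0 : 0 < y := by linarith
  have hylog : y = Real.exp (ε / 2 * lk) := by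
    rw [hy, Real.rpow_def_of_pos hk0r]; congr 1; rw [← hlk]; ring
  have hMy : (k0:ℝ) ^ (1 - ε) = k0 / y ^ 2 := by
    rw [Real.rpow_sub hk0r, Real.rpow_one]
    congr 1
    rw [hy, ← Real.rpow_natCast, ← Real.rpow_mul hk0r.le]
    congr 1
    push_cast; ring
  have hM1 : 1 ≤ (k0:ℝ) ^ (1 - ε) := Real.one_le_rpow hk1 (by linarith)
  obtain ⟨M, hM⟩ : ∃ M : ℝ, M = (k0:ℝ) ^ (1 - ε) := ⟨_, rfl⟩
  rw [← hM] at hS hM1 hMy
  have hMh : M ≤ h := by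
    rw [hMy]
    have h1 : (k0:ℝ) / y ^ 2 ≤ k0 / y := by
      rw [div_le_div_iff₀ (by positivity) hy0]
      have h2 : y * 1 ≤ y * y := by gcongr; linarith
      have h3 : y ≤ y ^ 2 := by rw [sq]; linarith
      gcongr
    have hky : (k0:ℝ) / y ≤ k0 / lk := by gcongr
    have h2 : (k0:ℝ) / lk ≤ 3 * k0 / lk := by gcongr; linarith
    linarith
  -- Z1
  obtain ⟨Z1, hZ1⟩ : ∃ Z1 : ℕ, Z1 = ((D + 1) * q) / 2 := ⟨_, rfl⟩
  have hDq2 : 2 ≤ (D + 1) * q := by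
    calc 2 = (1 + 1) * 1 := by norm_num
      _ ≤ (D + 1) * q := by gcongr
  have hZ1pos : 0 < Z1 := by rw [hZ1]; exact Nat.div_pos hDq2 (by norm_num)
  have hZ12 : 2 * Z1 ≤ (D + 1) * q := by rw [hZ1]; exact Nat.mul_div_le _ _
  have hZ1low : ((D:ℝ) + 1) * q ≤ 4 * Z1 := by
    have h1 : (D + 1) * q < 2 * Z1 + 2 := by
      have := Nat.lt_mul_div_succ ((D+1)*q) (show 0 < 2 by norm_num)
      omega
    have h2 : (D + 1) * q ≤ 4 * Z1 := by omega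
    have : (((D + 1) * q : ℕ) : ℝ) ≤ ((4 * Z1 : ℕ) : ℝ) := by exact_mod_cast h2
    push_cast at this; exact this
  have hE := num_hE hq48 hqε hlk8 hexplk hylog hly hMy (by linarith) hDlk hhk
    (by linarith) hhpos hMh hZ1low hb5 hLpos
  -- main part
  have key : (S.card : ℝ) ≤ C4 * D := by
    by_contra hcon
    push Not at hcon
    obtain ⟨m, hm⟩ : ∃ m : ℕ, m = ⌊C4 * D⌋₊ + 1 := ⟨_, rfl⟩
    have hmS : m ≤ S.card := by
      have : ⌊C4 * D⌋₊ < S.card := by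
        rw [Nat.floor_lt (by positivity)]; exact hcon
      omega
    have hmgt : C4 * D < m := by
      rw [hm]; push_cast; exact Nat.lt_floor_add_one _
    have hmle : (m:ℝ) ≤ C4 * D + 1 := by
      rw [hm]; push_cast
      have := Nat.floor_le (show 0 ≤ C4 * D by positivity)
      linarith
    obtain ⟨S', hS'S, hS'c⟩ := Finset.exists_subset_card_eq hmS
    have hex : ∀ k : ℤ, ∃ nk : ℤ, ∀ k' ∈ S', (k':ℤ) = k →
        ∃ n : ℕ, nk = n ∧ 1 ≤ k' ∧ 2 * k' ≤ n ∧ α = Real.log (n.choose k' : ℝ) := by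
      intro k
      by_cases hk : ∃ k' ∈ S', (k':ℤ) = k
      · obtain ⟨k', hk', rfl⟩ := hk
        obtain ⟨n, hn⟩ := (hS k' (hS'S hk')).2
        refine ⟨n, fun k'' hk'' he => ?_⟩
        have : k'' = k' := by exact_mod_cast he
        subst this
        exact ⟨n, rfl, hn⟩
      · push Not at hk
        exact ⟨0, fun k' hk' he => absurd he (hk k' hk')⟩
    choose nn hnn using hex
    obtain ⟨T, hT⟩ : ∃ T : Finset ℤ, T = S'.image (fun k : ℕ => (k:ℤ)) := ⟨_, rfl⟩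
    have hTc : T.card = m := by
      rw [hT, Finset.card_image_of_injective _ Nat.cast_injective, hS'c]
    have hL1 : 1 ≤ L := by linarith
    have hlog8 : 8 + 3 * Real.log k0 ≤ 4 * L := by rw [← hlk]; linarith
    have h3cL : 1 + Real.log (4 * (CI I + 1)) ≤ 3 * c * L := by
      have : 3 * c * lk ≤ 3 * c * L := by gcongr
      linarith
    have hCI0 := CI_nonneg I
    have hlogCI : 0 ≤ Real.log (4 * (CI I + 1)) := Real.log_nonneg (by linarith)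
    have hCI1 : Real.exp (1 - 3 * c * L) ≤ 1 := by
      rw [Real.exp_le_one_iff]; linarith
    have hCI2 : CI I * Real.exp (1 - 3 * c * L) ≤ 1 / 4 := by
      have h1 : Real.exp (1 - 3 * c * L) ≤ Real.exp (-Real.log (4 * (CI I + 1))) := by
        apply Real.exp_le_exp.2; linarith
      rw [Real.exp_neg, Real.exp_log (by positivity)] at h1
      calc CI I * Real.exp (1 - 3 * c * L) ≤ (CI I + 1) * (4 * (CI I + 1))⁻¹ := by
            gcongr; linarith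
        _ = 1 / 4 := by field_simp
    have hTS : ∀ k ∈ T, |(k:ℝ) - k0| ≤ M ∧
        ‖exp (phi α ((k:ℝ):ℂ) + wit I (phi α) I ((k:ℝ):ℂ)) - ((nn k : ℤ) : ℂ)‖ ≤
          Real.exp (-(C1 * L)) := by
      intro k hk
      rw [hT, Finset.mem_image] at hk
      obtain ⟨k', hk', rfl⟩ := hk
      obtain ⟨n, hn1, hk1', hn2, hn3⟩ := hnn (k':ℤ) k' hk' rfl
      have hM' := (hS k' (hS'S hk')).1
      refine ⟨by push_cast; exact hM', ?_⟩
      have hcast : (((k':ℤ):ℝ):ℂ) = (k':ℂ) := by push_cast; rfl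
      have hcast2 : ((nn (k':ℤ) : ℤ) : ℂ) = (n:ℂ) := by rw [hn1]; push_cast; rfl
      rw [hcast, hcast2]
      exact num_approx hc hc8 hk0pos hL hL1 hlog8 hlog2 hk1' hn2 hn3
        (by linarith) hIc h3cL hC6 (by linarith)
    have hηm : (T.card : ℝ) * (Real.exp (-(C1 * L)) * (k0:ℝ) ^ T.card) ≤ 1 / 8 := by
      rw [hTc]
      exact num_eta hlk8 hlkL hexplk hC4p hq0 hmle hDlk2 hC1
    obtain ⟨hcu, hΔ16⟩ := num_dom2 hc (by linarith) hChq hhL hD1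
    have hdom := num_dom hc hs0 hq0 hl1 hl2 hl1p hl2p hCh hhL hD1
    have hres := core hc hc8 hq1 hk0pos hL hL1 hlog8 hlog2 hCI1 hCI2 hs hhpos hh12 hM1
      (by linarith) T nn hTS hηm hcu hΔ16 hdom hZ1pos hZ12 hE
    rw [hTc] at hres
    rcases hres with h1 | h1
    · have h2 : (m:ℝ) < Z1 := by exact_mod_cast h1
      have h3 : 2 * (Z1:ℝ) ≤ (D + 1) * q := by exact_mod_cast hZ12
      have h4 : q * (D:ℝ) ≤ C4 * D := by
        rw [hC4]; gcongr; linarith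
      have h5 : (q:ℝ) * 1 ≤ q * D := by gcongr
      have h6 : ((D:ℝ) + 1) * q = q * D + q := by ring
      linarith
    · have hu2 : (h:ℝ) * L / k0 ≤ Ch * D + 2 := by
        rw [div_le_iff₀ hk0r]
        have h3 : (Ch * D + 2) * (k0:ℝ) = Ch * D * k0 + 2 * k0 := by ring
        linarith
      have h8 := num_final hs0 (by linarith) hl1 hl3 hl1p hC3 hC4 hu2 hD1 h1
      linarith
  refine key.trans ?_
  have h2 : (D:ℝ) ≤ (3 * q + 1) * (L / lk) := by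
    rw [← mul_div_assoc, le_div_iff₀ (by linarith)]
    linarith
  calc C4 * D ≤ C4 * ((3 * q + 1) * (L / lk)) := by gcongr
    _ = _ := by ring

theorem local_points {c ε : ℝ} (hc : 0 < c) (hc8 : c ≤ 1 / 8) (hε : 0 < ε) (hε1 : ε ≤ 1) :
    ∃ B C : ℝ, 0 < C ∧ ∀ (k0 : ℕ) (α L : ℝ), B ≤ Real.log k0 →
      Real.log k0 ≤ (k0:ℝ) ^ (ε / 2) → α + Real.log (k0.factorial : ℝ) = k0 * L →
      Real.log (2 * k0) ≤ (1 - 4 * c) * L → L ≤ 2 * k0 →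
      ∀ S : Finset ℕ, (∀ k ∈ S, |(k:ℝ) - k0| ≤ (k0:ℝ) ^ (1 - ε) ∧
        ∃ n : ℕ, 1 ≤ k ∧ 2 * k ≤ n ∧ α = Real.log (n.choose k : ℝ)) →
      (S.card : ℝ) ≤ C * (L / Real.log k0) := by
  classical
  obtain ⟨q, hq⟩ : ∃ q : ℕ, q = ⌈48 / ε⌉₊ := ⟨_, rfl⟩
  have hqε : 48 ≤ q * ε := by
    have h1 := Nat.le_ceil (48 / ε)
    rw [div_le_iff₀ hε, ← hq] at h1
    exact h1
  have hq48 : (48:ℝ) ≤ q := by
    have : (q:ℝ) * ε ≤ q * 1 := by gcongr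
    linarith
  have hq1 : 1 ≤ q := by
    have : (1:ℝ) ≤ q := by linarith
    exact_mod_cast this
  have hq0 : (0:ℝ) < q := by linarith
  obtain ⟨s, hs⟩ : ∃ s : ℝ, s = c / (208 * q) := ⟨_, rfl⟩
  have hs0 : 0 < s := by rw [hs]; positivity
  have hs1 : s ≤ 1 := by
    rw [hs, div_le_one (by positivity)]; linarith
  obtain ⟨l1, hl1⟩ : ∃ l : ℝ, l = Real.log (2 * q) := ⟨_, rfl⟩
  obtain ⟨l2, hl2⟩ : ∃ l : ℝ, l = Real.log (2 / s) := ⟨_, rfl⟩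
  obtain ⟨l3, hl3⟩ : ∃ l : ℝ, l = Real.log (12 / s) := ⟨_, rfl⟩
  have hl1p : 0 ≤ l1 := by rw [hl1]; exact Real.log_nonneg (by linarith)
  have hl2p : 0 ≤ l2 := by
    rw [hl2]; exact Real.log_nonneg (by rw [le_div_iff₀ hs0]; linarith)
  have hl3p : 0 ≤ l3 := by
    rw [hl3]; exact Real.log_nonneg (by rw [le_div_iff₀ hs0]; linarith)
  obtain ⟨Ch, hCh⟩ : ∃ Ch : ℝ, Ch = (8 * q / c) * (1 + l1 + l2) := ⟨_, rfl⟩
  have hqc : 0 < 8 * (q:ℝ) / c := by positivity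
  have hChq : 8 * q / c ≤ Ch := by
    rw [hCh]
    have h1 : 0 ≤ 8 * (q:ℝ) / c * l1 := by positivity
    have h2 : 0 ≤ 8 * (q:ℝ) / c * l2 := by positivity
    have h3 : 8 * (q:ℝ) / c * (1 + l1 + l2) =
      8 * (q:ℝ) / c + 8 * (q:ℝ) / c * l1 + 8 * (q:ℝ) / c * l2 := by ring
    linarith
  have hCh1 : 1 ≤ Ch := by
    refine le_trans ?_ hChq
    rw [le_div_iff₀ hc]; linarith
  obtain ⟨C3, hC3⟩ : ∃ C : ℝ, C = l1 + l3 + q * (208 * Ch + 418) := ⟨_, rfl⟩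
  have hC3p : 0 ≤ C3 := by
    have : 0 ≤ (q:ℝ) * (208 * Ch + 418) := by
      apply mul_nonneg <;> linarith
    linarith
  obtain ⟨C4, hC4⟩ : ∃ C : ℝ, C = 2 * C3 + q := ⟨_, rfl⟩
  have hC4p : 0 < C4 := by linarith
  obtain ⟨C1, hC1⟩ : ∃ C : ℝ, C = 2 * (3 * q * C4 + C4 + 1) + 4 := ⟨_, rfl⟩
  obtain ⟨I, hI⟩ : ∃ I : ℕ, I = ⌈(C1 + 4) / (3 * c)⌉₊ := ⟨_, rfl⟩
  have hIc : C1 + 4 ≤ 3 * c * I := by
    have h1 := Nat.le_ceil ((C1 + 4) / (3 * c))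
    rw [div_le_iff₀ (by positivity), ← hI] at h1
    linarith
  have hCI0 := CI_nonneg I
  obtain ⟨C6, hC6⟩ : ∃ C : ℝ, C = 4 * ((CI I * Real.exp 1) ^ I + 4) := ⟨_, rfl⟩
  obtain ⟨b2, hb2⟩ : ∃ b : ℝ, b = (1 + Real.log (4 * (CI I + 1))) / (3 * c) := ⟨_, rfl⟩
  obtain ⟨b3, hb3⟩ : ∃ b : ℝ, b = 156 * (Ch * (3 * q + 1) + 1) / c := ⟨_, rfl⟩
  obtain ⟨b4, hb4⟩ : ∃ b : ℝ, b = Real.log C6 := ⟨_, rfl⟩
  obtain ⟨b5, hb5⟩ : ∃ b : ℝ, b = Real.log q := ⟨_, rfl⟩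
  refine ⟨8 + |b2| + |b3| + |b4| + |b5|, C4 * (3 * q + 1), by positivity, ?_⟩
  intro k0 α L hB hly hL hlog2 hL2k S hS
  have a2 := abs_nonneg b2
  have a3 := abs_nonneg b3
  have a4 := abs_nonneg b4
  have a5 := abs_nonneg b5
  have c2 := le_abs_self b2
  have c3 := le_abs_self b3
  have c4 := le_abs_self b4
  have c5 := le_abs_self b5
  refine local_points_aux hc hc8 hε hε1 hq1 hq48 hqε hs hs0 hl1 hl2 hl3 hl1p hl2p hl3p hCh hChq
    hCh1 hC3 hC3p hC4 hC4p hC1 hIc hC6 rfl (by linarith) ?_ ?_ (by linarith) (by linarith)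
    hly hL hlog2 hL2k S hS
  · have h1 : b2 ≤ Real.log k0 := by linarith
    rw [hb2, div_le_iff₀ (by positivity)] at h1
    linarith
  · have h1 : b3 ≤ Real.log k0 := by linarith
    rw [hb3, div_le_iff₀ hc] at h1
    exact h1

end Pool.Helper53.SG
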