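import Pool.Agent.Helper53.SG.ChainEx

/-!
# The refined bound: representations with `n ≤ e^X`
-/

namespace Pool.Helper53.SG

open Filter Topology

/-- Block bounds summed from `K1` on. -/
theorem range_bound {ε : ℝ} (hε : 0 < ε) {P : ℕ → ℕ → Prop} {C : ℝ} (hC : 0 < C)
    (hP : ∀ a k, P a k → (k:ℝ) ≤ 2 * Real.log a)
    (hb : ∀ a K : ℕ, 1 ≤ K → Real.log a ≤ (K:ℝ) ^ 2 →
      ∀ S : Finset ℕ, (∀ k ∈ S, K ≤ k ∧ k < 2 * K ∧ P a k) →
        (S.card : ℝ) ≤ C * ((K:ℝ) ^ ε * (Real.log a / K)))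
    {a : ℕ} (ha : 2 ≤ a) {K1 : ℕ} (hK1pos : 1 ≤ K1) (hAK : Real.log a ≤ (K1:ℝ) ^ 2)
    {S : Finset ℕ} (hS : ∀ k ∈ S, P a k ∧ K1 ≤ k) :
    (S.card : ℝ) ≤ 2 * C * ((2 * Real.log a) ^ ε * (Real.log a / K1)) := by
  classical
  obtain ⟨A, hA⟩ : ∃ A : ℝ, A = Real.log a := ⟨_, rfl⟩
  have hA2 : 1 / 2 ≤ A := by rw [hA]; exact half_le_log ha
  have hA0 : 0 < A := by linarith
  rw [← hA] at hAK ⊢
  have hK1r : (0:ℝ) < K1 := by exact_mod_cast hK1pos
  have hblk : ∀ K, K1 ≤ K → ((S.filter (fun k => K ≤ k ∧ k < 2 * K)).card : ℝ) ≤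
      (C * ((2 * A) ^ ε * A)) / K := by
    intro K hK
    have hKr : (0:ℝ) < K := by
      have : 0 < K := by omega
      exact_mod_cast this
    have hKK : (K1:ℝ) ≤ K := by exact_mod_cast hK
    rcases (S.filter (fun k => K ≤ k ∧ k < 2 * K)).eq_empty_or_nonempty with he | ⟨k0, hk0⟩
    · rw [he, Finset.card_empty]; push_cast; positivity
    rw [Finset.mem_filter] at hk0
    have h1 := hP a k0 (hS k0 hk0.1).1
    have h2 : (K:ℝ) ≤ 2 * A := by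
      rw [hA]
      refine le_trans ?_ h1
      exact_mod_cast hk0.2.1
    have h3 := hb a K (by omega) (by
      rw [← hA]
      refine hAK.trans ?_
      gcongr) (S.filter (fun k => K ≤ k ∧ k < 2 * K)) (by
        intro k hk
        rw [Finset.mem_filter] at hk
        exact ⟨hk.2.1, hk.2.2, (hS k hk.1).1⟩)
    refine h3.trans ?_
    rw [← hA]
    calc C * ((K:ℝ) ^ ε * (A / K)) ≤ C * ((2 * A) ^ ε * (A / K)) := by gcongr
      _ = _ := by ring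
  obtain ⟨J, hJ⟩ : ∃ J : ℕ, J = ⌈2 * A⌉₊ := ⟨_, rfl⟩
  have hJge : 2 * A ≤ J := by rw [hJ]; exact Nat.le_ceil _
  have hsum := dyadic_sum S hK1pos hblk J
  have hsub : S ⊆ S.filter (fun k => K1 ≤ k ∧ k < 2 ^ J * K1) := by
    intro k hk
    rw [Finset.mem_filter]
    refine ⟨hk, (hS k hk).2, ?_⟩
    have h1 := hP a k (hS k hk).1
    rw [← hA] at h1
    have h2 : (k:ℝ) ≤ J := h1.trans hJge
    have h3 : k ≤ J := by exact_mod_cast h2
    have h4 : J < 2 ^ J := Nat.lt_two_pow_self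
    calc k ≤ J := h3
      _ < 2 ^ J := h4
      _ ≤ 2 ^ J * K1 := Nat.le_mul_of_pos_right _ hK1pos
  have hc1 : (S.card : ℝ) ≤ ((S.filter (fun k => K1 ≤ k ∧ k < 2 ^ J * K1)).card : ℝ) := by
    exact_mod_cast Finset.card_le_card hsub
  refine hc1.trans (hsum.trans ?_)
  have h1 : 2 * (C * ((2 * A) ^ ε * A)) / K1 * (1 - (1/2) ^ J) ≤
      2 * (C * ((2 * A) ^ ε * A)) / K1 * 1 := by
    gcongr
    have : (0:ℝ) ≤ (1/2) ^ J := by positivity
    linarith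
  refine h1.trans (le_of_eq ?_)
  ring

/-- A binomial coefficient is at most `n^k`. -/
lemma log_choose_le {n k a : ℕ} (hk : 1 ≤ k) (hn : 2 * k ≤ n) (ha : n.choose k = a) :
    Real.log a ≤ k * Real.log n := by
  have h1 : n.choose k ≤ n ^ k := Nat.choose_le_pow n k
  rw [ha] at h1
  have ha0 : 0 < a := by rw [← ha]; exact Nat.choose_pos (by omega)
  have h2 : (a:ℝ) ≤ (n:ℝ) ^ k := by exact_mod_cast h1
  have h3 := Real.log_le_log (by exact_mod_cast ha0) h2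
  rwa [Real.log_pow] at h3

/-- **Refined bound.** -/
theorem refined {ε : ℝ} (hε : 0 < ε) : ∃ C : ℝ, 0 < C ∧ ∀ a : ℕ, 2 ≤ a → ∀ X : ℝ, 1 ≤ X →
    {n : ℕ | (n:ℝ) ≤ Real.exp X ∧ ∃ k : ℕ, 1 ≤ k ∧ 2 * k ≤ n ∧ n.choose k = a}.Finite ∧
    ({n : ℕ | (n:ℝ) ≤ Real.exp X ∧ ∃ k : ℕ, 1 ≤ k ∧ 2 * k ≤ n ∧ n.choose k = a}.ncard : ℝ) ≤
      C * (min X (Real.sqrt (Real.log a)) * (Real.log a) ^ ε) := by
  classical
  have hε' : 0 < min ε (1/2) := lt_min hε (by norm_num)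
  obtain ⟨e, he⟩ : ∃ e : ℝ, e = min ε (1/2) := ⟨_, rfl⟩
  have hee : e ≤ ε := by rw [he]; exact min_le_left _ _
  have he2 : e ≤ 1 / 2 := by rw [he]; exact min_le_right _ _
  rw [← he] at hε'
  obtain ⟨X1, C1, hC1, hloc⟩ := near_of_chain chain_hyp hε' he2
  obtain ⟨C2, hC2, hb2⟩ := near_block hε' he2 hC1 hloc
  obtain ⟨C3, hC3, hb3⟩ := block one_pos le_rfl hε' he2
  obtain ⟨C4, hC4, h4⟩ := all_reps hε
  refine ⟨C4 + (2 * C2 + 2 * C3) * ((2:ℝ) ^ e * (2:ℝ) ^ (ε - e)), by positivity, ?_⟩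
  intro a ha X hX
  have hA2 := half_le_log ha
  obtain ⟨A, hA⟩ : ∃ A : ℝ, A = Real.log a := ⟨_, rfl⟩
  have hA0 : 0 < A := by rw [hA]; linarith
  have hsq : 0 < Real.sqrt A := Real.sqrt_pos.2 hA0
  obtain ⟨h4a, h4b⟩ := h4 a ha
  have hsub : {n : ℕ | (n:ℝ) ≤ Real.exp X ∧ ∃ k : ℕ, 1 ≤ k ∧ 2 * k ≤ n ∧ n.choose k = a} ⊆
      reps a := fun n hn => hn.2
  rw [← hA] at hA2 h4b ⊢
  have hcpos : 0 ≤ (2 * C2 + 2 * C3) * ((2:ℝ) ^ e * (2:ℝ) ^ (ε - e)) := by positivity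
  rcases le_or_gt (Real.sqrt A) X with h | h
  · refine ⟨h4a.subset hsub, ?_⟩
    have h1 : ({n : ℕ | (n:ℝ) ≤ Real.exp X ∧ ∃ k : ℕ, 1 ≤ k ∧ 2 * k ≤ n ∧
        n.choose k = a}.ncard : ℝ) ≤ ((reps a).ncard : ℝ) := by
      exact_mod_cast Set.ncard_le_ncard hsub h4a
    refine h1.trans (h4b.trans ?_)
    rw [min_eq_right h]
    have e1 : A ^ (1 / 2 + ε) = Real.sqrt A * A ^ ε := by
      rw [Real.sqrt_eq_rpow, ← Real.rpow_add hA0]
    rw [e1]
    have : 0 ≤ Real.sqrt A * A ^ ε := by positivity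
    gcongr
    linarith
  · rw [min_eq_left h.le]
    obtain ⟨K1, hK1⟩ : ∃ K : ℕ, K = ⌈A / X⌉₊ := ⟨_, rfl⟩
    have hX0 : 0 < X := by linarith
    have hAX : Real.sqrt A ≤ A / X := by
      rw [le_div_iff₀ hX0]
      calc Real.sqrt A * X ≤ Real.sqrt A * Real.sqrt A := by gcongr
        _ = A := Real.mul_self_sqrt hA0.le
    have hK1ge : A / X ≤ K1 := by rw [hK1]; exact Nat.le_ceil _
    have hK1r : (0:ℝ) < K1 := by linarith
    have hK1pos : 1 ≤ K1 := by exact_mod_cast hK1r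
    have hAK : A ≤ (K1:ℝ) ^ 2 := by
      calc A = Real.sqrt A ^ 2 := (Real.sq_sqrt hA0.le).symm
        _ ≤ _ := by
            have := hAX.trans hK1ge
            gcongr
    have hAK2 : A / K1 ≤ X := by
      rw [div_le_iff₀ hX0] at hK1ge
      rw [div_le_iff₀ hK1r]; linarith
    have hpow : (2 * A) ^ e ≤ (2:ℝ) ^ e * (2:ℝ) ^ (ε - e) * A ^ ε := by
      rw [Real.mul_rpow (by norm_num) hA0.le, mul_assoc]
      have := rpow_shift hA2 hee
      gcongr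
    have hbd : ∀ C' : ℝ, 0 < C' → 2 * C' * ((2 * A) ^ e * (A / K1)) ≤
        2 * C' * ((2:ℝ) ^ e * (2:ℝ) ^ (ε - e)) * (X * A ^ ε) := by
      intro C' hC'
      calc 2 * C' * ((2 * A) ^ e * (A / K1)) ≤
            2 * C' * (((2:ℝ) ^ e * (2:ℝ) ^ (ε - e) * A ^ ε) * X) := by gcongr
        _ = _ := by ring
    refine ncard_le (a := a) (Q := fun k => (NSol a k ∧ K1 ≤ k) ∨ (Sol 1 a k ∧ K1 ≤ k)) ?_ ?_
    · rintro n ⟨hnX, k, hk, hn, hna⟩
      refine ⟨k, hk, by omega, hna, ?_⟩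
      have hnr : (0:ℝ) < n := by exact_mod_cast (by omega : 0 < n)
      have hlogn : Real.log n ≤ X := by
        rw [Real.log_le_iff_le_exp hnr]; exact hnX
      have hkr : (0:ℝ) ≤ k := Nat.cast_nonneg k
      have hkK : K1 ≤ k := by
        rw [hK1, Nat.ceil_le, div_le_iff₀ hX0]
        have h5 := log_choose_le hk hn hna
        rw [← hA] at h5
        refine h5.trans ?_
        gcongr
      rcases le_total n (k ^ 2) with h6 | h6
      · exact Or.inl ⟨⟨hk, n, hn, h6, hna⟩, hkK⟩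
      · refine Or.inr ⟨⟨hk, n, hn, ?_, hna⟩, hkK⟩
        have h5 : (k:ℝ) ^ ((1:ℝ) + 1) = ((k ^ 2 : ℕ) : ℝ) := by
          rw [show (1:ℝ) + 1 = ((2 : ℕ) : ℝ) by norm_num, Real.rpow_natCast]
          push_cast; rfl
        rw [h5]
        exact_mod_cast h6
    · intro S hS
      have h5 : S ⊆ S.filter (fun k => NSol a k ∧ K1 ≤ k) ∪
          S.filter (fun k => Sol 1 a k ∧ K1 ≤ k) := by
        intro k hk
        rw [Finset.mem_union, Finset.mem_filter, Finset.mem_filter]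
        rcases hS k hk with h | h
        · exact Or.inl ⟨hk, h⟩
        · exact Or.inr ⟨hk, h⟩
      have h6 := (Finset.card_le_card h5).trans (Finset.card_union_le _ _)
      have h7 := range_bound hε' hC2 (P := NSol) (by
        rintro a k ⟨hk, n, hn, _, hna⟩
        exact le_two_log hk hn hna) hb2 ha hK1pos (by rw [← hA]; exact hAK)
        (S := S.filter (fun k => NSol a k ∧ K1 ≤ k)) (fun k hk => (Finset.mem_filter.1 hk).2)
      have h8 := range_bound hε' hC3 (P := Sol 1) (by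
        rintro a k ⟨hk, n, hn, _, hna⟩
        exact le_two_log hk hn hna) hb3 ha hK1pos (by rw [← hA]; exact hAK)
        (S := S.filter (fun k => Sol 1 a k ∧ K1 ≤ k)) (fun k hk => (Finset.mem_filter.1 hk).2)
      rw [← hA] at h7 h8
      have h9 : (S.card : ℝ) ≤ ((S.filter (fun k => NSol a k ∧ K1 ≤ k)).card : ℝ) +
          ((S.filter (fun k => Sol 1 a k ∧ K1 ≤ k)).card : ℝ) := by exact_mod_cast h6
      have h10 := h7.trans (hbd C2 hC2)
      have h11 := h8.trans (hbd C3 hC3)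
      have h12 : 0 ≤ C4 * (X * A ^ ε) := by positivity
      have e1 : (C4 + (2 * C2 + 2 * C3) * ((2:ℝ) ^ e * (2:ℝ) ^ (ε - e))) * (X * A ^ ε) =
          C4 * (X * A ^ ε) + 2 * C2 * ((2:ℝ) ^ e * (2:ℝ) ^ (ε - e)) * (X * A ^ ε) +
          2 * C3 * ((2:ℝ) ^ e * (2:ℝ) ^ (ε - e)) * (X * A ^ ε) := by ring
      rw [e1]
      linarith

end Pool.Helper53.SG
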