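import Mathlib

/-!
# Schwarz lemma with several zeros, growth of polynomials
-/

namespace Pool.Helper53.SG

open Complex Metric Set Polynomial

lemma factor_zeros {c : ℂ} {R : ℝ} {f : ℂ → ℂ} (hf : DifferentiableOn ℂ f (ball c R))
    (s : Finset ℂ) : (∀ x ∈ s, x ∈ ball c R ∧ f x = 0) →
    ∃ g : ℂ → ℂ, DifferentiableOn ℂ g (ball c R) ∧
      ∀ z, f z = (∏ x ∈ s, (z - x)) * g z := by
  classical
  induction s using Finset.induction_on with
  | empty => intro _; exact ⟨f, hf, fun z => by simp⟩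
  | insert x s hx ih =>
    intro h
    obtain ⟨g, hg, hfg⟩ := ih (fun y hy => h y (Finset.mem_insert_of_mem hy))
    obtain ⟨hxb, hfx⟩ := h x (Finset.mem_insert_self _ _)
    have hprod : (∏ y ∈ s, (x - y)) ≠ 0 := by
      rw [Finset.prod_ne_zero_iff]
      intro y hy
      rw [sub_ne_zero]
      rintro rfl
      exact hx hy
    have hgx : g x = 0 := by
      have := hfg x
      rw [hfx] at this
      rcases mul_eq_zero.1 this.symm with h1 | h1
      · exact absurd h1 hprod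
      · exact h1
    refine ⟨dslope g x, (Complex.differentiableOn_dslope (isOpen_ball.mem_nhds hxb)).2 hg, ?_⟩
    intro z
    rw [Finset.prod_insert hx, hfg z]
    have : g z = (z - x) * dslope g x z := by
      have := sub_smul_dslope g x z
      rw [smul_eq_mul, hgx, sub_zero] at this
      exact this.symm
    rw [this]; ring

/-- Schwarz lemma with several zeros. -/
theorem schwarz_zeros {c : ℂ} {R R1 M ρ B : ℝ} (hR : 0 < R) (hRR : R < R1) {f : ℂ → ℂ}
    (hf : DifferentiableOn ℂ f (ball c R1)) (s : Finset ℂ)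
    (hs : ∀ x ∈ s, ‖x - c‖ ≤ M ∧ f x = 0) (hM : M < R)
    (hB : ∀ z, ‖z - c‖ ≤ R → ‖f z‖ ≤ B) {z : ℂ} (hz : ‖z - c‖ ≤ ρ) (hρ : ρ ≤ R) :
    ‖f z‖ ≤ ((ρ + M) / (R - M)) ^ s.card * B := by
  obtain ⟨g, hg, hfg⟩ := factor_zeros hf s (fun x hx => by
    refine ⟨?_, (hs x hx).2⟩
    rw [mem_ball, dist_eq_norm]
    exact lt_of_le_of_lt (hs x hx).1 (hM.trans hRR))
  have hB0 : 0 ≤ B := le_trans (norm_nonneg _) (hB c (by simpa using hR.le))
  have hRM : 0 < R - M := by linarith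
  have hprodlow : ∀ w : ℂ, ‖w - c‖ = R → (R - M) ^ s.card ≤ ‖∏ x ∈ s, (w - x)‖ := by
    intro w hw
    rw [norm_prod, ← Finset.prod_const]
    refine Finset.prod_le_prod (fun _ _ => hRM.le) (fun x hx => ?_)
    have h1 := (hs x hx).1
    have h2 : ‖w - c‖ ≤ ‖w - x‖ + ‖x - c‖ := by
      have : w - c = (w - x) + (x - c) := by ring
      rw [this]; exact norm_add_le _ _
    linarith
  have hsph : ∀ w ∈ frontier (ball c R), ‖g w‖ ≤ B / (R - M) ^ s.card := by
    intro w hw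
    rw [frontier_ball c hR.ne', mem_sphere, dist_eq_norm] at hw
    have h1 := hprodlow w hw
    have h2 := hB w hw.le
    rw [hfg w, norm_mul] at h2
    rw [le_div_iff₀ (pow_pos hRM _)]
    calc ‖g w‖ * (R - M) ^ s.card ≤ ‖g w‖ * ‖∏ x ∈ s, (w - x)‖ := by gcongr
      _ = ‖∏ x ∈ s, (w - x)‖ * ‖g w‖ := mul_comm _ _
      _ ≤ B := h2
  have hdc : DiffContOnCl ℂ g (ball c R) := by
    refine ⟨hg.mono (ball_subset_ball hRR.le), ?_⟩
    rw [closure_ball c hR.ne']
    exact hg.continuousOn.mono (closedBall_subset_ball hRR)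
  have hgz : ‖g z‖ ≤ B / (R - M) ^ s.card := by
    refine norm_le_of_forall_mem_frontier_norm_le isBounded_ball hdc hsph ?_
    rw [closure_ball c hR.ne', mem_closedBall, dist_eq_norm]
    exact hz.trans hρ
  have hup : ‖∏ x ∈ s, (z - x)‖ ≤ (ρ + M) ^ s.card := by
    rw [norm_prod, ← Finset.prod_const]
    refine Finset.prod_le_prod (fun _ _ => norm_nonneg _) (fun x hx => ?_)
    have h1 := (hs x hx).1
    have h2 : ‖z - x‖ ≤ ‖z - c‖ + ‖x - c‖ := by
      have : z - x = (z - c) - (x - c) := by ring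
      rw [this]; exact norm_sub_le _ _
    linarith
  rw [hfg z, norm_mul, div_pow]
  calc ‖∏ x ∈ s, (z - x)‖ * ‖g z‖ ≤ (ρ + M) ^ s.card * (B / (R - M) ^ s.card) := by
        refine mul_le_mul hup hgz (norm_nonneg _) ?_
        exact le_trans (norm_nonneg _) hup
    _ = (ρ + M) ^ s.card / (R - M) ^ s.card * B := by ring

/-- Growth of a polynomial outside a disc. -/
lemma poly_growth0 {D : ℕ} {P : ℂ[X]} (hP : P.natDegree ≤ D) {r m : ℝ} (hr : 0 < r)
    (hm : ∀ w : ℂ, ‖w‖ ≤ r → ‖P.eval w‖ ≤ m) {z : ℂ} (hz : r ≤ ‖z‖) :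
    ‖P.eval z‖ ≤ m * (‖z‖ / r) ^ D := by
  have hm0 : 0 ≤ m := le_trans (norm_nonneg _) (hm 0 (by simpa using hr.le))
  set f : ℂ → ℂ := fun w => (P.reflect D).eval w with hf
  have hfd : Differentiable ℂ f := (P.reflect D).differentiable
  have key : ∀ w : ℂ, w ≠ 0 → f w⁻¹ * w ^ D = P.eval w := by
    intro w hw
    let _ := invertibleOfNonzero hw
    have := eval₂_reflect_mul_pow (RingHom.id ℂ) w D P hP
    rw [invOf_eq_inv] at this
    simp only [hf, eval]
    exact this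
  have hzpos : 0 < ‖z‖ := lt_of_lt_of_le hr hz
  have hz0 : z ≠ 0 := norm_pos_iff.1 hzpos
  have hrinv : (0:ℝ) < r⁻¹ := by positivity
  have hsph : ∀ w ∈ frontier (ball (0:ℂ) r⁻¹), ‖f w‖ ≤ m * r⁻¹ ^ D := by
    intro w hw
    rw [frontier_ball _ hrinv.ne', mem_sphere, dist_zero_right] at hw
    have hw0 : w ≠ 0 := by
      rw [← norm_pos_iff, hw]; exact hrinv
    have hwi : ‖w⁻¹‖ = r := by rw [norm_inv, hw, inv_inv]
    have h1 := key w⁻¹ (inv_ne_zero hw0)
    rw [inv_inv] at h1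
    have h2 := hm w⁻¹ hwi.le
    rw [← h1, norm_mul, norm_pow, hwi] at h2
    have h3 : 0 < r ^ D := by positivity
    rw [inv_pow]
    rw [← div_eq_mul_inv, le_div_iff₀ h3]
    exact h2
  have hfz : ‖f z⁻¹‖ ≤ m * r⁻¹ ^ D := by
    refine norm_le_of_forall_mem_frontier_norm_le isBounded_ball hfd.diffContOnCl hsph ?_
    rw [closure_ball _ hrinv.ne', mem_closedBall, dist_zero_right, norm_inv]
    exact inv_anti₀ hr hz
  rw [← key z hz0, norm_mul, norm_pow]
  calc ‖f z⁻¹‖ * ‖z‖ ^ D ≤ (m * r⁻¹ ^ D) * ‖z‖ ^ D := by gcongr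
    _ = m * (‖z‖ / r) ^ D := by rw [div_eq_mul_inv, mul_pow]; ring

lemma poly_growth {D : ℕ} {P : ℂ[X]} (hP : P.natDegree ≤ D) {x : ℂ} {r ρ m : ℝ} (hr : 0 < r)
    (hrρ : r ≤ ρ) (hm : ∀ w : ℂ, ‖w - x‖ ≤ r → ‖P.eval w‖ ≤ m) {z : ℂ} (hz : ‖z - x‖ ≤ ρ) :
    ‖P.eval z‖ ≤ m * (ρ / r) ^ D := by
  have hm0 : 0 ≤ m := le_trans (norm_nonneg _) (hm x (by simpa using hr.le))
  rcases le_total r ‖z - x‖ with h | h
  · set Q : ℂ[X] := P.comp (X + C x) with hQ
    have hQd : Q.natDegree ≤ D := by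
      rw [hQ, natDegree_comp, natDegree_X_add_C, mul_one]; exact hP
    have hQe : ∀ w : ℂ, Q.eval w = P.eval (w + x) := by
      intro w; simp [hQ, eval_comp]
    have h1 := poly_growth0 hQd hr (m := m) (fun w hw => by
      rw [hQe]
      apply hm
      simpa using hw) (z := z - x) h
    rw [hQe, sub_add_cancel] at h1
    refine h1.trans ?_
    gcongr
  · refine (hm z h).trans ?_
    have : (1:ℝ) ≤ (ρ / r) ^ D := one_le_pow₀ (by rwa [one_le_div hr])
    nlinarith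

end Pool.Helper53.SG
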