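import Pool.Agent.Helper53.SG.Count

/-!
# The total count away from the diagonal
-/

namespace Pool.Helper53.SG

open Filter Topology

lemma rpow_shift {A e1 e2 : ℝ} (hA : 1 / 2 ≤ A) (h : e1 ≤ e2) :
    A ^ e1 ≤ (2:ℝ) ^ (e2 - e1) * A ^ e2 := by
  have hA0 : 0 < A := by linarith
  have h1 : 1 ≤ (2 * A) ^ (e2 - e1) := Real.one_le_rpow (by linarith) (by linarith)
  calc A ^ e1 = 1 * A ^ e1 := by ring
    _ ≤ (2 * A) ^ (e2 - e1) * A ^ e1 := by gcongr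
    _ = (2:ℝ) ^ (e2 - e1) * (A ^ (e2 - e1) * A ^ e1) := by
        rw [Real.mul_rpow (by norm_num) hA0.le]; ring
    _ = _ := by rw [← Real.rpow_add hA0]; congr 2; ring

lemma half_le_log {a : ℕ} (ha : 2 ≤ a) : 1 / 2 ≤ Real.log a := by
  have h1 : (2:ℝ) ≤ a := by exact_mod_cast ha
  have h2 := Real.log_le_log (by norm_num) h1
  have h3 := Real.log_two_gt_d9
  linarith

/-- Assembling a block bound into a total bound. -/
theorem assemble {ε : ℝ} (hε : 0 < ε) {P : ℕ → ℕ → Prop} {C : ℝ} (hC : 0 < C)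
    (hP : ∀ a k, P a k → (k:ℝ) ≤ 2 * Real.log a)
    (hb : ∀ a K : ℕ, 1 ≤ K → Real.log a ≤ (K:ℝ) ^ 2 →
      ∀ S : Finset ℕ, (∀ k ∈ S, K ≤ k ∧ k < 2 * K ∧ P a k) →
        (S.card : ℝ) ≤ C * ((K:ℝ) ^ ε * (Real.log a / K))) :
    ∃ C' : ℝ, 0 < C' ∧ ∀ a : ℕ, 2 ≤ a → ∀ S : Finset ℕ, (∀ k ∈ S, P a k) →
      (S.card : ℝ) ≤ C' * (Real.log a) ^ (1 / 2 + ε) := by
  classical
  refine ⟨(2:ℝ) ^ ((1 / 2 + ε) - 1/2) + (2:ℝ) ^ ((1 / 2 + ε) - 0) + 2 * C * (2:ℝ) ^ ε,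
    by positivity, ?_⟩
  intro a ha S hS
  obtain ⟨A, hA⟩ : ∃ A : ℝ, A = Real.log a := ⟨_, rfl⟩
  have hA2 : 1 / 2 ≤ A := by rw [hA]; exact half_le_log ha
  have hA0 : 0 < A := by linarith
  rw [← hA]
  obtain ⟨K1, hK1⟩ : ∃ K : ℕ, K = ⌈Real.sqrt A⌉₊ := ⟨_, rfl⟩
  have hsq : 0 < Real.sqrt A := Real.sqrt_pos.2 hA0
  have hK1pos : 1 ≤ K1 := by rw [hK1]; exact Nat.one_le_ceil_iff.2 hsq
  have hK1ge : Real.sqrt A ≤ K1 := by rw [hK1]; exact Nat.le_ceil _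
  have hK1lt : (K1:ℝ) < Real.sqrt A + 1 := by rw [hK1]; exact Nat.ceil_lt_add_one hsq.le
  have hK1r : (0:ℝ) < K1 := by exact_mod_cast hK1pos
  have hAK : A ≤ (K1:ℝ) ^ 2 := by
    calc A = Real.sqrt A ^ 2 := (Real.sq_sqrt hA0.le).symm
      _ ≤ _ := by gcongr
  have hblk : ∀ K, K1 ≤ K → ((S.filter (fun k => K ≤ k ∧ k < 2 * K)).card : ℝ) ≤
      (C * ((2 * A) ^ ε * A)) / K := by
    intro K hK
    have hKr : (0:ℝ) < K := by
      have : 0 < K := by omega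
      exact_mod_cast this
    have hKK : (K1:ℝ) ≤ K := by exact_mod_cast hK
    rcases (S.filter (fun k => K ≤ k ∧ k < 2 * K)).eq_empty_or_nonempty with he | ⟨k0, hk0⟩
    · rw [he, Finset.card_empty]; push_cast; positivity
    rw [Finset.mem_filter] at hk0
    have h1 := hP a k0 (hS k0 hk0.1)
    have h2 : (K:ℝ) ≤ 2 * A := by
      rw [hA]
      refine le_trans ?_ h1
      exact_mod_cast hk0.2.1
    have h3 := hb a K (by omega) (by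
      rw [← hA]
      refine hAK.trans ?_
      gcongr) (S.filter (fun k => K ≤ k ∧ k < 2 * K)) (by
        intro k hk
        rw [Finset.mem_filter] at hk
        exact ⟨hk.2.1, hk.2.2, hS k hk.1⟩)
    refine h3.trans ?_
    rw [← hA]
    calc C * ((K:ℝ) ^ ε * (A / K)) ≤ C * ((2 * A) ^ ε * (A / K)) := by gcongr
      _ = _ := by ring
  obtain ⟨J, hJ⟩ : ∃ J : ℕ, J = ⌈2 * A⌉₊ := ⟨_, rfl⟩
  have hJge : 2 * A ≤ J := by rw [hJ]; exact Nat.le_ceil _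
  have hsum := dyadic_sum S hK1pos hblk J
  have hsub : S ⊆ Finset.range K1 ∪ S.filter (fun k => K1 ≤ k ∧ k < 2 ^ J * K1) := by
    intro k hk
    rw [Finset.mem_union, Finset.mem_range, Finset.mem_filter]
    rcases lt_or_ge k K1 with g | g
    · exact Or.inl g
    · refine Or.inr ⟨hk, g, ?_⟩
      have h1 := hP a k (hS k hk)
      rw [← hA] at h1
      have h2 : (k:ℝ) ≤ J := h1.trans hJge
      have h3 : k ≤ J := by exact_mod_cast h2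
      have h4 : J < 2 ^ J := Nat.lt_two_pow_self
      calc k ≤ J := h3
        _ < 2 ^ J := h4
        _ ≤ 2 ^ J * K1 := Nat.le_mul_of_pos_right _ hK1pos
  have hc1 := (Finset.card_le_card hsub).trans (Finset.card_union_le _ _)
  rw [Finset.card_range] at hc1
  have hc2 : (S.card : ℝ) ≤ K1 + ((S.filter (fun k => K1 ≤ k ∧ k < 2 ^ J * K1)).card : ℝ) := by
    exact_mod_cast hc1
  have hX : 2 * (C * ((2 * A) ^ ε * A)) / K1 * (1 - (1/2) ^ J) ≤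
      2 * C * ((2 * A) ^ ε * Real.sqrt A) := by
    have h1 : 2 * (C * ((2 * A) ^ ε * A)) / K1 * (1 - (1/2) ^ J) ≤
        2 * (C * ((2 * A) ^ ε * A)) / K1 * 1 := by
      gcongr
      have : (0:ℝ) ≤ (1/2) ^ J := by positivity
      linarith
    refine h1.trans ?_
    have h2 : A / K1 ≤ Real.sqrt A := by
      rw [div_le_iff₀ hK1r]
      calc A = Real.sqrt A * Real.sqrt A := (Real.mul_self_sqrt hA0.le).symm
        _ ≤ _ := by gcongr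
    calc 2 * (C * ((2 * A) ^ ε * A)) / K1 * 1 = 2 * C * ((2 * A) ^ ε * (A / K1)) := by ring
      _ ≤ _ := by gcongr
  have e1 : Real.sqrt A ≤ (2:ℝ) ^ ((1 / 2 + ε) - 1/2) * A ^ (1 / 2 + ε) := by
    rw [Real.sqrt_eq_rpow]
    exact rpow_shift hA2 (by linarith)
  have e2 : (1:ℝ) ≤ (2:ℝ) ^ ((1 / 2 + ε) - 0) * A ^ (1 / 2 + ε) := by
    have := rpow_shift (e1 := 0) (e2 := 1 / 2 + ε) hA2 (by positivity)
    rwa [Real.rpow_zero] at this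
  have e3 : (2 * A) ^ ε * Real.sqrt A = (2:ℝ) ^ ε * A ^ (1 / 2 + ε) := by
    rw [Real.mul_rpow (by norm_num) hA0.le, Real.sqrt_eq_rpow, mul_assoc, ← Real.rpow_add hA0]
    congr 2; ring
  rw [e3] at hX
  have e4 : ((2:ℝ) ^ ((1 / 2 + ε) - 1/2) + (2:ℝ) ^ ((1 / 2 + ε) - 0) + 2 * C * (2:ℝ) ^ ε) *
      A ^ (1 / 2 + ε) = (2:ℝ) ^ ((1 / 2 + ε) - 1/2) * A ^ (1 / 2 + ε) +
      (2:ℝ) ^ ((1 / 2 + ε) - 0) * A ^ (1 / 2 + ε) + 2 * C * ((2:ℝ) ^ ε * A ^ (1 / 2 + ε)) := by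
    ring
  rw [e4]
  linarith

/-- Enlarging the exponent. -/
lemma exponent_mono {e1 e2 : ℝ} (h : e1 ≤ e2) {P : ℕ → ℕ → Prop}
    (hb : ∃ C : ℝ, 0 < C ∧ ∀ a : ℕ, 2 ≤ a → ∀ S : Finset ℕ, (∀ k ∈ S, P a k) →
      (S.card : ℝ) ≤ C * (Real.log a) ^ e1) :
    ∃ C : ℝ, 0 < C ∧ ∀ a : ℕ, 2 ≤ a → ∀ S : Finset ℕ, (∀ k ∈ S, P a k) →
      (S.card : ℝ) ≤ C * (Real.log a) ^ e2 := by
  obtain ⟨C, hC, hC2⟩ := hb
  refine ⟨C * (2:ℝ) ^ (e2 - e1), by positivity, ?_⟩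
  intro a ha S hS
  refine (hC2 a ha S hS).trans ?_
  rw [mul_assoc]
  have := rpow_shift (half_le_log ha) h
  gcongr

/-- **Main theorem away from the diagonal.** -/
theorem total {δ ε : ℝ} (hδ : 0 < δ) (hε : 0 < ε) :
    ∃ C : ℝ, 0 < C ∧ ∀ a : ℕ, 2 ≤ a → ∀ S : Finset ℕ, (∀ k ∈ S, Sol δ a k) →
      (S.card : ℝ) ≤ C * (Real.log a) ^ (1 / 2 + ε) := by
  have hδ' : 0 < min δ 1 := lt_min hδ one_pos
  have hε' : 0 < min ε (1/2) := lt_min hε (by norm_num)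
  obtain ⟨C, hC, hb⟩ := block hδ' (min_le_right _ _) hε' (min_le_right _ _)
  have h1 := assemble (P := Sol (min δ 1)) hε' hC (by
    rintro a k ⟨hk, n, hn, _, hna⟩
    exact le_two_log hk hn hna) hb
  have h2 := exponent_mono (e2 := 1 / 2 + ε) (by
    have := min_le_left ε (1/2)
    linarith) h1
  obtain ⟨C', hC', hb'⟩ := h2
  refine ⟨C', hC', fun a ha S hS => hb' a ha S ?_⟩
  intro k hk
  obtain ⟨hk1, n, hn, hn2, hna⟩ := hS k hk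
  refine ⟨hk1, n, hn, ?_, hna⟩
  refine le_trans ?_ hn2
  apply Real.rpow_le_rpow_of_exponent_le (by exact_mod_cast hk1)
  have := min_le_left δ 1
  linarith

lemma choose_strict {k n n' : ℕ} (hk : 1 ≤ k) (hkn : k ≤ n) (h : n < n') :
    n.choose k < n'.choose k := by
  obtain ⟨j, rfl⟩ := Nat.exists_eq_add_of_le' hk
  have h1 : (n + 1).choose (j + 1) = n.choose j + n.choose (j + 1) := Nat.choose_succ_succ _ _
  have h2 : 0 < n.choose j := Nat.choose_pos (by omega)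
  have h3 := Nat.choose_le_choose (j + 1) (show n + 1 ≤ n' from h)
  omega

lemma choose_inj {k n n' : ℕ} (hk : 1 ≤ k) (hkn : k ≤ n) (hkn' : k ≤ n')
    (he : n.choose k = n'.choose k) : n = n' := by
  rcases lt_trichotomy n n' with h | h | h
  · exact absurd he (choose_strict hk hkn h).ne
  · exact h
  · exact absurd he (choose_strict hk hkn' h).ne'

/-- From lower entries to upper entries. -/
lemma ncard_le {a : ℕ} {T : Set ℕ} {B : ℝ} {Q : ℕ → Prop}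
    (hT : ∀ n ∈ T, ∃ k : ℕ, 1 ≤ k ∧ k ≤ n ∧ n.choose k = a ∧ Q k)
    (hS : ∀ S : Finset ℕ, (∀ k ∈ S, Q k) → (S.card : ℝ) ≤ B) :
    T.Finite ∧ (T.ncard : ℝ) ≤ B := by
  classical
  have hT' : ∀ n : ℕ, ∃ k : ℕ, n ∈ T → (1 ≤ k ∧ k ≤ n ∧ n.choose k = a ∧ Q k) := by
    intro n
    by_cases h : n ∈ T
    · obtain ⟨k, hk⟩ := hT n h
      exact ⟨k, fun _ => hk⟩
    · exact ⟨0, fun h' => absurd h' h⟩
  choose κ hκ using hT'
  have hfin : ∀ F : Finset ℕ, (F : Set ℕ) ⊆ T → (F.card : ℝ) ≤ B := by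
    intro F hF
    have hinj : Set.InjOn κ (F : Set ℕ) := by
      intro n hn n' hn' he
      obtain ⟨h1, h2, h3, _⟩ := hκ n (hF hn)
      obtain ⟨g1, g2, g3, _⟩ := hκ n' (hF hn')
      rw [← he] at g1 g2 g3
      exact choose_inj h1 h2 g2 (h3.trans g3.symm)
    rw [← Finset.card_image_of_injOn hinj]
    apply hS
    intro k hk
    rw [Finset.mem_image] at hk
    obtain ⟨n, hn, rfl⟩ := hk
    exact (hκ n (hF hn)).2.2.2
  have hTf : T.Finite := by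
    by_contra hinf
    obtain ⟨t, ht1, ht2⟩ := Set.Infinite.exists_subset_card_eq hinf (⌈B⌉₊ + 1)
    have h1 := hfin t ht1
    rw [ht2] at h1
    have h2 := Nat.le_ceil B
    push_cast at h1
    linarith
  refine ⟨hTf, ?_⟩
  rw [Set.ncard_eq_toFinset_card T hTf]
  apply hfin
  intro n hn
  simpa using hn

/-- The number of representations `a = C(n,k)`, `1 ≤ k ≤ n/2`, with `n ≥ k^(1+δ)`. -/
theorem away (δ ε : ℝ) (hδ : 0 < δ) (hε : 0 < ε) : ∃ C : ℝ, 0 < C ∧ ∀ a : ℕ, 2 ≤ a →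
    {n : ℕ | ∃ k : ℕ, 1 ≤ k ∧ 2 * k ≤ n ∧ (k:ℝ) ^ (1 + δ) ≤ n ∧ n.choose k = a}.Finite ∧
    ({n : ℕ | ∃ k : ℕ, 1 ≤ k ∧ 2 * k ≤ n ∧ (k:ℝ) ^ (1 + δ) ≤ n ∧ n.choose k = a}.ncard : ℝ) ≤
      C * (Real.log a) ^ (1 / 2 + ε) := by
  obtain ⟨C, hC, h⟩ := total hδ hε
  refine ⟨C, hC, fun a ha => ?_⟩
  refine ncard_le (a := a) (Q := Sol δ a) ?_ (h a ha)
  rintro n ⟨k, hk, hn, hn2, hna⟩
  exact ⟨k, hk, by omega, hna, hk, n, hn, hn2, hna⟩

end Pool.Helper53.SG
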