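import Pool.Agent.Helper53.SG.Schwarz

/-!
# Zero estimate for sums of P_b(z) nu(z)^b
-/

namespace Pool.Helper53.SG

open Complex Metric Set Polynomial

/-- Upper envelope of exponentials: at one of `q` midpoints a single term dominates. -/
lemma envelope (q : ℕ) (N : ℕ → ℝ) (hne : ∃ b < q, 0 < N b)
    (t0 Δ : ℝ) (hΔ : 0 < Δ) : ∃ j < q, ∃ c < q, 0 < N c ∧
      ∀ b < q, N b * Real.exp (b * (t0 + (j + 1 / 2) * Δ)) ≤
        N c * Real.exp (c * (t0 + (j + 1 / 2) * Δ)) * Real.exp (-(|(b:ℝ) - c| * (Δ / 2))) := by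
  classical
  obtain ⟨b0, hb0, hNb0⟩ := hne
  have hmax : ∀ j : ℕ, ∃ c < q, ∀ b < q,
      N b * Real.exp (b * (t0 + j * Δ)) ≤ N c * Real.exp (c * (t0 + j * Δ)) := by
    intro j
    obtain ⟨c, hc, hcm⟩ := Finset.exists_max_image (Finset.range q)
      (fun b => N b * Real.exp (b * (t0 + j * Δ))) ⟨b0, Finset.mem_range.2 hb0⟩
    exact ⟨c, Finset.mem_range.1 hc, fun b hb => hcm b (Finset.mem_range.2 hb)⟩
  choose m hmq hm using hmax
  have hmpos : ∀ j, 0 < N (m j) := by
    intro j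
    have h1 := hm j b0 hb0
    have h2 : 0 < N b0 * Real.exp (b0 * (t0 + j * Δ)) := mul_pos hNb0 (Real.exp_pos _)
    have h3 : 0 < N (m j) * Real.exp (m j * (t0 + j * Δ)) := h2.trans_le h1
    exact (pos_iff_pos_of_mul_pos h3).2 (Real.exp_pos _)
  have hmono : ∀ j, m j ≤ m (j + 1) := by
    intro j
    by_contra hlt
    push Not at hlt
    have h1 := hm j (m (j+1)) (hmq _)
    have h2 := hm (j+1) (m j) (hmq _)
    have e1 : Real.exp (m j * (t0 + ((j+1 : ℕ) : ℝ) * Δ)) =
        Real.exp (m j * (t0 + j * Δ)) * Real.exp (m j * Δ) := by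
      rw [← Real.exp_add]; congr 1; push_cast; ring
    have e2 : Real.exp (m (j+1) * (t0 + ((j+1 : ℕ) : ℝ) * Δ)) =
        Real.exp (m (j+1) * (t0 + j * Δ)) * Real.exp (m (j+1) * Δ) := by
      rw [← Real.exp_add]; congr 1; push_cast; ring
    rw [e1, e2] at h2
    have hlt' : Real.exp (m (j+1) * Δ) < Real.exp (m j * Δ) := by
      apply Real.exp_lt_exp.2
      have : ((m (j+1) : ℕ) : ℝ) < m j := by exact_mod_cast hlt
      nlinarith
    have hp1 : 0 < N (m (j+1)) * Real.exp (m (j+1) * (t0 + j * Δ)) :=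
      mul_pos (hmpos _) (Real.exp_pos _)
    have hp2 : 0 < N (m j) * Real.exp (m j * (t0 + j * Δ)) := mul_pos (hmpos _) (Real.exp_pos _)
    have h3 : N (m (j+1)) * Real.exp (m (j+1) * (t0 + j * Δ)) * Real.exp (m (j+1) * Δ) <
        N (m j) * Real.exp (m j * (t0 + j * Δ)) * Real.exp (m j * Δ) := by
      calc _ < N (m (j+1)) * Real.exp (m (j+1) * (t0 + j * Δ)) * Real.exp (m j * Δ) := by
            exact mul_lt_mul_of_pos_left hlt' hp1
        _ ≤ _ := mul_le_mul_of_nonneg_right h1 (Real.exp_pos _).le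
    nlinarith
  have hex : ∃ j < q, m j = m (j + 1) := by
    by_contra hcon
    push Not at hcon
    have hstrict : ∀ j, j ≤ q → j ≤ m j := by
      intro j
      induction j with
      | zero => intro _; exact Nat.zero_le _
      | succ j ih =>
        intro hj
        have h1 := ih (by omega)
        have h2 := hmono j
        have h3 := hcon j (by omega)
        omega
    have := hstrict q le_rfl
    have := hmq q
    omega
  obtain ⟨j, hj, hmj⟩ := hex
  refine ⟨j, hj, m j, hmq j, hmpos j, ?_⟩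
  intro b hb
  set c := m j with hc
  rcases le_total b c with hbc | hbc
  · have h1 := hm j b hb
    rw [← hc] at h1
    have hbc' : (b:ℝ) ≤ c := by exact_mod_cast hbc
    have e1 : Real.exp (b * (t0 + (j + 1 / 2) * Δ)) =
        Real.exp (b * (t0 + j * Δ)) * Real.exp (b * (Δ/2)) := by
      rw [← Real.exp_add]; congr 1; ring
    have e2 : Real.exp (c * (t0 + (j + 1 / 2) * Δ)) * Real.exp (-(|(b:ℝ) - c| * (Δ / 2))) =
        Real.exp (c * (t0 + j * Δ)) * Real.exp (b * (Δ/2)) := by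
      rw [← Real.exp_add, ← Real.exp_add, abs_of_nonpos (by linarith)]; congr 1; ring
    rw [e1, mul_assoc (N c), e2, ← mul_assoc, ← mul_assoc]
    exact mul_le_mul_of_nonneg_right h1 (Real.exp_pos _).le
  · have h1 := hm (j+1) b hb
    rw [← hmj] at h1
    have hbc' : (c:ℝ) ≤ b := by exact_mod_cast hbc
    have e1 : Real.exp (b * (t0 + (j + 1 / 2) * Δ)) =
        Real.exp (b * (t0 + ((j+1:ℕ):ℝ) * Δ)) * Real.exp (-(b * (Δ/2))) := by
      rw [← Real.exp_add]; congr 1; push_cast; ring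
    have e2 : Real.exp (c * (t0 + (j + 1 / 2) * Δ)) * Real.exp (-(|(b:ℝ) - c| * (Δ / 2))) =
        Real.exp (c * (t0 + ((j+1:ℕ):ℝ) * Δ)) * Real.exp (-(b * (Δ/2))) := by
      rw [← Real.exp_add, ← Real.exp_add, abs_of_nonneg (by linarith)]
      congr 1; push_cast; ring
    rw [e1, mul_assoc (N c), e2, ← mul_assoc, ← mul_assoc]
    exact mul_le_mul_of_nonneg_right h1 (Real.exp_pos _).le

/-- Zero estimate. -/
theorem zero_estimate {q D : ℕ} {k r R1 r1 A M Δ xm xp : ℝ} {ν : ℂ → ℂ}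
    (hr : 0 < r) (hR1 : 6 * r < R1) (hν : DifferentiableOn ℂ ν (ball (k:ℂ) R1))
    (hν0 : ∀ z ∈ ball (k:ℂ) R1, ν z ≠ 0) (hA : 0 ≤ A)
    (hlip : ∀ z w : ℂ, ‖z - k‖ ≤ 6 * r → ‖w - k‖ ≤ 6 * r →
      Real.log ‖ν z‖ ≤ Real.log ‖ν w‖ + A * ‖z - w‖ + 1)
    (hxm : |xm - k| ≤ r / 2) (hxp : |xp - k| ≤ r / 2)
    (hrange : Real.log ‖ν xp‖ + q * Δ = Real.log ‖ν xm‖)
    (hΔ : 16 ≤ Δ) (hr1 : 0 < r1) (hr1r : r1 ≤ r / 2) (hr1A : A * r1 ≤ Δ / 16)
    (hdom : 2 * q * (2 * r / r1) ^ D ≤ Real.exp (3 * Δ / 8))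
    (P : ℕ → ℂ[X]) (hPD : ∀ b < q, (P b).natDegree ≤ D) (hP0 : ∃ b < q, P b ≠ 0)
    (s : Finset ℂ) (hM : M ≤ r)
    (hs : ∀ x ∈ s, ‖x - k‖ ≤ M ∧ ∑ b ∈ Finset.range q, (P b).eval x * ν x ^ b = 0) :
    (2:ℝ) ^ s.card ≤ 2 * q * (12 * r / r1) ^ D * Real.exp (q * (8 * A * r + 2)) := by
  classical
  have hq : 0 < q := by obtain ⟨b, hb, _⟩ := hP0; omega
  have hq' : (0:ℝ) < q := by exact_mod_cast hq
  set t : ℂ → ℝ := fun z => Real.log ‖ν z‖ with ht
  have hball : ∀ z : ℂ, ‖z - k‖ ≤ 6 * r → z ∈ ball (k:ℂ) R1 := by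
    intro z hz; rw [mem_ball, dist_eq_norm]; linarith
  have hexp : ∀ z : ℂ, ‖z - k‖ ≤ 6 * r → ‖ν z‖ = Real.exp (t z) := by
    intro z hz
    rw [ht]; simp only
    rw [Real.exp_log (norm_pos_iff.2 (hν0 z (hball z hz)))]
  -- sup norms
  have hcomp : IsCompact (closedBall (k:ℂ) r) := isCompact_closedBall _ _
  have hNex : ∀ b : ℕ, ∃ z : ℂ, ‖z - k‖ ≤ r ∧ ∀ w : ℂ, ‖w - k‖ ≤ r →
      ‖(P b).eval w‖ ≤ ‖(P b).eval z‖ := by
    intro b
    obtain ⟨z, hz, hzm⟩ := hcomp.exists_isMaxOn ⟨(k:ℂ), by simp [hr.le]⟩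
      ((P b).continuous.norm.continuousOn (s := closedBall (k:ℂ) r))
    refine ⟨z, by simpa [dist_eq_norm] using hz, fun w hw => ?_⟩
    exact hzm (by simpa [dist_eq_norm] using hw)
  choose ζ hζ hζm using hNex
  set N : ℕ → ℝ := fun b => ‖(P b).eval (ζ b)‖ with hN
  have hN0 : ∀ b, 0 ≤ N b := fun b => norm_nonneg _
  have hNpos : ∃ b < q, 0 < N b := by
    obtain ⟨b, hb, hPb⟩ := hP0
    refine ⟨b, hb, ?_⟩
    by_contra hcon
    push Not at hcon
    have h0 : ∀ w : ℂ, ‖w - k‖ ≤ r → (P b).eval w = 0 := by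
      intro w hw
      have := (hζm b w hw).trans hcon
      exact norm_le_zero_iff.1 this
    apply hPb
    apply Polynomial.eq_zero_of_infinite_isRoot
    have hinf : (closedBall (k:ℂ) r).Infinite := by
      have : (closedBall (k:ℂ) r) ∈ nhds (k:ℂ) := closedBall_mem_nhds _ hr
      exact infinite_of_mem_nhds (k:ℂ) this
    refine hinf.mono (fun w hw => ?_)
    exact h0 w (by simpa [dist_eq_norm] using hw)
  obtain ⟨j, hj, c, hc, hNc, henv⟩ := envelope q N hNpos (t xp) Δ (by linarith)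
  set tm : ℝ := t xp + (j + 1 / 2) * Δ with htm
  -- intermediate value
  have hcont : ContinuousOn (fun x : ℝ => t x) (uIcc xp xm) := by
    intro x hx
    have hxk : |x - k| ≤ r / 2 := by
      rcases (mem_uIcc.1 hx) with h | h <;>
      · rw [abs_le] at hxm hxp ⊢; constructor <;> linarith [hxm.1, hxm.2, hxp.1, hxp.2]
    have hxk' : ‖(x:ℂ) - k‖ ≤ 6 * r := by
      rw [← ofReal_sub, norm_real, Real.norm_eq_abs]; linarith
    have h1 : ContinuousAt ν (x:ℂ) :=
      (hν.differentiableAt (isOpen_ball.mem_nhds (hball _ hxk'))).continuousAt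
    have h2 : ContinuousAt (fun y : ℝ => ν (y:ℂ)) x :=
      ContinuousAt.comp (f := fun y : ℝ => (y:ℂ)) (g := ν) h1 continuous_ofReal.continuousAt
    have h3 : ContinuousAt (fun y : ℝ => t y) x := by
      rw [ht]
      exact (h2.norm).log (norm_ne_zero_iff.2 (hν0 _ (hball _ hxk')))
    exact h3.continuousWithinAt
  have hjq : (j:ℝ) + 1 ≤ q := by exact_mod_cast hj
  have htmmem : tm ∈ uIcc (t xp) (t xm) := by
    have h1 : t xp + q * Δ = t xm := hrange
    rw [mem_uIcc]; left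
    constructor
    · rw [htm]; have : (0:ℝ) ≤ j := Nat.cast_nonneg j; nlinarith
    · rw [htm, ← h1]; nlinarith
  obtain ⟨x0, hx0, hx0t⟩ := intermediate_value_uIcc hcont htmmem
  have hx0k : |x0 - k| ≤ r / 2 := by
    rcases (mem_uIcc.1 hx0) with h | h <;>
    · rw [abs_le] at hxm hxp ⊢; constructor <;> linarith [hxm.1, hxm.2, hxp.1, hxp.2]
  have hx0k' : ‖(x0:ℂ) - k‖ ≤ r / 2 := by
    rw [← ofReal_sub, norm_real, Real.norm_eq_abs]; exact hx0k
  simp only at hx0t
  -- z1
  obtain ⟨z1, hz1, hz1m⟩ := (isCompact_closedBall (x0:ℂ) r1).exists_isMaxOn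
    ⟨(x0:ℂ), by simp [hr1.le]⟩ ((P c).continuous.norm.continuousOn (s := closedBall (x0:ℂ) r1))
  have hz1' : ‖z1 - x0‖ ≤ r1 := by simpa [dist_eq_norm] using hz1
  have hz1k : ‖z1 - k‖ ≤ r := by
    have : z1 - k = (z1 - x0) + (x0 - k) := by ring
    rw [this]; refine (norm_add_le _ _).trans ?_; linarith
  have hNcz1 : N c ≤ ‖(P c).eval z1‖ * (2 * r / r1) ^ D := by
    have := poly_growth (hPD c hc) (x := (x0:ℂ)) (r := r1) (ρ := 2 * r) hr1 (by linarith)
      (m := ‖(P c).eval z1‖) (fun w hw => hz1m (by simpa [dist_eq_norm] using hw))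
      (z := ζ c) (by
        have : ζ c - x0 = (ζ c - k) - (x0 - k) := by ring
        rw [this]; refine (norm_sub_le _ _).trans ?_
        have := hζ c; linarith)
    exact this
  -- t at z1
  have htz1 : |t z1 - tm| ≤ Δ / 8 := by
    have h1 := hlip z1 x0 (by linarith) (by linarith)
    have h2 := hlip x0 z1 (by linarith) (by linarith)
    have h3 : A * ‖z1 - x0‖ ≤ Δ / 16 := le_trans (by gcongr) hr1A
    have h4 : A * ‖(x0:ℂ) - z1‖ ≤ Δ / 16 := by rw [norm_sub_rev]; exact h3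
    rw [← hx0t, abs_le]
    have e1 : t z1 = Real.log ‖ν z1‖ := rfl
    have e2 : t x0 = Real.log ‖ν x0‖ := rfl
    rw [e1, e2]
    constructor <;> linarith
  have htz1A : tm ≤ t z1 + (A * r + 1) := by
    have h2 := hlip x0 z1 (by linarith) (by linarith)
    have h3 : A * ‖(x0:ℂ) - z1‖ ≤ A * r := by
      rw [norm_sub_rev]; gcongr; linarith
    rw [← hx0t]
    have e1 : t z1 = Real.log ‖ν z1‖ := rfl
    have e2 : t x0 = Real.log ‖ν x0‖ := rfl
    rw [e1, e2]; linarith
  set E : ℝ := N c * Real.exp (c * tm) with hE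
  have hEpos : 0 < E := mul_pos hNc (Real.exp_pos _)
  set W : ℝ := (2 * r / r1) ^ D with hW
  have hW1 : 1 ≤ W := one_le_pow₀ (by rw [one_le_div hr1]; linarith)
  -- lower bound
  set G : ℂ → ℂ := fun z => ∑ b ∈ Finset.range q, (P b).eval z * ν z ^ b with hG
  have hother : ∀ b ∈ (Finset.range q).erase c, ‖(P b).eval z1 * ν z1 ^ b‖ ≤
      N c * Real.exp (c * t z1) * Real.exp (-(3 * Δ / 8)) := by
    intro b hb
    obtain ⟨hbc, hbq⟩ := Finset.mem_erase.1 hb
    have hbq' := Finset.mem_range.1 hbq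
    have h1 : ‖(P b).eval z1‖ ≤ N b := hζm b z1 hz1k
    have h2 := henv b hbq'
    rw [norm_mul, norm_pow, hexp z1 (by linarith), ← Real.exp_nat_mul]
    have habs : 1 ≤ |(b:ℝ) - c| := by
      have : ((b:ℤ) - c) ≠ 0 := by omega
      have h3 := Int.one_le_abs this
      exact_mod_cast h3
    have e1 : Real.exp (b * t z1) = Real.exp (b * tm) * Real.exp (b * (t z1 - tm)) := by
      rw [← Real.exp_add]; congr 1; ring
    have hkey : Real.exp (c * tm) * Real.exp (-(|(b:ℝ) - c| * (Δ / 2))) *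
        Real.exp (b * (t z1 - tm)) ≤ Real.exp (c * t z1) * Real.exp (-(3 * Δ / 8)) := by
      rw [← Real.exp_add, ← Real.exp_add, ← Real.exp_add]
      apply Real.exp_le_exp.2
      have h5 : ((b:ℝ) - c) * (t z1 - tm) ≤ |(b:ℝ) - c| * (Δ / 8) := by
        calc ((b:ℝ) - c) * (t z1 - tm) ≤ |((b:ℝ) - c) * (t z1 - tm)| := le_abs_self _
          _ = |(b:ℝ) - c| * |t z1 - tm| := abs_mul _ _
          _ ≤ _ := by gcongr
      nlinarith [mul_le_mul_of_nonneg_right habs (show (0:ℝ) ≤ 3 * Δ / 8 by linarith)]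
    calc ‖(P b).eval z1‖ * Real.exp (b * t z1) ≤ N b * Real.exp (b * t z1) := by gcongr
      _ = (N b * Real.exp (b * tm)) * Real.exp (b * (t z1 - tm)) := by rw [e1]; ring
      _ ≤ (N c * Real.exp (c * tm) * Real.exp (-(|(b:ℝ) - c| * (Δ / 2)))) *
          Real.exp (b * (t z1 - tm)) := by gcongr
      _ = N c * (Real.exp (c * tm) * Real.exp (-(|(b:ℝ) - c| * (Δ / 2))) *
          Real.exp (b * (t z1 - tm))) := by ring
      _ ≤ N c * (Real.exp (c * t z1) * Real.exp (-(3 * Δ / 8))) := by gcongr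
      _ = _ := by ring
  have hsumother : ‖∑ b ∈ (Finset.range q).erase c, (P b).eval z1 * ν z1 ^ b‖ ≤
      q * (N c * Real.exp (c * t z1) * Real.exp (-(3 * Δ / 8))) := by
    refine (norm_sum_le _ _).trans ?_
    refine (Finset.sum_le_card_nsmul _ _ _ hother).trans ?_
    rw [nsmul_eq_mul]
    have hcard : (((Finset.range q).erase c).card : ℝ) ≤ q := by
      have : ((Finset.range q).erase c).card ≤ q := by
        refine (Finset.card_erase_le).trans ?_
        simp
      exact_mod_cast this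
    have : 0 ≤ N c * Real.exp (c * t z1) * Real.exp (-(3 * Δ / 8)) := by positivity
    gcongr
  have hGlow : N c * Real.exp (c * t z1) / (2 * W) ≤ ‖G z1‖ := by
    have hsplit : G z1 = (P c).eval z1 * ν z1 ^ c +
        ∑ b ∈ (Finset.range q).erase c, (P b).eval z1 * ν z1 ^ b := by
      rw [hG]; simp only
      rw [Finset.add_sum_erase (Finset.range q) (fun b => (P b).eval z1 * ν z1 ^ b)
        (Finset.mem_range.2 hc)]
    have hmain : N c * Real.exp (c * t z1) / W ≤ ‖(P c).eval z1 * ν z1 ^ c‖ := by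
      rw [norm_mul, norm_pow, hexp z1 (by linarith), ← Real.exp_nat_mul, div_le_iff₀ (by linarith)]
      calc N c * Real.exp (c * t z1) ≤ (‖(P c).eval z1‖ * W) * Real.exp (c * t z1) := by gcongr
        _ = _ := by ring
    have hsmall : q * (N c * Real.exp (c * t z1) * Real.exp (-(3 * Δ / 8))) ≤
        N c * Real.exp (c * t z1) / (2 * W) := by
      have h1 : (q:ℝ) * Real.exp (-(3 * Δ / 8)) ≤ 1 / (2 * W) := by
        rw [Real.exp_neg, le_div_iff₀ (by linarith), ← div_eq_mul_inv, div_mul_eq_mul_div,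
          div_le_iff₀ (Real.exp_pos _)]
        linarith
      have h2 : 0 ≤ N c * Real.exp (c * t z1) := by positivity
      calc q * (N c * Real.exp (c * t z1) * Real.exp (-(3 * Δ / 8)))
          = N c * Real.exp (c * t z1) * (q * Real.exp (-(3 * Δ / 8))) := by ring
        _ ≤ N c * Real.exp (c * t z1) * (1 / (2 * W)) := by gcongr
        _ = _ := by ring
    have htri : ‖(P c).eval z1 * ν z1 ^ c‖ ≤ ‖G z1‖ +
        ‖∑ b ∈ (Finset.range q).erase c, (P b).eval z1 * ν z1 ^ b‖ := by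
      have : (P c).eval z1 * ν z1 ^ c = G z1 -
        ∑ b ∈ (Finset.range q).erase c, (P b).eval z1 * ν z1 ^ b := by rw [hsplit]; ring
      rw [this]; exact norm_sub_le _ _
    have e3 : N c * Real.exp (c * t z1) / W = 2 * (N c * Real.exp (c * t z1) / (2 * W)) := by
      field_simp
    rw [e3] at hmain
    linarith
  have hGlow2 : E * Real.exp (-(q * (A * r + 1))) / (2 * W) ≤ ‖G z1‖ := by
    refine le_trans ?_ hGlow
    have hc' : (c:ℝ) ≤ q := by exact_mod_cast hc.le
    have h1 : Real.exp (c * tm) * Real.exp (-(q * (A * r + 1))) ≤ Real.exp (c * t z1) := by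
      rw [← Real.exp_add]
      apply Real.exp_le_exp.2
      have h2 : (c:ℝ) * tm ≤ c * (t z1 + (A * r + 1)) := by gcongr
      have h3 : (c:ℝ) * (A * r + 1) ≤ q * (A * r + 1) := by gcongr
      nlinarith
    rw [hE]
    have h4 : 0 < 2 * W := by linarith
    have h5 : N c * Real.exp (c * tm) * Real.exp (-(q * (A * r + 1))) ≤
        N c * Real.exp (c * t z1) := by
      calc N c * Real.exp (c * tm) * Real.exp (-(q * (A * r + 1)))
          = N c * (Real.exp (c * tm) * Real.exp (-(q * (A * r + 1)))) := by ring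
        _ ≤ _ := mul_le_mul_of_nonneg_left h1 (hN0 c)
    exact div_le_div_of_nonneg_right h5 h4.le
  -- upper bound
  have hGup : ∀ z : ℂ, ‖z - k‖ ≤ 6 * r →
      ‖G z‖ ≤ q * (6 ^ D * Real.exp (q * (7 * A * r + 1)) * E) := by
    intro z hz
    rw [hG]; simp only
    refine (norm_sum_le _ _).trans ?_
    have hterm : ∀ b ∈ Finset.range q, ‖(P b).eval z * ν z ^ b‖ ≤
        6 ^ D * Real.exp (q * (7 * A * r + 1)) * E := by
      intro b hb
      have hbq := Finset.mem_range.1 hb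
      have hbq' : (b:ℝ) ≤ q := by exact_mod_cast hbq.le
      have h1 : ‖(P b).eval z‖ ≤ N b * (6 * r / r) ^ D :=
        poly_growth (hPD b hbq) (x := (k:ℂ)) (r := r) (ρ := 6 * r) hr (by linarith)
          (m := N b) (fun w hw => hζm b w hw) hz
      have h6 : 6 * r / r = 6 := by field_simp
      rw [h6] at h1
      have h2 : t z ≤ tm + (7 * A * r + 1) := by
        have h3 := hlip z x0 hz (by linarith)
        have h4 : ‖z - x0‖ ≤ 7 * r := by
          have : z - x0 = (z - k) - (x0 - k) := by ring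
          rw [this]; refine (norm_sub_le _ _).trans ?_; linarith
        have h5 : A * ‖z - x0‖ ≤ 7 * A * r := by
          calc A * ‖z - x0‖ ≤ A * (7 * r) := by gcongr
            _ = _ := by ring
        rw [← hx0t]
        have e1 : t z = Real.log ‖ν z‖ := rfl
        have e2 : t x0 = Real.log ‖ν x0‖ := rfl
        rw [e1, e2]; linarith
      have h7 : N b * Real.exp (b * tm) ≤ E := by
        refine (henv b hbq).trans ?_
        rw [hE]
        have : Real.exp (-(|(b:ℝ) - c| * (Δ / 2))) ≤ 1 := by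
          apply Real.exp_le_one_iff.2
          have : 0 ≤ |(b:ℝ) - c| * (Δ / 2) := by
            apply mul_nonneg (abs_nonneg _); linarith
          linarith
        have h8 : 0 ≤ N c * Real.exp (c * tm) := by positivity
        calc N c * Real.exp (c * tm) * Real.exp (-(|(b:ℝ) - c| * (Δ / 2)))
            ≤ N c * Real.exp (c * tm) * 1 := by gcongr
          _ = _ := mul_one _
      rw [norm_mul, norm_pow, hexp z hz, ← Real.exp_nat_mul]
      have h9 : Real.exp (b * t z) ≤ Real.exp (b * tm) * Real.exp (q * (7 * A * r + 1)) := by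
        rw [← Real.exp_add]
        apply Real.exp_le_exp.2
        have hAr : 0 ≤ 7 * A * r + 1 := by positivity
        have h10 : (b:ℝ) * t z ≤ b * (tm + (7 * A * r + 1)) := by gcongr
        have h11 : (b:ℝ) * (7 * A * r + 1) ≤ q * (7 * A * r + 1) := by gcongr
        nlinarith
      have h12 : 0 ≤ N b * 6 ^ D := mul_nonneg (hN0 b) (by positivity)
      have h13 : (0:ℝ) ≤ 6 ^ D * Real.exp (q * (7 * A * r + 1)) := by positivity
      calc ‖(P b).eval z‖ * Real.exp (b * t z)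
          ≤ (N b * 6 ^ D) * (Real.exp (b * tm) * Real.exp (q * (7 * A * r + 1))) :=
            mul_le_mul h1 h9 (Real.exp_pos _).le h12
        _ = 6 ^ D * Real.exp (q * (7 * A * r + 1)) * (N b * Real.exp (b * tm)) := by ring
        _ ≤ _ := mul_le_mul_of_nonneg_left h7 h13
    refine (Finset.sum_le_card_nsmul _ _ _ hterm).trans ?_
    rw [nsmul_eq_mul, Finset.card_range]
  -- Schwarz
  have hGd : DifferentiableOn ℂ G (ball (k:ℂ) R1) := by
    rw [hG]
    apply DifferentiableOn.fun_sum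
    intro b _
    exact ((P b).differentiable.differentiableOn).mul (hν.pow b)
  have hS := schwarz_zeros (c := (k:ℂ)) (R := 6 * r) (R1 := R1) (M := M) (ρ := r)
    (by linarith) hR1 hGd s hs (by linarith) hGup hz1k (by linarith)
  have hhalf : ((r + M) / (6 * r - M)) ^ s.card ≤ (1 / 2) ^ s.card := by
    rcases s.eq_empty_or_nonempty with h | ⟨x, hx⟩
    · rw [h]; simp
    · have hM0 : 0 ≤ M := le_trans (norm_nonneg _) (hs x hx).1
      refine pow_le_pow_left₀ (div_nonneg (by linarith) (by linarith)) ?_ _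
      rw [div_le_iff₀ (by linarith)]; linarith
  have hE2 : 0 ≤ q * (6 ^ D * Real.exp (q * (7 * A * r + 1)) * E) := by positivity
  have hfin : E * Real.exp (-(q * (A * r + 1))) / (2 * W) ≤
      (1/2) ^ s.card * (q * (6 ^ D * Real.exp (q * (7 * A * r + 1)) * E)) := by
    refine hGlow2.trans (hS.trans ?_)
    gcongr
  have h2pow : (0:ℝ) < 2 ^ s.card := by positivity
  rw [one_div, inv_pow, inv_mul_eq_div, div_le_div_iff₀ (by linarith) h2pow] at hfin
  have hexp2 : Real.exp (q * (8 * A * r + 2)) * Real.exp (-(q * (A * r + 1))) =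
      Real.exp (q * (7 * A * r + 1)) := by
    rw [← Real.exp_add]; congr 1; ring
  have hpos : 0 < E * Real.exp (-(q * (A * r + 1))) := by positivity
  have hWW : (12 * r / r1) ^ D = 6 ^ D * W := by
    rw [hW, ← mul_pow]; congr 1; ring
  rw [hWW]
  have : 2 ^ s.card * (E * Real.exp (-(q * (A * r + 1)))) ≤
      (2 * q * (6 ^ D * W) * Real.exp (q * (8 * A * r + 2))) *
        (E * Real.exp (-(q * (A * r + 1)))) := by
    calc 2 ^ s.card * (E * Real.exp (-(q * (A * r + 1))))
        = E * Real.exp (-(q * (A * r + 1))) * 2 ^ s.card := by ring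
      _ ≤ q * (6 ^ D * Real.exp (q * (7 * A * r + 1)) * E) * (2 * W) := hfin
      _ = (2 * q * (6 ^ D * W)) * E * Real.exp (q * (7 * A * r + 1)) := by ring
      _ = (2 * q * (6 ^ D * W)) * E * (Real.exp (q * (8 * A * r + 2)) *
            Real.exp (-(q * (A * r + 1)))) := by rw [hexp2]
      _ = _ := by ring
  exact le_of_mul_le_mul_right this hpos

end Pool.Helper53.SG
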